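import Pool.Agent.D0H10.Q4.FinI

/-!
Project Q4: the final statement over `ℚ(i)` from the inputs.
-/

set_option autoImplicit false

open NumberField IsDedekindDomain WeierstrassCurve Filter
open scoped Topology Classical

namespace Pool.Agent.D0H10.Q4

open H385 (ZI RQ im1 nrm)
open Pool.Agent.TH841.NF.D (Sha)
open Pool.Agent.Y699 (SB mem_SB PS pi1 pi1_prime)
open Pool.Agent.H304R2.EC.A1 (prim)
open Pool.Agent.D0H43.Q4

/-- the classes `i Δ`, `- i Δ` -/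
def S1 : Finset (ℕ × ℕ) := {(1, 0), (3, 0)}

/-- the class `2 Δ` -/
def S2 : Finset (ℕ × ℕ) := {(3, 2)}

/-- all -/
def S3 : Finset (ℕ × ℕ) := {(1, 0), (3, 0), (3, 2)}

lemma inS1_iff (D : ZI) : InS S1 D ↔ Squarefree D ∧ D.re % 2 = 0 ∧ D.im % 2 = 1 := by
  constructor
  · rintro ⟨⟨a, b⟩, hp, Δ, hΔ, rfl⟩
    have h1 : (a = 1 ∧ b = 0) ∨ (a = 3 ∧ b = 0) := by simpa [S1] using hp
    obtain ⟨h2, h3⟩ := hΔ.prm
    have hsq : Squarefree (cl a b Δ) :=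
      sqf_iff.2 ⟨a, b, Δ, by omega, by omega, hΔ, rfl⟩
    refine ⟨hsq, ?_⟩
    rcases h1 with ⟨rfl, rfl⟩ | ⟨rfl, rfl⟩
    · have h4 : cl 1 0 Δ = ⟨-Δ.im, Δ.re⟩ := by
        unfold cl
        rw [pow_one, pow_zero, one_mul]
        apply Zsqrtd.ext <;> simp [im1]
      show (cl 1 0 Δ).re % 2 = 0 ∧ (cl 1 0 Δ).im % 2 = 1
      rw [h4]
      constructor
      · show (-Δ.im) % 2 = 0
        omega
      · show Δ.re % 2 = 1
        omega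
    · have h4 : cl 3 0 Δ = ⟨Δ.im, -Δ.re⟩ := by
        unfold cl
        rw [show (im1 : ZI) ^ 3 = ⟨0, -1⟩ by decide, pow_zero, one_mul]
        apply Zsqrtd.ext <;> simp
      show (cl 3 0 Δ).re % 2 = 0 ∧ (cl 3 0 Δ).im % 2 = 1
      rw [h4]
      constructor
      · show (Δ.im) % 2 = 0
        omega
      · show (-Δ.re) % 2 = 1
        omega
  · rintro ⟨hsq, h1, h2⟩
    obtain ⟨a, b, Δ, ha, hb, hΔ, rfl⟩ := sqf_iff.1 hsq
    obtain ⟨h3, h4⟩ := hΔ.prm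
    have hb0 : b = 0 := by
      by_contra hb1
      have hb2 : b = 1 := by omega
      subst hb2
      have h5 : nrm (cl a 1 Δ) = 2 ^ 1 * nrm Δ := nrm_cl a 1 Δ
      have h6 := nrm_eq (cl a 1 Δ)
      rw [h5, Zsqrtd.norm_def] at h6
      push_cast at h6
      have h7 : ((cl a 1 Δ).re * (cl a 1 Δ).re - -1 * (cl a 1 Δ).im * (cl a 1 Δ).im) % 2 = 1 := by
        rw [Int.sub_emod, Int.mul_emod, h1, mul_assoc, Int.mul_emod (-1), Int.mul_emod (cl a 1 Δ).im,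
          h2]
        norm_num
      omega
    subst hb0
    interval_cases a
    · exfalso
      have h5 : cl 0 0 Δ = Δ := by
        unfold cl
        rw [pow_zero, pow_zero, one_mul, one_mul]
      rw [h5] at h1
      omega
    · exact ⟨(1, 0), by simp [S1], Δ, hΔ, rfl⟩
    · exfalso
      have h5 : cl 2 0 Δ = -Δ := by
        unfold cl
        rw [show (im1 : ZI) ^ 2 = -1 by decide, pow_zero, one_mul, neg_one_mul]
      rw [h5] at h1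
      have h6 : (-Δ).re = -Δ.re := by simp
      rw [h6] at h1
      omega
    · exact ⟨(3, 0), by simp [S1], Δ, hΔ, rfl⟩

lemma inS2_iff (D : ZI) : InS S2 D ↔ ∃ Δ, PS Δ ∧ D = 2 * Δ := by
  constructor
  · rintro ⟨⟨a, b⟩, hp, Δ, hΔ, rfl⟩
    have h1 : a = 3 ∧ b = 2 := by simpa [S2] using hp
    obtain ⟨rfl, rfl⟩ := h1
    exact ⟨Δ, hΔ, (two_cl Δ).symm⟩
  · rintro ⟨Δ, hΔ, rfl⟩
    exact ⟨(3, 2), by simp [S2], Δ, hΔ, two_cl Δ⟩

lemma inS3_iff (D : ZI) : InS S3 D ↔ InS S1 D ∨ InS S2 D := by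
  constructor
  · rintro ⟨p, hp, h⟩
    have h1 : p = (1, 0) ∨ p = (3, 0) ∨ p = (3, 2) := by simpa [S3] using hp
    rcases h1 with rfl | rfl | rfl
    · exact Or.inl ⟨(1, 0), by simp [S1], h⟩
    · exact Or.inl ⟨(3, 0), by simp [S1], h⟩
    · exact Or.inr ⟨(3, 2), by simp [S2], h⟩
  · rintro (⟨p, hp, h⟩ | ⟨p, hp, h⟩)
    · have h1 : p = (1, 0) ∨ p = (3, 0) := by simpa [S1] using hp
      rcases h1 with rfl | rfl
      · exact ⟨(1, 0), by simp [S3], h⟩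
      · exact ⟨(3, 0), by simp [S3], h⟩
    · have h1 : p = (3, 2) := by simpa [S2] using hp
      subst h1
      exact ⟨(3, 2), by simp [S3], h⟩

section

variable {K : Type} [Field K] [NumberField K]

lemma oneK (e : ZI ≃+* 𝓞 K) (D : ZI) : (Squarefree (e D) ∧ OddI (e D)) ↔ InS S1 D := by
  rw [inS1_iff, sqf_e, oddI_iff]

lemma twoK (e : ZI ≃+* 𝓞 K) (D : ZI) : TwP (e D) ↔ InS S2 D := by
  rw [inS2_iff, twP_iff]

/-- the family -/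
def FamQ (D : 𝓞 K) : Prop := (Squarefree D ∧ OddI D) ∨ TwP D

lemma threeK (e : ZI ≃+* 𝓞 K) (D : ZI) : FamQ (e D) ↔ InS S3 D := by
  unfold FamQ
  rw [inS3_iff, oneK, twoK]

lemma facts3 (B : BK) (B1 : BD) (e : ZI ≃+* 𝓞 K) : ∀ p ∈ S3, ∀ Δ, PS Δ →
    Facts (e (cl p.1 p.2 Δ)) ∧ (FinT (e (cl p.1 p.2 Δ)) ↔ dD Δ = 1) := by
  intro p hp Δ hΔ
  have h1 : p = (1, 0) ∨ p = (3, 0) ∨ p = (3, 2) := by simpa [S3] using hp
  rcases h1 with rfl | rfl | rfl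
  · exact factsD B1 e (by norm_num) hΔ
  · exact factsD B1 e (by norm_num) hΔ
  · exact factsK B e hΔ

end

/-- **The final statement.** -/
theorem finalQi (B : BK) (B1 : BD) (hden : S_KDEN) (hsq : S_SQF) (K : Type) [Field K]
    [NumberField K] [IsCyclotomicExtension {4} ℚ K] :
    (∀ D : 𝓞 K, FamQ D → Facts D) ∧
    Tendsto (fun X : ℕ =>
      ({D : 𝓞 K | Algebra.norm ℤ D ≤ X ∧ FamQ D ∧ FinT D}.ncard : ℝ) /
        ({D : 𝓞 K | Algebra.norm ℤ D ≤ X ∧ FamQ D}.ncard : ℝ)) atTop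
      (nhds (∏' i : ℕ, (1 - (1 / 2 : ℝ) ^ (2 * i + 1)))) ∧
    Tendsto (fun X : ℕ =>
      ({D : 𝓞 K | Algebra.norm ℤ D ≤ X ∧ (Squarefree D ∧ OddI D) ∧ FinT D}.ncard : ℝ) /
        ({D : 𝓞 K | Algebra.norm ℤ D ≤ X ∧ (Squarefree D ∧ OddI D)}.ncard : ℝ)) atTop
      (nhds (∏' i : ℕ, (1 - (1 / 2 : ℝ) ^ (2 * i + 1)))) ∧
    Tendsto (fun X : ℕ =>
      ({D : 𝓞 K | Algebra.norm ℤ D ≤ X ∧ TwP D ∧ FinT D}.ncard : ℝ) /
        ({D : 𝓞 K | Algebra.norm ℤ D ≤ X ∧ TwP D}.ncard : ℝ)) atTop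
      (nhds (∏' i : ℕ, (1 - (1 / 2 : ℝ) ^ (2 * i + 1)))) ∧
    Tendsto (fun X : ℕ =>
      ({D : 𝓞 K | Algebra.norm ℤ D ≤ X ∧ (Squarefree D ∧ OddI D) ∧ FinT D}.ncard : ℝ) /
        ({D : 𝓞 K | Algebra.norm ℤ D ≤ X ∧ Squarefree D}.ncard : ℝ)) atTop
      (nhds (1 / 3 * ∏' i : ℕ, (1 - (1 / 2 : ℝ) ^ (2 * i + 1)))) := by
  obtain ⟨e, he⟩ := Rng.exists_e K
  have h4 : ∀ p ∈ S3, p.1 < 4 := by decide
  have hf := facts3 B B1 e
  have e3 : ∀ X : ℕ, {D : 𝓞 K | Algebra.norm ℤ D ≤ X ∧ FamQ D ∧ FinT D}.ncard =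
      {D : ZI | nrm D ≤ X ∧ InS S3 D ∧ FinT (e D)}.ncard := fun X =>
    img_ncard e he X (fun D => InS S3 D ∧ FinT (e D)) (fun D => FamQ D ∧ FinT D) fun D =>
      and_congr (threeK e D) Iff.rfl
  have e3' : ∀ X : ℕ, {D : 𝓞 K | Algebra.norm ℤ D ≤ X ∧ FamQ D}.ncard =
      {D : ZI | nrm D ≤ X ∧ InS S3 D}.ncard := fun X =>
    img_ncard e he X (InS S3) FamQ fun D => threeK e D
  have e1 : ∀ X : ℕ, {D : 𝓞 K | Algebra.norm ℤ D ≤ X ∧ (Squarefree D ∧ OddI D) ∧ FinT D}.ncard =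
      {D : ZI | nrm D ≤ X ∧ InS S1 D ∧ FinT (e D)}.ncard := fun X =>
    img_ncard e he X (fun D => InS S1 D ∧ FinT (e D))
      (fun D => (Squarefree D ∧ OddI D) ∧ FinT D) fun D => and_congr (oneK e D) Iff.rfl
  have e1' : ∀ X : ℕ, {D : 𝓞 K | Algebra.norm ℤ D ≤ X ∧ (Squarefree D ∧ OddI D)}.ncard =
      {D : ZI | nrm D ≤ X ∧ InS S1 D}.ncard := fun X =>
    img_ncard e he X (InS S1) (fun D => (Squarefree D ∧ OddI D)) fun D => oneK e D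
  have e2 : ∀ X : ℕ, {D : 𝓞 K | Algebra.norm ℤ D ≤ X ∧ TwP D ∧ FinT D}.ncard =
      {D : ZI | nrm D ≤ X ∧ InS S2 D ∧ FinT (e D)}.ncard := fun X =>
    img_ncard e he X (fun D => InS S2 D ∧ FinT (e D)) (fun D => TwP D ∧ FinT D) fun D =>
      and_congr (twoK e D) Iff.rfl
  have e2' : ∀ X : ℕ, {D : 𝓞 K | Algebra.norm ℤ D ≤ X ∧ TwP D}.ncard =
      {D : ZI | nrm D ≤ X ∧ InS S2 D}.ncard := fun X =>
    img_ncard e he X (InS S2) TwP fun D => twoK e D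
  have e0 : ∀ X : ℕ, {D : 𝓞 K | Algebra.norm ℤ D ≤ X ∧ Squarefree D}.ncard =
      {D : ZI | nrm D ≤ X ∧ Squarefree D}.ncard := fun X =>
    img_ncard e he X Squarefree Squarefree fun D => sqf_e e D
  have hT1 : ∀ p ∈ S1, ∀ Δ, PS Δ → (FinT (e (cl p.1 p.2 Δ)) ↔ dD Δ = 1) := fun p hp Δ hΔ =>
    (hf p ((by decide : S1 ⊆ S3) hp) Δ hΔ).2
  have hT2 : ∀ p ∈ S2, ∀ Δ, PS Δ → (FinT (e (cl p.1 p.2 Δ)) ↔ dD Δ = 1) := fun p hp Δ hΔ =>
    (hf p ((by decide : S2 ⊆ S3) hp) Δ hΔ).2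
  refine ⟨?_, ?_, ?_, ?_, ?_⟩
  · intro D hD
    obtain ⟨D, rfl⟩ := e.surjective D
    obtain ⟨p, hp, Δ, hΔ, rfl⟩ := (threeK e D).1 hD
    exact (hf p hp Δ hΔ).1
  · simp_rw [e3, e3']
    exact dens_cls hden S3 ⟨(1, 0), by decide⟩ h4 (fun D => FinT (e D)) fun p hp Δ hΔ =>
      (hf p hp Δ hΔ).2
  · simp_rw [e1, e1']
    exact dens_cls hden S1 ⟨(1, 0), by decide⟩ (by decide) (fun D => FinT (e D)) hT1
  · simp_rw [e2, e2']
    exact dens_cls hden S2 ⟨(3, 2), by decide⟩ (by decide) (fun D => FinT (e D)) hT2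
  · simp_rw [e1, e0]
    have h := prop_sqf hden hsq S1 ⟨(1, 0), by decide⟩ (by decide) (fun D => FinT (e D)) hT1
    have h5 : (∑ p ∈ S1, (1 / 2 : ℝ) ^ p.2) / 6 * cc2 =
        1 / 3 * ∏' i : ℕ, (1 - (1 / 2 : ℝ) ^ (2 * i + 1)) := by
      have h6 : (∑ p ∈ S1, (1 / 2 : ℝ) ^ p.2) = 2 := by
        unfold S1
        rw [Finset.sum_pair (by decide)]
        norm_num
      rw [h6]
      unfold cc2
      ring
    rw [h5] at h
    exact h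

end Pool.Agent.D0H10.Q4
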