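import Pool.Agent.D0H10.Q4.StmA
import Pool.Agent.Y715.Z.Sel
import Pool.Agent.Y715.Z.Val
import Pool.Agent.Y715.Z.Lser
import Pool.Agent.Y715.Z.Tpr
import Pool.Agent.Y699.R10

/-!
Project Q4: statements of the modules over `K = ℚ(i)`: the curve `y² = x³ + 2 Δ x`, `Δ` squarefree and
primary.
-/

set_option autoImplicit false

open NumberField IsDedekindDomain Filter Complex
open scoped Topology PeriodPair

namespace Pool.Agent.D0H10.Q4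

open H385 (ZI RQ im1 nrm)
open Pool.Agent.H304R3.HK (tc HC LH)
open Pool.Agent.Y699

/-- the determinant of `Δ` -/
noncomputable def dD (Δ : ZI) : ZMod 2 := dq (fam Δ) Finset.univ

/-- the curve `y² = x³ + 2 Δ x` over `K` -/
noncomputable def cK {K : Type} [Field K] [NumberField K] (e : ZI ≃+* 𝓞 K) (Δ : ZI) :
    WeierstrassCurve K := Pool.Agent.Y715.Z.q4 (Pool.Agent.Y715.Z.em0 e (2 * Δ))

/-- descent: the determinant is one -/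
def S_KSEL : Prop := ∀ (K : Type) [Field K] [NumberField K] (e : ZI ≃+* 𝓞 K) (Δ : ZI), PS Δ →
  dD Δ = 1 → Nat.card (cK e Δ).toAffine.Point = 2 ∧
    ∀ (n : ℕ) (x : Pool.Agent.TH841.NF.D.Sha (cK e Δ)), 2 ^ n • x = 0 → x = 0

/-- descent: the determinant is zero -/
def S_KCONV : Prop := ∀ (K : Type) [Field K] [NumberField K] (e : ZI ≃+* 𝓞 K) (Δ : ZI), PS Δ →
  dD Δ = 0 → Finite (cK e Δ).toAffine.Point →
    ∃ x : Pool.Agent.TH841.NF.D.Sha (cK e Δ), 2 • x = 0 ∧ x ≠ 0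

/-- torsion: `E(K)` finite implies that its order is twice an odd number -/
def S_KTOR : Prop := ∀ (K : Type) [Field K] [NumberField K] (e : ZI ≃+* 𝓞 K) (Δ : ZI), PS Δ →
  Finite (cK e Δ).toAffine.Point → Nat.card (cK e Δ).toAffine.Point = 2

open scoped Classical in
/-- Tamagawa numbers -/
def S_KTAM : Prop := ∀ (K : Type) [Field K] [NumberField K] (e : ZI ≃+* 𝓞 K) (Δ : ZI), PS Δ →
  (∀ v : HeightOneSpectrum (𝓞 K),
    WeierstrassCurve.IsMinimal (v.adicCompletionIntegers K)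
      (Pool.Agent.Y715.Z.q4 (algebraMap K (v.adicCompletion K) (Pool.Agent.Y715.Z.em0 e (2 * Δ)))) ∧
    ∃ H : AddSubgroup (Pool.Agent.Y715.Z.q4 (algebraMap K (v.adicCompletion K)
        (Pool.Agent.Y715.Z.em0 e (2 * Δ)))).toAffine.Point,
      (∀ P, P ∈ H ↔ Pool.Agent.Y696.NonsingRed Valued.v (Pool.Agent.Y715.Z.q4
        (algebraMap K (v.adicCompletion K) (Pool.Agent.Y715.Z.em0 e (2 * Δ)))) P) ∧
      H.index = Pool.Agent.Y715.Z.cT e (2 * Δ) v) ∧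
  {v : HeightOneSpectrum (𝓞 K) | Pool.Agent.Y715.Z.cT e (2 * Δ) v ≠ 1}.Finite ∧
  ∏ᶠ v : HeightOneSpectrum (𝓞 K), Pool.Agent.Y715.Z.cT e (2 * Δ) v = 2 ^ ((PD Δ).card + 1)

/-- the L-series -/
def S_KLS : Prop := ∀ (K : Type) [Field K] [NumberField K] (e : ZI ≃+* 𝓞 K) (Δ : ZI), PS Δ →
  ∀ X : ZI →* ℂ, HC (8 * Δ) X →
    (∀ a, Cc a → X a = (starRingEnd ℂ) (tc (rh a * c4 (fam Δ) Finset.univ on1 a))) →
  ∀ s : ℂ, 3 / 2 < s.re → LSeriesSummable ((fun n : ℤ => (n : ℂ)) ∘ (cK e Δ).LFunction) s ∧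
      LG X s = (cK e Δ).LSeries s

/-- the valuation of the predicted order of Sha -/
def S_KVAL : Prop := ∀ Δ : ZI, PS Δ → ∀ X : ZI →* ℂ, HC (8 * Δ) X →
    (∀ a, Cc a → X a = (starRingEnd ℂ) (tc (rh a * c4 (fam Δ) Finset.univ on1 a))) →
  ∀ (δ : ℂ), ‖δ‖ = ‖tc (2 * Δ)‖ → ∀ Λ : PeriodPair, Λ.g₂ = -4 * δ → Λ.g₃ = 0 →
  ∀ (Γ : Type) [LinearOrderedCommGroupWithZero Γ] (v : Valuation ℂ Γ), v 2 < 1 →
    v (LG X 1 * 2 * 4 / (((2 * |((starRingEnd ℂ) Λ.ω₁ * Λ.ω₂).im| : ℝ) : ℂ) *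
      2 ^ ((PD Δ).card + 1))) ≤ 1 ∧
    (v (LG X 1 * 2 * 4 / (((2 * |((starRingEnd ℂ) Λ.ω₁ * Λ.ω₂).im| : ℝ) : ℂ) *
      2 ^ ((PD Δ).card + 1))) = 1 ↔ dD Δ = 1)

open Classical in
/-- the exact proportion over `ℚ(i)` -/
def S_KDEN : Prop := Tendsto (fun X : ℕ =>
    (((SB X).filter fun Δ => dD Δ = 1).card : ℝ) / ((SB X).card : ℝ)) atTop
  (𝓝 (∏' i : ℕ, (1 - (1 / 2 : ℝ) ^ (2 * i + 1))))

end Pool.Agent.D0H10.Q4
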