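import Pool.Agent.D0H10.Q4.AllQ
import Pool.Agent.D0H10.Q4.FinJ
import Pool.Agent.D0H69.Q4.Kls
import Pool.Agent.D0H49.Q4.Sel
import Pool.Agent.D0H92.Q4.Conv
import Pool.Agent.D0H45.QK.Fin
import Pool.Agent.D0H54.Q4.Hec1
import Pool.Agent.D0H54.Q4.Gid1
import Pool.Agent.D0H52.Q4.Lim1
import Pool.Agent.D0H2.Q4.ValI
import Pool.Agent.D0H2.Q4.RhsI
import Pool.Agent.D0H2.Q4.BetI
import Pool.Agent.D0H69.Q4.Ls1
import Pool.Agent.D0H49.Q4.Sel1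
import Pool.Agent.D0H76.Q4.Conv1
import Pool.Agent.D0H15.Q4.Sqf

/-!
Project Q4: all modules over `ℚ(i)`.
-/

set_option autoImplicit false

namespace Pool.Agent.D0H10.Q4

open Pool.Agent.D0H43.Q4

/-- all modules over `ℚ(i)`, the curves `y² = x³ + 2 Δ x` -/
theorem bk : BK where
  hec := Pool.Agent.D0H54.Q4.hec
  val := kval Pool.Agent.D0H54.Q4.hec Pool.Agent.D0H52.Q4.lim Pool.Agent.D0H84.Q4.gid betA
  ls := Pool.Agent.D0H69.Q4.kls Pool.Agent.D0H77.Q4.sup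
  sel := Pool.Agent.D0H49.Q4.ksel
  conv := Pool.Agent.D0H92.Q4.kconv

/-- all modules over `ℚ(i)`, the curves `y² = x³ + i ^ σ Δ x` -/
theorem bd : BD where
  hec := Pool.Agent.D0H54.Q4.hec1
  lim := Pool.Agent.D0H52.Q4.One.lim1
  bet := Pool.Agent.D0H2.Q4.bet1 Pool.Agent.D0H52.Q4.One.lim1 Pool.Agent.D0H54.Q4.eul1
    Pool.Agent.D0H54.Q4.gid1
    (Pool.Agent.D0H2.Q4.rhs1 (Pool.Agent.D0H2.Q4.val1 Pool.Agent.D0H54.Q4.gid1))
    Pool.Agent.D0H15.Q4.comb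
  ls := Pool.Agent.D0H69.Q4.ls1
  sel := Pool.Agent.D0H49.Q4.sel1_stm
  conv := Pool.Agent.D0H76.Q4.conv1

theorem denK : S_KDEN := Pool.Agent.D0H45.QK.kden

theorem sqfK : S_SQF := Pool.Agent.D0H15.Q4.sqf

end Pool.Agent.D0H10.Q4
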