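import Pool.Agent.D0H10.Q4.Bet2

/-!
Project Q4: the values modulo the maximal ideal.
-/

set_option autoImplicit false
set_option linter.unusedSectionVars false

open Filter Complex
open scoped Topology PeriodPair
open Pool.Agent.TH936.CM

namespace Pool.Agent.D0H10.Q4

open H385 (ZI RQ im1 nrm)
open Pool.Agent.H304R3.HK (tc HC LH)
open Pool.Agent.Y699

variable {ι : Type} [DecidableEq ι]

/-- the solution of the recursion -/
def bs (t : ι → ZMod 2) (A : ι → ι → ZMod 2) : Finset ι → ZMod 2 :=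
  Finset.strongInduction fun V ih => (if V = ∅ then 1 else 0) +
    ∑ T ∈ V.ssubsets.attach, ih T.1 (Finset.mem_ssubsets.1 T.2) * ∏ k ∈ V \ T.1, (t k + ∑ l ∈ T.1, A l k)

lemma bs_eq (t : ι → ZMod 2) (A : ι → ι → ZMod 2) (V : Finset ι) :
    bs t A V = (if V = ∅ then 1 else 0) +
      ∑ T ∈ V.ssubsets, bs t A T * ∏ k ∈ V \ T, (t k + ∑ l ∈ T, A l k) := by
  unfold bs
  rw [Finset.strongInduction_eq]
  congr 1
  exact Finset.sum_attach V.ssubsets (fun T => Finset.strongInduction (fun V ih =>
    (if V = ∅ then 1 else 0) + ∑ T ∈ V.ssubsets.attach, ih T.1 (Finset.mem_ssubsets.1 T.2) *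
      ∏ k ∈ V \ T.1, (t k + ∑ l ∈ T.1, A l k)) T * ∏ k ∈ V \ T, (t k + ∑ l ∈ T, A l k))

lemma powerset_ss {M : Type*} [AddCommMonoid M] (V : Finset ι) (f : Finset ι → M) :
    ∑ T ∈ V.powerset, f T = f V + ∑ T ∈ V.ssubsets, f T := by
  have h : V.ssubsets = V.powerset.erase V := rfl
  rw [h, Finset.add_sum_erase _ _ (Finset.mem_powerset_self V)]

lemma bs_rec (t : ι → ZMod 2) (A : ι → ι → ZMod 2) (V : Finset ι) :
    ∑ T ∈ V.powerset, bs t A T * ∏ k ∈ V \ T, (t k + ∑ l ∈ T, A l k) = if V = ∅ then 1 else 0 := by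
  rw [powerset_ss, Finset.sdiff_self, Finset.prod_empty, mul_one, bs_eq t A V]
  have : ∀ a b : ZMod 2, a + b + b = a := by decide
  exact this _ _

theorem bet (hlim : S_LIM) (hgid : S_GID) (hrhs : S_RHS) (hcomb : S_COMB) : S_BET := by
  intro L Ω s h Γ _ v h2 ι _ pr hp V e he
  have hG : GG L Ω 0 ≠ 0 := by
    intro h0
    have h1 := (hgid L Ω s h).1
    rw [h0] at h1
    have h3 := h.ss
    have h4 : s = 0 := by
      have : (16 : ℂ) * s = 0 := by rw [← h1]; norm_num
      exact (mul_eq_zero.1 this).resolve_left (by norm_num)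
    rw [h4] at h3
    norm_num at h3
  -- odd exponents everywhere
  set e' : ι → ℕ := fun i => if i ∈ V then e i else 1 with he'
  have hodd : ∀ i, e' i % 2 = 1 := by
    intro i
    rw [he']
    simp only
    split_ifs with hi
    · exact he i hi
    · norm_num
  have hV : lv L Ω pr V e = lv L Ω pr V e' := lv_congr fun i hi => by
    rw [he']; simp only; rw [if_pos hi]
  have he0 : lv L Ω pr ∅ e = lv L Ω pr ∅ e' := lv_congr fun i hi => absurd hi (Finset.notMem_empty _)
  rw [hV, he0]
  have hdet : bs (wt pr) (Y699.em pr) V = dq pr V := by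
    unfold dq
    exact hcomb ι (wt pr) (Y699.em pr) (em_sy hp) _ (bs_rec _ _) V
  rw [← hdet]
  have key : ∀ V : Finset ι, Cg v (bt L Ω pr e' V) (uu (bs (wt pr) (Y699.em pr) V)) := by
    intro V
    induction V using Finset.strongInduction with
    | H V ih =>
      have h5 := bt_rec hlim h hG hp V e'
      rw [powerset_ss, Finset.sdiff_self, Finset.prod_empty, mul_one] at h5
      have h6 : Cg v (∑ T ∈ V.ssubsets, bt L Ω pr e' T * ∏ k ∈ V \ T, (ef pr T e' k / (1 + I)))
          (uu (∑ T ∈ V.ssubsets, bs (wt pr) (Y699.em pr) T *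
            ∏ k ∈ V \ T, (wt pr k + ∑ l ∈ T, Y699.em pr l k))) := by
        refine Cg.trans ?_ (uu_sum h2 _ _).symm
        refine Cg.sum _ fun T hT => ?_
        rw [uu_mul, uu_prod]
        refine (ih T (Finset.mem_ssubsets.1 hT)).mul ?_
        refine Cg.prod _ fun k hk => ?_
        exact euler_cg h2 hp (fun i _ => hodd i) (Finset.mem_sdiff.1 hk).2
      have h7 : Cg v (tc (rh (cp (DD pr V))) / tc (cp (DD pr V)) *
          ∑ᶠ q : RQ (DD pr V), (∏ j ∈ V, pf (pr j) (e' j) (8 * q.out)) *
            gg L Ω (zq Ω (cp (DD pr V)) q.out)) (uu (if V = ∅ then 1 else 0)) := by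
        by_cases hne : V = ∅
        · rw [if_pos hne, uu_one]
          subst hne
          have h8 : ((Finset.ssubsets (∅ : Finset ι))) = ∅ := by
            rw [Finset.eq_empty_iff_forall_notMem]
            intro T hT
            exact Finset.not_ssubset_empty _ (Finset.mem_ssubsets.1 hT)
          rw [h8, Finset.sum_empty, add_zero] at h5
          rw [← h5]
          have h9 : bt L Ω pr e' ∅ = 1 := by
            unfold bt
            have h0 : lv L Ω pr ∅ e' ≠ 0 := by
              rw [lv_empty h]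
              exact mul_ne_zero (div_ne_zero h.gl.lat.ne (by norm_num)) hG
            rw [Finset.card_empty, pow_zero, one_mul, div_self h0]
          rw [h9]
          exact Cg.refl (by rw [map_one])
        · rw [if_neg hne, uu_zero]
          apply Cg.zero
          have h8 := hrhs L Ω s h Γ v h2 ι pr hp V e' (Finset.nonempty_iff_ne_empty.2 hne)
            (fun i _ => hodd i)
          obtain ⟨z, hz, hz1⟩ := tc_Cc h2 (cp_Cc (DD_prim hp V))
          have h9 : v (tc (rh (cp (DD pr V)))) ≤ 1 := tc_le h2 _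
          rw [map_mul, map_div₀, hz1, div_one]
          exact (mul_le_of_le_one_left' h9).trans_lt h8
      have h8 : bt L Ω pr e' V = tc (rh (cp (DD pr V))) / tc (cp (DD pr V)) *
          ∑ᶠ q : RQ (DD pr V), (∏ j ∈ V, pf (pr j) (e' j) (8 * q.out)) *
            gg L Ω (zq Ω (cp (DD pr V)) q.out) -
          ∑ T ∈ V.ssubsets, bt L Ω pr e' T * ∏ k ∈ V \ T, (ef pr T e' k / (1 + I)) := by
        rw [← h5]; ring
      rw [h8, bs_eq]
      have h9 := h7.sub h6
      refine h9.trans ?_
      have h10 := uu_add h2 (if V = ∅ then (1 : ZMod 2) else 0) (∑ T ∈ V.ssubsets,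
        bs (wt pr) (Y699.em pr) T * ∏ k ∈ V \ T, (wt pr k + ∑ l ∈ T, Y699.em pr l k))
      refine Cg.trans ?_ h10.symm
      set a := (if V = ∅ then (1 : ZMod 2) else 0)
      set b := ∑ T ∈ V.ssubsets, bs (wt pr) (Y699.em pr) T *
        ∏ k ∈ V \ T, (wt pr k + ∑ l ∈ T, Y699.em pr l k)
      apply cg_of (v.map_add_le (v_uu a) (v_uu b))
      have e1 : uu a - uu b - (uu a + uu b) = -(2 * uu b) := by ring
      rw [e1, Valuation.map_neg, map_mul]
      exact (mul_le_of_le_one_right' (v_uu b)).trans_lt h2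
  exact key V

end Pool.Agent.D0H10.Q4
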