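import Pool.Agent.D0H10.Q4.StmA

/-!
Project Q4: the multiplicative system of representatives.
-/

set_option autoImplicit false

open Filter Complex
open scoped Topology PeriodPair
open Pool.Agent.TH936.CM

namespace Pool.Agent.D0H10.Q4

open H385 (ZI RQ im1 nrm)
open Pool.Agent.H304R3.HK (tc HC LH)
open Pool.Agent.Y699
open Pool.Agent.W164.RC (tc_mul)
open Pool.Agent.H304R2.EC.A1 (prim prim_mul prim_one re_mul' im_mul')

lemma Cc_one : Cc 1 := by unfold Cc; decide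

lemma Cc_mul {a b : ZI} (ha : Cc a) (hb : Cc b) : Cc (a * b) := by
  obtain ⟨a1, a2⟩ := ha
  obtain ⟨b1, b2⟩ := hb
  obtain ⟨x, hx⟩ : ∃ x, a.re = 1 + 4 * x := ⟨a.re / 4, by omega⟩
  obtain ⟨y, hy⟩ : ∃ y, a.im = 2 * y := ⟨a.im / 2, by omega⟩
  obtain ⟨z, hz⟩ : ∃ z, b.re = 1 + 4 * z := ⟨b.re / 4, by omega⟩
  obtain ⟨w, hw⟩ : ∃ w, b.im = 2 * w := ⟨b.im / 2, by omega⟩
  unfold Cc
  rw [re_mul', im_mul', hx, hy, hz, hw]
  constructor
  · have e : (1 + 4 * x) * (1 + 4 * z) - 2 * y * (2 * w) = 1 + 4 * (x + z + 4 * x * z - y * w) := by ring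
    omega
  · have e : (1 + 4 * x) * (2 * w) + 2 * y * (1 + 4 * z) = 2 * ((1 + 4 * x) * w + y * (1 + 4 * z)) := by ring
    omega

lemma Cc_cancel {a b : ZI} (ha : Cc a) (hab : Cc (a * b)) : Cc b := by
  obtain ⟨a1, a2⟩ := ha
  obtain ⟨b1, b2⟩ := hab
  obtain ⟨x, hx⟩ : ∃ x, a.re = 1 + 4 * x := ⟨a.re / 4, by omega⟩
  obtain ⟨y, hy⟩ : ∃ y, a.im = 2 * y := ⟨a.im / 2, by omega⟩
  rw [re_mul', hx, hy] at b1
  rw [im_mul', hx, hy] at b2
  have h2 : b.im % 2 = 0 := by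
    have e : (1 + 4 * x) * b.im + 2 * y * b.re = b.im + 2 * (2 * x * b.im + y * b.re) := by ring
    omega
  refine ⟨?_, h2⟩
  obtain ⟨w, hw⟩ : ∃ w, b.im = 2 * w := ⟨b.im / 2, by omega⟩
  rw [hw] at b1
  have e : (1 + 4 * x) * b.re - 2 * y * (2 * w) = b.re + 4 * (x * b.re - y * w) := by ring
  omega

lemma Cc_mul_iff {a b : ZI} (ha : Cc a) : Cc (a * b) ↔ Cc b := ⟨Cc_cancel ha, Cc_mul ha⟩

lemma cp_cases (a : ZI) : cp a = a ∨ cp a = -a := by
  unfold cp
  split_ifs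
  · exact Or.inl rfl
  · exact Or.inr rfl

lemma cp_Cc {a : ZI} (h : prim a) : Cc (cp a) := by
  obtain ⟨h1, h2⟩ := h
  unfold cp Cc
  split_ifs with h3
  · exact ⟨h3, h1⟩
  · rw [Zsqrtd.re_neg, Zsqrtd.im_neg]
    omega

lemma cp_dvd {a b : ZI} : cp a ∣ b ↔ a ∣ b := by
  rcases cp_cases a with h | h <;> rw [h]
  exact neg_dvd

lemma cp_ne {a : ZI} (h : a ≠ 0) : cp a ≠ 0 := by
  rcases cp_cases a with h' | h' <;> rw [h']
  · exact h
  · exact neg_ne_zero.2 h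

/-- the exponent of `ρ` -/
def kh (a : ZI) : ℕ := (a.im / 2 % 4).toNat

lemma rh_eq (a : ZI) : rh a = im1 ^ kh a := rfl

lemma rh_norm (a : ZI) : (rh a).norm = 1 := by
  rw [rh_eq]
  induction kh a with
  | zero => simp
  | succ j ih => rw [pow_succ, Zsqrtd.norm_mul, ih]; decide

lemma kh_mod (a : ZI) : ((kh a : ℕ) : ℤ) = a.im / 2 % 4 := by
  unfold kh
  rw [Int.toNat_of_nonneg (Int.emod_nonneg _ (by norm_num))]

lemma rh_mul {a b : ZI} (ha : Cc a) (hb : Cc b) : rh (a * b) = rh a * rh b := by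
  rw [rh_eq, rh_eq, rh_eq, ← pow_add]
  apply unit_pow_mod im1_norm
  zify
  rw [kh_mod, kh_mod, kh_mod]
  obtain ⟨a1, a2⟩ := ha
  obtain ⟨b1, b2⟩ := hb
  obtain ⟨x, hx⟩ : ∃ x, a.re = 1 + 4 * x := ⟨a.re / 4, by omega⟩
  obtain ⟨y, hy⟩ : ∃ y, a.im = 2 * y := ⟨a.im / 2, by omega⟩
  obtain ⟨z, hz⟩ : ∃ z, b.re = 1 + 4 * z := ⟨b.re / 4, by omega⟩
  obtain ⟨w, hw⟩ : ∃ w, b.im = 2 * w := ⟨b.im / 2, by omega⟩
  rw [im_mul', hx, hy, hz, hw]
  have e : (1 + 4 * x) * (2 * w) + 2 * y * (1 + 4 * z) = 2 * (y + w + 4 * (x * w + y * z)) := by ring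
  rw [e]
  omega

lemma rh_add {a t : ZI} : rh (a + 8 * t) = rh a := by
  rw [rh_eq, rh_eq]
  apply unit_pow_mod im1_norm
  zify
  rw [kh_mod, kh_mod]
  have e : (a + 8 * t).im = a.im + 8 * t.im := by
    rw [Zsqrtd.im_add, im_mul']
    have e1 : (8 : ZI).re = 8 := rfl
    have e2 : (8 : ZI).im = 0 := rfl
    rw [e1, e2]; ring
  rw [e]
  omega

lemma Cc_add {a t : ZI} : Cc (a + 8 * t) ↔ Cc a := by
  unfold Cc
  have e : (a + 8 * t).im = a.im + 8 * t.im := by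
    rw [Zsqrtd.im_add, im_mul']
    have e1 : (8 : ZI).re = 8 := rfl
    have e2 : (8 : ZI).im = 0 := rfl
    rw [e1, e2]; ring
  have e' : (a + 8 * t).re = a.re + 8 * t.re := by
    rw [Zsqrtd.re_add, re_mul']
    have e1 : (8 : ZI).re = 8 := rfl
    have e2 : (8 : ZI).im = 0 := rfl
    rw [e1, e2]; ring
  rw [e, e']
  omega

variable {ι : Type} [DecidableEq ι] {pr : ι → ZI}

lemma ccm_bd (hp : PF pr) (V : Finset ι) (e : ι → ℕ) (a : ZI) : ‖ccm pr V e a‖ ≤ 1 := by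
  unfold ccm
  split_ifs
  · rw [tc_mul, norm_mul, unit_tc (rh_norm a), one_mul]
    exact c4_bd hp V e a
  · rw [norm_zero]; norm_num

lemma ccm_mul (hp : PF pr) {V : Finset ι} {e : ι → ℕ} {a b : ZI} (ha : Cc a) :
    ccm pr V e (a * b) = tc (rh a * c4 pr V e a) * ccm pr V e b := by
  unfold ccm
  by_cases hb : Cc b
  · rw [if_pos (Cc_mul ha hb), if_pos hb, rh_mul ha hb, c4_mul hp, ← tc_mul]
    congr 1
    ring
  · rw [if_neg (fun h => hb (Cc_cancel ha h)), if_neg hb, mul_zero]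

/-- removing a prime with trivial exponent -/
lemma ccm_erase (hp : PF pr) {V : Finset ι} {e : ι → ℕ} {k : ι} (hk : k ∈ V) (hek : e k % 4 = 0)
    (a : ZI) : ccm pr V e a = ccm pr (V.erase k) e a -
      (open Classical in if pr k ∣ a then ccm pr (V.erase k) e a else 0) := by
  classical
  have h1 : c4 pr V e a = fe (pr k) (e k) a * c4 pr (V.erase k) e a := by
    unfold c4
    exact (Finset.mul_prod_erase V _ hk).symm
  by_cases hd : pr k ∣ a
  · rw [if_pos hd, sub_self]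
    unfold ccm
    rw [h1, fe_zero _ hd, zero_mul, mul_zero, tc_zero]
    simp
  · rw [if_neg hd, sub_zero]
    have h2 : fe (pr k) (e k) a = 1 := by
      unfold fe
      rw [if_neg hd, unit_pow_mod (q4_norm (hp.pp k) hd) (n := 0) (by omega), pow_zero]
    unfold ccm
    rw [h1, h2, one_mul]

theorem eul : S_EUL := by
  intro ι _ pr hp V e k hk hek l hl
  classical
  obtain ⟨L, Ω, hGL⟩ := exists_lat
  have hL := hGL.lat
  set π := cp (pr k) with hπ
  have hC : Cc π := cp_Cc (hp.pp k).prm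
  have hπ0 : π ≠ 0 := cp_ne (hp.pp k).ne
  have hπc := tc_ne hπ0
  set K : ℂ := tc (rh π * c4 pr (V.erase k) e π) with hK
  have hn : 0 < Complex.normSq (tc π) := Complex.normSq_pos.2 hπc
  have h1 := tendsto_scale hl hn
  have h2 : Tendsto (fun δ : ℝ => RS (ccm pr (V.erase k) e) δ -
      K / tc π * RS (ccm pr (V.erase k) e) (δ * Complex.normSq (tc π))) (𝓝[>] 0)
      (𝓝 (l - K / tc π * l)) := hl.sub (h1.const_mul _)
  have e1 : l - K / tc π * l = (1 - K / tc π) * l := by ring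
  rw [← e1]
  refine h2.congr' ?_
  filter_upwards [self_mem_nhdsWithin] with δ (hδ : 0 < δ)
  have hs1 : Summable (fun a : ZI => ccm pr (V.erase k) e a * fd δ (tc a)) :=
    summ_bd hL hδ (ccm_bd hp _ e)
  have hs2 : Summable (fun a : ZI => (if pr k ∣ a then ccm pr (V.erase k) e a else 0) *
      fd δ (tc a)) := by
    refine summ_bd hL hδ (C := 1) fun a => ?_
    split_ifs
    · exact ccm_bd hp _ e a
    · rw [norm_zero]; norm_num
  have h3 : RS (ccm pr V e) δ = RS (ccm pr (V.erase k) e) δ -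
      ∑' a : ZI, (if pr k ∣ a then ccm pr (V.erase k) e a else 0) * fd δ (tc a) := by
    unfold RS
    rw [← hs1.tsum_sub hs2]
    refine tsum_congr fun a => ?_
    rw [ccm_erase hp hk hek a]
    ring
  rw [h3]
  congr 1
  have hinj : Function.Injective (fun b : ZI => π * b) := fun a b hab => mul_left_cancel₀ hπ0 hab
  rw [← hinj.tsum_eq]
  · unfold RS
    rw [← tsum_mul_left]
    refine tsum_congr fun b => ?_
    have h4 : pr k ∣ π * b := (cp_dvd.1 (dvd_refl _)).mul_right b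
    have h5 : tc (π * b) = tc π * tc b := tc_mul _ _
    rw [if_pos h4, ccm_mul hp hC, h5, fd_mul, ← hK]
    field_simp
  · intro a ha
    rw [Function.mem_support] at ha
    have h4 : pr k ∣ a := by
      by_contra hc
      rw [if_neg hc, zero_mul] at ha
      exact ha rfl
    obtain ⟨b, hb⟩ := cp_dvd.2 h4
    exact ⟨b, hb.symm⟩

end Pool.Agent.D0H10.Q4
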