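import Pool.Agent.D0H10.Q4.StmA

/-!
Project Q4: the normalised lattice.
-/

set_option autoImplicit false

open Filter Complex
open scoped Topology PeriodPair
open Pool.Agent.TH936.CM

namespace Pool.Agent.D0H10.Q4

open H385 (ZI RQ im1 nrm)
open Pool.Agent.H304R3.HK (tc HC LH)
open Pool.Agent.Y699
open Pool.Agent.W164.RC (tc_mul)

variable {L : PeriodPair} {Ω : ℂ}

lemma IsLat_unit (h : IsLat L RG Ω) {u w : ZI} (huw : u * w = 1) : IsLat L RG (tc u * Ω) := by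
  have h1 : tc u * tc w = 1 := by rw [← tc_mul, huw, tc_one]
  have hu : tc u ≠ 0 := left_ne_zero_of_mul_eq_one h1
  refine ⟨mul_ne_zero hu h.ne, fun z => ?_⟩
  rw [mem_lat h]
  constructor
  · rintro ⟨a, rfl⟩
    refine ⟨⟨tc (w * a), mem_RG.2 ⟨_, rfl⟩⟩, ?_⟩
    show Ω * tc a = tc u * Ω * tc (w * a)
    rw [tc_mul]
    linear_combination (-(Ω * tc a)) * h1
  · rintro ⟨r, rfl⟩
    obtain ⟨a, ha⟩ := mem_RG.1 r.2
    refine ⟨u * a, ?_⟩
    rw [ha, tc_mul]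
    ring

lemma GLat_unit (h : GLat L Ω) {u w : ZI} (huw : u * w = 1) : GLat L (tc u * Ω) :=
  ⟨IsLat_unit h.lat huw, h.g2, h.g3⟩

theorem nl : S_NL := by
  obtain ⟨L, Ω₀, h₀⟩ := exists_GL
  -- the value at the half period
  obtain ⟨Ω, h, he⟩ : ∃ Ω : ℂ, GLat L Ω ∧ ℘[L] (Ω / 2) = 1 := by
    have h1 := h₀.e1_sq
    have h2 : (℘[L] (Ω₀ / 2) - 1) * (℘[L] (Ω₀ / 2) + 1) = 0 := by linear_combination h1
    rcases mul_eq_zero.1 h2 with h3 | h3
    · exact ⟨Ω₀, h₀, by linear_combination h3⟩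
    · refine ⟨tc im1 * Ω₀, GLat_unit h₀ (w := -im1) (by decide), ?_⟩
      rw [tc_im1]
      have e : I * Ω₀ / 2 = I * (Ω₀ / 2) := by ring
      rw [e, wp_I h₀.lat]
      linear_combination -h3
  have n1 : 2 * (Ω / 4) ∉ L.lattice := by
    have e : 2 * (Ω / 4) = Ω / 2 := by ring
    rw [e]; exact h.half
  have t2 : tc (2 : ZI) = 2 := by
    have := tc_int 2
    push_cast at this
    exact this
  have n2 : 2 * ((1 + I) * (Ω / 4)) ∉ L.lattice := by
    have h1 : ¬ (2 : ZI) ∣ ⟨1, 1⟩ := by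
      rintro ⟨c, hc⟩
      have r1 := congrArg Zsqrtd.re hc
      simp only [Zsqrtd.re_mul] at r1
      have e1 : (2 : ZI).re = 2 := rfl
      have e2 : (2 : ZI).im = 0 := rfl
      rw [e1, e2] at r1
      omega
    have h2 := div_notMem h.lat (by decide : (2 : ZI) ≠ 0) h1
    have e : 2 * ((1 + I) * (Ω / 4)) = Ω * tc ⟨1, 1⟩ / tc 2 := by
      rw [t2]
      unfold tc
      push_cast
      ring
    rwa [e]
  obtain ⟨m1, m0⟩ := h.mul_pi n1
  obtain ⟨m2, m3⟩ := h.mul_pi n2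
  have e2 : (1 + I) * ((1 + I) * (Ω / 4)) = I * (Ω / 2) := by linear_combination (Ω / 4) * I_sq
  rw [e2, wp_I h.lat, he] at m2
  have hz' : ℘[L] ((1 + I) * (Ω / 4)) = -I := by
    have h3 : (℘[L] ((1 + I) * (Ω / 4)) + I) ^ 2 = 0 := by linear_combination -m2 + I_sq
    have h4 := pow_eq_zero_iff (two_ne_zero) |>.1 h3
    linear_combination h4
  rw [hz'] at m1
  have hx : ℘[L] (Ω / 4) ^ 2 = 2 * ℘[L] (Ω / 4) + 1 := by
    linear_combination -m1 - 2 * ℘[L] (Ω / 4) * I_sq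
  have hy := h.eqn (GLat.two_notMem n1)
  set s := ℘[L] (Ω / 4) - 1 with hs
  have hss : s ^ 2 = 2 := by rw [hs]; linear_combination hx
  have hyy : (℘'[L] (Ω / 4) + 2 * s * (1 + s)) * (℘'[L] (Ω / 4) - 2 * s * (1 + s)) = 0 := by
    have e3 : 1 + s = ℘[L] (Ω / 4) := by rw [hs]; ring
    rw [e3]
    linear_combination hy - 4 * ℘[L] (Ω / 4) ^ 2 * hss + 4 * ℘[L] (Ω / 4) * hx
  rcases mul_eq_zero.1 hyy with h5 | h5
  · exact ⟨L, Ω, s, h, he, hss, by rw [hs]; ring, by linear_combination h5⟩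
  · have hneg : GLat L (-Ω) := by
      have := GLat_unit h (u := -1) (w := -1) (by decide)
      have e3 : tc (-1) * Ω = -Ω := by rw [tc_neg, tc_one]; ring
      rwa [e3] at this
    refine ⟨L, -Ω, s, hneg, ?_, hss, ?_, ?_⟩
    · rw [neg_div, L.weierstrassP_neg, he]
    · rw [neg_div, L.weierstrassP_neg, hs]; ring
    · rw [neg_div, L.derivWeierstrassP_neg]
      linear_combination -h5

end Pool.Agent.D0H10.Q4
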