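import Pool.Agent.D0H10.Q4.Bet3
import Pool.Agent.D0H10.Q4.Nl
import Pool.Agent.D0H10.Q4.StmB

/-!
Project Q4: the valuation of the predicted order over `ℚ(i)`.
-/

set_option autoImplicit false
set_option linter.unusedSectionVars false

open NumberField IsDedekindDomain Filter Complex
open scoped Topology PeriodPair

namespace Pool.Agent.D0H10.Q4

open H385 (ZI RQ im1 nrm)
open Pool.Agent.H304R3.HK (tc HC LH)
open Pool.Agent.Y699
open Pool.Agent.W164.RC (tc_mul unit_cases)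

lemma X_pow {X X' : ZI →* ℂ} {q : ZI} (h : HC q X) (h' : HC q X') {w : ZI} (hw : w.norm = 1) :
    X w = X' w ∧ X w ≠ 0 := by
  have e : (⟨0, 1⟩ : ZI) = im1 := rfl
  have h1 : X im1 = -I := h.unit
  have h2 : X' im1 = -I := h'.unit
  have h3 : ∀ k : ℕ, X (im1 ^ k) = X' (im1 ^ k) ∧ X (im1 ^ k) ≠ 0 := by
    intro k
    rw [map_pow, map_pow, h1, h2]
    exact ⟨rfl, pow_ne_zero _ (neg_ne_zero.2 I_ne_zero)⟩
  rcases unit_cases hw with h4 | h4 | h4 | h4 <;> rw [h4]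
  · have := h3 0; rwa [pow_zero] at this
  · have := h3 1; rwa [pow_one] at this
  · exact h3 2
  · exact h3 3

lemma exists_Cc {a : ZI} (ha : a.norm % 2 = 1) : ∃ w : ZI, w.norm = 1 ∧ Cc (w * a) := by
  obtain ⟨u, hu1, hu2⟩ := exists_Um ha
  have h1 := cp_Cc hu2
  rcases cp_cases (u * a) with h | h
  · exact ⟨u, hu1, by rwa [h] at h1⟩
  · refine ⟨-u, by rw [Zsqrtd.norm_neg, hu1], ?_⟩
    rw [neg_mul, ← h]
    exact h1

lemma odd_of_cop {a D : ZI} (h : IsCoprime a (8 * D)) : a.norm % 2 = 1 := by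
  rw [norm_odd_iff]
  intro h'
  have h1 : pi1 ∣ (8 : ZI) := ⟨⟨4, -4⟩, by decide⟩
  exact pi1_not_dvd (isUnit_iff_dvd_one.1 (h.isUnit_of_dvd' h' (h1.mul_right D)))

/-- the character is determined by its values on `Cc` -/
lemma HC_uniq {D : ZI} {X X' : ZI →* ℂ} (h : HC (8 * D) X) (h' : HC (8 * D) X')
    (hC : ∀ a, Cc a → X a = X' a) : X = X' := by
  ext a
  by_cases ha : IsCoprime a (8 * D)
  · obtain ⟨w, hw, hwa⟩ := exists_Cc (odd_of_cop ha)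
    have h1 := hC _ hwa
    rw [map_mul, map_mul] at h1
    obtain ⟨h2, h3⟩ := X_pow h h' hw
    rw [← h2] at h1
    exact mul_left_cancel₀ h3 h1
  · have h1 : X a = 0 := by
      by_contra hc
      exact ha ((h.supp a).1 hc)
    have h2 : X' a = 0 := by
      by_contra hc
      exact ha ((h'.supp a).1 hc)
    rw [h1, h2]

/-- the central value -/
lemma cval (hhec : S_HEC) (hlim : S_LIM) {Δ : ZI} (hΔ : PS Δ) {X : ZI →* ℂ} (hX : HC (8 * Δ) X)
    (hXC : ∀ a, Cc a → X a = (starRingEnd ℂ) (tc (rh a * c4 (fam Δ) Finset.univ on1 a)))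
    {L : PeriodPair} {Ω s : ℂ} (h : NL L Ω s) :
    LH X (1 / 2) = (starRingEnd ℂ) (lv L Ω (fam Δ) Finset.univ on1) := by
  have hp := fam_PF hΔ.ne
  obtain ⟨X', h1, h2, h3⟩ := hhec _ (fam Δ) hp Finset.univ on1 (fun _ _ => by norm_num)
  rw [hΔ.DD] at h1
  have h4 : X = X' := HC_uniq hX h1 fun a ha => by rw [hXC a ha, h2 a ha]
  rw [h4]
  exact h3 _ (hlim L Ω s h _ (fam Δ) hp _ _)

lemma cg_unit {Γ : Type*} [LinearOrderedCommGroupWithZero Γ] {v : Valuation ℂ Γ} {x : ℂ} {a : ZMod 2}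
    (h : Cg v x (uu a)) : v x ≤ 1 ∧ (v x = 1 ↔ a = 1) := by
  have h0 : ∀ a : ZMod 2, a = 0 ∨ a = 1 := by decide
  refine ⟨h.l, ?_⟩
  rcases h0 a with h1 | h1
  · rw [h1, uu_zero] at h
    have h3 := h.lt
    constructor
    · intro h4; exact absurd h4 h3.ne
    · intro h4; rw [h1] at h4; exact absurd h4 (by decide)
  · rw [h1, uu_one] at h
    refine ⟨fun _ => h1, fun _ => ?_⟩
    have e6 : x = (x - 1) + 1 := by ring
    rw [e6, Valuation.map_add_eq_of_lt_right, map_one]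
    rw [map_one]
    exact h.s

lemma G0_ne (hgid : S_GID) {L : PeriodPair} {Ω s : ℂ} (h : NL L Ω s) : GG L Ω 0 ≠ 0 := by
  intro h0
  have h1 := (hgid L Ω s h).1
  rw [h0] at h1
  have h3 := h.ss
  have h4 : s = 0 := by
    have : (16 : ℂ) * s = 0 := by rw [← h1]; norm_num
    exact (mul_eq_zero.1 this).resolve_left (by norm_num)
  rw [h4] at h3
  norm_num at h3

/-- the absolute value of `G(0)` -/
lemma G0_abs (hgid : S_GID) {L : PeriodPair} {Ω s : ℂ} (h : NL L Ω s) :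
    GG L Ω 0 * (starRingEnd ℂ) (GG L Ω 0) = (16 * Real.sqrt 2 : ℝ) := by
  have h1 := (hgid L Ω s h).1
  have h3 : ‖s‖ ^ 2 = 2 := by rw [← norm_pow, h.ss]; simp
  have h4 : ‖s‖ = Real.sqrt 2 := by
    rw [← h3, Real.sqrt_sq (norm_nonneg _)]
  rw [Complex.mul_conj]
  congr 1
  rw [Complex.normSq_eq_norm_sq, ← norm_pow, h1, norm_mul, h4]
  norm_num

/-- a real fourth root of an odd integer -/
lemma v_root {Γ : Type} [LinearOrderedCommGroupWithZero Γ] {v : Valuation ℂ Γ} (h2 : v 2 < 1)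
    {x : ℝ} {n : ℤ} (hn : n % 2 = 1) {k : ℕ} (hk : k ≠ 0) (hx : x ^ k = n) : v (x : ℂ) = 1 := by
  have e1 : (x : ℂ) ^ k = ((n : ℤ) : ℂ) := by
    have e4 := congrArg (fun x : ℝ => (x : ℂ)) hx
    push_cast at e4
    exact e4
  have e5 := congrArg v e1
  rw [map_pow, Pool.Agent.Y715.Z.v_odd h2 hn] at e5
  exact v_pow_one hk e5

theorem kval (hhec : S_HEC) (hlim : S_LIM) (hgid : S_GID) (hbet : S_BET) : S_KVAL := by
  intro Δ hΔ X hX hXC δ hδ Λ hΛ2 hΛ3 Γ _ v h2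
  obtain ⟨L, Ω, s, h⟩ := nl
  have hp := fam_PF hΔ.ne
  set V : Finset {π : ZI // π ∈ PD Δ} := Finset.univ with hVdef
  have hcard : V.card = (PD Δ).card := by rw [hVdef, Finset.card_univ, Fintype.card_coe]
  have hG := G0_ne hgid h
  have hGa := G0_abs hgid h
  have hc := cval hhec hlim hΔ hX hXC h
  have h0 : lv L Ω (fam Δ) ∅ on1 ≠ 0 := by
    rw [lv_empty h]
    exact mul_ne_zero (div_ne_zero h.gl.lat.ne (by norm_num)) hG
  have hl : (1 + I : ℂ) ≠ 0 := one_I_ne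
  set β := lv L Ω (fam Δ) V on1 / ((1 + I) ^ V.card * lv L Ω (fam Δ) ∅ on1) with hβ
  have hlv : lv L Ω (fam Δ) V on1 = β * (1 + I) ^ (PD Δ).card * (Ω / 8 * GG L Ω 0) := by
    rw [hβ, lv_empty h, hcard]
    have hΩ0 := h.gl.lat.ne
    field_simp
  have b1 : Cg v β (uu (dD Δ)) := hbet L Ω s h Γ v h2 _ (fam Δ) hp V on1 (fun _ _ => by norm_num)
  have b2 : Cg (v.comap (starRingEnd ℂ)) β (uu (dD Δ)) :=
    hbet L Ω s h Γ (v.comap (starRingEnd ℂ)) (by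
      rw [Valuation.comap_apply, map_ofNat]; exact h2) _ (fam Δ) hp V on1 (fun _ _ => by norm_num)
  obtain ⟨b3, b4⟩ := cg_unit b1
  obtain ⟨b5, b6⟩ := cg_unit b2
  rw [Valuation.comap_apply] at b5 b6
  -- the value
  have hLG : LG X 1 = lv L Ω (fam Δ) V on1 * (starRingEnd ℂ) (lv L Ω (fam Δ) V on1) := by
    unfold LG
    have e : (1 : ℂ) - 1 / 2 = 1 / 2 := by norm_num
    rw [map_one, e, hc, Complex.conj_conj, mul_comm]
  have hD0 : tc Δ ≠ 0 := tc_ne hΔ.ne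
  have hn0 : (0 : ℝ) < ‖tc Δ‖ := norm_pos_iff.2 hD0
  have hodd : Δ.norm % 2 = 1 := Pool.Agent.H304R2.EC.A1.prim_norm_odd hΔ.prm
  have hδ2 : ‖δ‖ = 2 * ‖tc Δ‖ := by
    rw [hδ, tc_mul, norm_mul]
    have := tc_int 2
    push_cast at this
    rw [this]
    norm_num
  have hδ0 : δ ≠ 0 := by
    rw [← norm_pos_iff, hδ2]
    positivity
  have hs : v (Real.sqrt ‖tc Δ‖ : ℂ) = 1 := by
    apply v_root h2 hodd (k := 4) (by norm_num)
    have e3 : Real.sqrt ‖tc Δ‖ ^ 4 = (Real.sqrt ‖tc Δ‖ ^ 2) ^ 2 := by ring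
    rw [e3, Real.sq_sqrt hn0.le, ← Complex.normSq_eq_norm_sq, Pool.Agent.Y715.Z.normSq_tc]
  have hΩ : (Complex.normSq Ω : ℂ) ≠ 0 := by
    exact_mod_cast (Complex.normSq_pos.2 h.gl.lat.ne).ne'
  have hΩ2 : Ω * (starRingEnd ℂ) Ω = (Complex.normSq Ω : ℂ) := Complex.mul_conj Ω
  have e5 : (1 + I) * (1 + -I) = 2 := by linear_combination -I_sq
  have hmain : LG X 1 * 2 * 4 / (((2 * |((starRingEnd ℂ) Λ.ω₁ * Λ.ω₂).im| : ℝ) : ℂ) *
      2 ^ ((PD Δ).card + 1)) = (β * (starRingEnd ℂ) β) * ((Real.sqrt ‖tc Δ‖ : ℝ) : ℂ) := by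
    rw [Pool.Agent.Y715.Z.per h.gl hδ0 hΛ2 hΛ3, hδ2, Real.sqrt_mul (by norm_num), hLG, hlv]
    simp only [map_mul, map_div₀, map_pow, map_add, map_one, map_ofNat, Complex.conj_I]
    have e6 : (1 + I) ^ (PD Δ).card * (1 + -I) ^ (PD Δ).card = 2 ^ (PD Δ).card := by
      rw [← mul_pow, e5]
    have e7 : ((Real.sqrt 2 : ℝ) : ℂ) ^ 2 = 2 := by
      rw [← Complex.ofReal_pow, Real.sq_sqrt (by norm_num)]
      norm_num
    have e8 : ((Real.sqrt 2 : ℝ) : ℂ) ≠ 0 := by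
      intro h0; rw [h0] at e7; norm_num at e7
    have e9 : ((Real.sqrt ‖tc Δ‖ : ℝ) : ℂ) ≠ 0 := by
      exact_mod_cast (Real.sqrt_pos.2 hn0).ne'
    have e10 : (β * (1 + I) ^ (PD Δ).card * (Ω / 8 * GG L Ω 0)) *
        ((starRingEnd ℂ) β * (1 + -I) ^ (PD Δ).card *
          ((starRingEnd ℂ) Ω / 8 * (starRingEnd ℂ) (GG L Ω 0))) =
        β * (starRingEnd ℂ) β * 2 ^ (PD Δ).card * (Complex.normSq Ω : ℂ) *
          (16 * ((Real.sqrt 2 : ℝ) : ℂ)) / 64 := by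
      have hGa' : GG L Ω 0 * (starRingEnd ℂ) (GG L Ω 0) = 16 * ((Real.sqrt 2 : ℝ) : ℂ) := by
        rw [hGa]; push_cast; ring
      rw [← e6, ← hΩ2, ← hGa']
      ring
    rw [e10]
    push_cast
    field_simp
    rw [e7]
    ring
  rw [hmain, map_mul, map_mul, hs, mul_one]
  refine ⟨mul_le_one' b3 b5, ?_⟩
  constructor
  · intro h3
    rw [← b4]
    refine le_antisymm b3 ?_
    rw [← h3]
    exact mul_le_of_le_one_right' b5
  · intro h3
    rw [b4.2 h3, b6.2 h3, mul_one]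

end Pool.Agent.D0H10.Q4
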