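import Pool.Agent.D0H10.Q4.Rper
import Pool.Agent.D0H10.Q4.Kval

/-!
Project Q4: the valuation of the predicted order over `ℚ`.
-/

set_option autoImplicit false
set_option linter.unusedSectionVars false

open Filter Complex MeasureTheory
open scoped Topology PeriodPair Pointwise

namespace Pool.Agent.D0H10.Q4

open H385 (ZI RQ im1 nrm)
open Pool.Agent.H304R3.HK (tc HC LH)
open Pool.Agent.Y699
open Pool.Agent.W164.RC (tc_mul)

variable {L : PeriodPair} {Ω s : ℂ}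

/-- the real period of the twist -/
theorem OmQ_eq (h : NL L Ω s) {m : ℕ} (hm : 0 < m) :
    OmQ m = Real.sqrt 2 * ‖Ω‖ / Real.sqrt (Real.sqrt (2 * m)) := by
  set c : ℝ := Real.sqrt (2 * m) with hc
  have hm' : (0 : ℝ) < m := Nat.cast_pos.2 hm
  have hc0 : 0 < c := Real.sqrt_pos.2 (by positivity)
  have hc2 : c ^ 2 = 2 * m := Real.sq_sqrt (by positivity)
  have hps : ∀ x : ℝ, 4 * (c * x) ^ 3 + 8 * m * (c * x) = c ^ 3 * ps x := by
    intro x
    unfold ps
    have e : (m : ℝ) = c ^ 2 / 2 := by rw [hc2]; ring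
    rw [e]; ring
  have hset : {x : ℝ | 0 < 4 * x ^ 3 + 8 * m * x} = c • {x : ℝ | 0 < ps x} := by
    apply Set.ext
    intro x
    rw [Set.mem_smul_set_iff_inv_smul_mem₀ hc0.ne', Set.mem_ofPred_eq, Set.mem_ofPred_eq, smul_eq_mul]
    have e : x = c * (c⁻¹ * x) := by field_simp
    conv_lhs => rw [e, hps]
    constructor
    · intro h
      exact (mul_pos_iff_of_pos_left (by positivity)).1 h
    · intro h
      positivity
  have h1 := Measure.setIntegral_comp_smul_of_pos (μ := (volume : Measure ℝ))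
    (fun x : ℝ => 1 / Real.sqrt (4 * x ^ 3 + 8 * m * x)) {x : ℝ | 0 < ps x} hc0
  rw [← hset, Module.finrank_self, pow_one, smul_eq_mul] at h1
  have h2 : (∫ x in {x : ℝ | 0 < 4 * x ^ 3 + 8 * m * x}, 1 / Real.sqrt (4 * x ^ 3 + 8 * m * x)) =
      c * ∫ x in {x : ℝ | 0 < ps x}, 1 / Real.sqrt (4 * (c • x) ^ 3 + 8 * m * (c • x)) := by
    rw [h1]
    field_simp
  have h3 := real_per h (LP_RP h)
  unfold OmQ
  rw [h2, ← h3, ← mul_assoc, ← integral_const_mul, ← integral_div]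
  congr 1
  funext x
  rw [smul_eq_mul, hps]
  have h4 : Real.sqrt (c ^ 3 * ps x) = c * Real.sqrt c * Real.sqrt (ps x) := by
    have e : c ^ 3 * ps x = c ^ 2 * (c * ps x) := by ring
    rw [e, Real.sqrt_mul (by positivity), Real.sqrt_sq hc0.le, Real.sqrt_mul hc0.le]
    ring
  rw [h4]
  have h5 : Real.sqrt c ≠ 0 := (Real.sqrt_pos.2 hc0).ne'
  by_cases h6 : Real.sqrt (ps x) = 0
  · rw [h6]
    simp
  · field_simp

lemma Adm.pos {m : ℕ} (h : Adm m) : 0 < m := Nat.pos_of_ne_zero h.1.ne_zero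

lemma Adm.odd {m : ℕ} (h : Adm m) : (m : ℤ) % 2 = 1 := by
  have h1 : m % 2 = 1 := by
    by_contra hc
    have h2 : 2 ∣ m := by omega
    have h3 := h.2 2 (Nat.mem_primeFactors.2 ⟨Nat.prime_two, h2, h.1.ne_zero⟩)
    norm_num at h3
  omega

theorem qval (hhec : S_HEC) (hlim : S_LIM) (hgid : S_GID) (hbet : S_BET) (hcri : S_CRI) : S_QVAL := by
  intro m hm X hX hXC Γ _ v h2
  obtain ⟨L, Ω, s, h⟩ := nl
  obtain ⟨hΔ, hcd, -⟩ := hcri m hm
  have hp := fam_PF hΔ.ne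
  set V : Finset {π : ZI // π ∈ PD (m : ZI)} := Finset.univ with hVdef
  have hcard : V.card = 2 * m.primeFactors.card := by
    rw [hVdef, Finset.card_univ, Fintype.card_coe, hcd]
  set k := m.primeFactors.card with hk
  have hG := G0_ne hgid h
  have hG2 := (hgid L Ω s h).1
  have hc := cval hhec hlim hΔ hX hXC h
  have hΩ0 := h.gl.lat.ne
  have hl : (1 + I : ℂ) ≠ 0 := one_I_ne
  set β := lv L Ω (fam (m : ZI)) V on1 / ((1 + I) ^ V.card * lv L Ω (fam (m : ZI)) ∅ on1) with hβ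
  have hlv : lv L Ω (fam (m : ZI)) V on1 = β * (1 + I) ^ (2 * k) * (Ω / 8 * GG L Ω 0) := by
    rw [hβ, lv_empty h, hcard]
    field_simp
  have b2 : Cg (v.comap (starRingEnd ℂ)) β (uu (dD (m : ZI))) :=
    hbet L Ω s h Γ (v.comap (starRingEnd ℂ)) (by
      rw [Valuation.comap_apply, map_ofNat]; exact h2) _ (fam (m : ZI)) hp V on1
      (fun _ _ => by norm_num)
  obtain ⟨b5, b6⟩ := cg_unit b2
  rw [Valuation.comap_apply] at b5 b6
  -- the fourth power
  have key : v (LH X (1 / 2) * 4 / (((OmQ m : ℝ) : ℂ) * 2 ^ (k + 1))) = v ((starRingEnd ℂ) β) := by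
    apply v_inj (n := 4) (by norm_num)
    rw [← map_pow, ← map_pow]
    have hmo := hm.odd
    have hvm : v (m : ℂ) = 1 := by
      have := Pool.Agent.Y715.Z.v_odd h2 hmo
      push_cast at this
      exact this
    have e1 : ((OmQ m : ℝ) : ℂ) ^ 4 = 2 * Ω ^ 4 / m := by
      have hm' : (0 : ℝ) < m := Nat.cast_pos.2 hm.pos
      have e2 : OmQ m ^ 4 = 2 * ‖Ω‖ ^ 4 / m := by
        rw [OmQ_eq h hm.pos, div_pow, mul_pow]
        have e3 : Real.sqrt 2 ^ 4 = 4 := by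
          have : Real.sqrt 2 ^ 4 = (Real.sqrt 2 ^ 2) ^ 2 := by ring
          rw [this, Real.sq_sqrt (by norm_num)]; norm_num
        have e4 : Real.sqrt (Real.sqrt (2 * m)) ^ 4 = 2 * m := by
          have : Real.sqrt (Real.sqrt (2 * m)) ^ 4 = (Real.sqrt (Real.sqrt (2 * m)) ^ 2) ^ 2 := by ring
          rw [this, Real.sq_sqrt (Real.sqrt_nonneg _), Real.sq_sqrt (by positivity)]
        rw [e3, e4]
        field_simp
        ring
      have e5 : ((‖Ω‖ : ℝ) : ℂ) ^ 4 = Ω ^ 4 := by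
        obtain ⟨u, hu, hΩu⟩ := h.unit
        have e6 : tc u ^ 4 = 1 := by
          rw [← tc_pow, Val4.four hu, tc_one]
        conv_rhs => rw [hΩu]
        rw [mul_pow, e6, one_mul]
      have e7 := congrArg (fun x : ℝ => (x : ℂ)) e2
      push_cast at e7
      rw [e7, e5]
    have e8 : (LH X (1 / 2)) ^ 4 = ((starRingEnd ℂ) β) ^ 4 * 2 ^ (4 * k) * (Ω ^ 4 / 8 ^ 4 *
        (16 * (starRingEnd ℂ) s) ^ 2) := by
      rw [hc, hlv]
      simp only [map_mul, map_div₀, map_pow, map_add, map_one, map_ofNat, Complex.conj_I]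
      have e9 : ((1 + -I : ℂ) ^ (2 * k)) ^ 4 = 2 ^ (4 * k) := by
        have : ((1 + -I : ℂ) ^ (2 * k)) ^ 4 = ((1 + -I) ^ 8) ^ k := by
          rw [← pow_mul, ← pow_mul]; congr 1; ring
        rw [this]
        have e10 : (1 + -I : ℂ) ^ 8 = 2 ^ 4 := by
          have e11 : (1 + -I : ℂ) ^ 2 = -2 * I := by linear_combination I_sq
          have : (1 + -I : ℂ) ^ 8 = ((1 + -I) ^ 2) ^ 4 := by ring
          rw [this, e11, mul_pow, I_pow_four]; norm_num
        rw [e10, ← pow_mul]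
      have e12 : ((starRingEnd ℂ) Ω) ^ 4 = Ω ^ 4 := by
        rcases h.om_cases with h1 | h1 <;> rw [h1]
        ring
      have e13 : (16 * (starRingEnd ℂ) s : ℂ) = (starRingEnd ℂ) (GG L Ω 0) ^ 2 := by
        rw [← map_pow, hG2, map_mul, map_ofNat]
      rw [e13]
      linear_combination ((starRingEnd ℂ) β ^ 4 * ((starRingEnd ℂ) Ω / 8 * (starRingEnd ℂ) (GG L Ω 0)) ^ 4) * e9 +
        ((starRingEnd ℂ) β ^ 4 * 2 ^ (4 * k) / 8 ^ 4 * (starRingEnd ℂ) (GG L Ω 0) ^ 4) * e12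
    have hss : ((starRingEnd ℂ) s) ^ 2 = 2 := by rw [h.s_real, h.ss]
    have hmc : (m : ℂ) ≠ 0 := by exact_mod_cast hm.pos.ne'
    have e14 : (LH X (1 / 2) * 4 / (((OmQ m : ℝ) : ℂ) * 2 ^ (k + 1))) ^ 4 =
        ((starRingEnd ℂ) β) ^ 4 * m := by
      rw [div_pow, mul_pow, mul_pow, e8, e1]
      have e15 : ((2 : ℂ) ^ (k + 1)) ^ 4 = 2 ^ (4 * k) * 16 := by
        rw [← pow_mul]
        have : (k + 1) * 4 = 4 * k + 4 := by ring
        rw [this, pow_add]; norm_num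
      rw [e15, mul_pow, hss]
      field_simp
      ring
    rw [e14, map_mul, hvm, mul_one]
  rw [key]
  exact ⟨b5, b6⟩

end Pool.Agent.D0H10.Q4
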