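import Pool.Agent.D0H10.Q4.FinQ
import Pool.Agent.D0H10.Q4.Qval
import Pool.Agent.D0H10.Q4.Bet3
import Pool.Agent.D0H10.Q4.Cp
import Pool.Agent.D0H77.Q4.Sup
import Pool.Agent.D0H54.Q4.Hec
import Pool.Agent.D0H52.Q4.Lim
import Pool.Agent.D0H84.Q4.Gid
import Pool.Agent.D0H84.Q4.Cri
import Pool.Agent.D0H2.Q4.Rhs3
import Pool.Agent.D0H15.Q4.End
import Pool.Agent.D0H15.Q4.Comb
import Pool.Agent.D0H76.Q4.Fin
import Pool.Agent.D0H42.Q4.Tm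
import Pool.Agent.D0H42.Q4.Vl
import Pool.Agent.D0H45.Q4.QDen

/-!
Project Q4: all modules over `ℚ`.
-/

set_option autoImplicit false

namespace Pool.Agent.D0H10.Q4

theorem valA : S_VAL := Pool.Agent.D0H42.Q4.val Pool.Agent.D0H84.Q4.gid

/-- the values -/
theorem betA : S_BET := bet Pool.Agent.D0H52.Q4.lim Pool.Agent.D0H84.Q4.gid
  (Pool.Agent.D0H2.Q4.rhs valA Pool.Agent.D0H2.Q4.dst Pool.Agent.D0H15.Q4.psi)
  Pool.Agent.D0H15.Q4.comb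

/-- all modules over `ℚ` -/
theorem bq : BQ where
  sup := Pool.Agent.D0H77.Q4.sup
  hec := Pool.Agent.D0H54.Q4.hec
  val := qval Pool.Agent.D0H54.Q4.hec Pool.Agent.D0H52.Q4.lim Pool.Agent.D0H84.Q4.gid betA
    Pool.Agent.D0H84.Q4.cri
  ls := Pool.Agent.D0H69.Q4.qls Pool.Agent.D0H77.Q4.sup
  sel := Pool.Agent.D0H76.Q4.qsel
  conv := Pool.Agent.D0H76.Q4.qconv
  tam := Pool.Agent.D0H42.Q4.qtam
  cri := Pool.Agent.D0H84.Q4.cri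

theorem denQ : S_QDEN := Pool.Agent.D0H45.Q4.qden

open Classical in
theorem lowQ : ∃ (a : ℝ) (X₁ : ℕ), 0 < a ∧ ∀ X : ℕ, X₁ ≤ X → a * (X / √(Real.log X)) ≤
    (((Finset.Icc 1 X).filter fun m => Adm m ∧ (matQ m).det ≠ 0).card : ℝ) := by
  obtain ⟨c, X₀, hc, h⟩ := Pool.Agent.D0H45.Q4.qden_ge
  refine ⟨c, X₀, hc, fun X hX => ?_⟩
  rw [← mul_div_assoc]
  exact h X hX

end Pool.Agent.D0H10.Q4
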