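import Pool.Agent.D0H10.Q4.Cp
import Pool.Agent.Y699.Dsc

/-!
Project Q4: the Euler factors modulo the maximal ideal.
-/

set_option autoImplicit false
set_option linter.unusedSectionVars false

open Filter Complex
open scoped Topology PeriodPair
open Pool.Agent.TH936.CM

namespace Pool.Agent.D0H10.Q4

open H385 (ZI RQ im1 nrm)
open Pool.Agent.H304R3.HK (tc HC LH)
open Pool.Agent.Y699
open Pool.Agent.W164.RC (tc_mul unit_cases)
open Pool.Agent.H304R2.EC.A1 (prim prim_mul prim_one re_mul' im_mul' norm_def')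

section val

variable {Γ : Type*} [LinearOrderedCommGroupWithZero Γ] {v : Valuation ℂ Γ}

lemma cg_of {x y : ℂ} (hy : v y ≤ 1) (h : v (x - y) < 1) : Cg v x y := by
  refine ⟨?_, hy, h⟩
  have e : x = (x - y) + y := by ring
  rw [e]
  exact v.map_add_le h.le hy

variable (h2 : v 2 < 1)
include h2

/-- elements of `Cc` -/
lemma tc_Cc {w : ZI} (hw : Cc w) : ∃ z : ZI, tc w = 1 + 2 * tc z ∧ v (tc w) = 1 := by
  obtain ⟨h1, h3⟩ := hw
  refine ⟨⟨(w.re - 1) / 2, w.im / 2⟩, ?_, ?_⟩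
  · unfold tc
    have e1 : (w.re : ℂ) = 1 + 2 * (((w.re - 1) / 2 : ℤ) : ℂ) := by
      have : w.re = 1 + 2 * ((w.re - 1) / 2) := by omega
      conv_lhs => rw [this]
      push_cast; ring
    have e2 : (w.im : ℂ) = 2 * ((w.im / 2 : ℤ) : ℂ) := by
      have : w.im = 2 * (w.im / 2) := by omega
      conv_lhs => rw [this]
      push_cast; ring
    rw [e1, e2]
    ring
  · have h4 := (tc_par h2 w).2 (by omega)
    have h5 : v (tc w) ≤ 1 := h4.l
    refine le_antisymm h5 ?_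
    by_contra hc
    push Not at hc
    have h6 : v (1 : ℂ) < 1 := by
      have e : (1 : ℂ) = tc w - (tc w - 1) := by ring
      rw [e]
      exact (v.map_sub _ _).trans_lt (max_lt hc h4.s)
    rw [map_one] at h6
    exact lt_irrefl _ h6

lemma two_div : v (2 / (1 + I)) < 1 := by
  have h3 := v_pi_sq (v := v)
  have h4 := v_pi_lt h2
  have h5 := v_pi_ne (v := v)
  rw [map_div₀, ← h3, sq, mul_div_assoc, div_self h5, mul_one]
  exact h4

/-- the Euler factor -/
lemma fac_cg {w u : ZI} (hw : Cc w) (hu : u.norm = 1) {c : ZMod 2} (hc : u ^ 2 = (sg c : ZI)) :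
    Cg v ((1 - tc u / tc w) / (1 + I)) (uu c) := by
  obtain ⟨z, hz, hw1⟩ := tc_Cc h2 hw
  have hw0 : tc w ≠ 0 := by
    intro h
    rw [h, map_zero] at hw1
    exact zero_ne_one hw1
  have hl : (1 + I : ℂ) ≠ 0 := one_I_ne
  have h3 := two_div h2
  have hz1 : v (tc z) ≤ 1 := tc_le h2 z
  have key : ∀ y : ℂ, v y ≤ 1 → v (2 / (1 + I) * (y / tc w)) < 1 := by
    intro y hy
    rw [map_mul, map_div₀ v y, hw1, div_one]
    calc v (2 / (1 + I)) * v y ≤ v (2 / (1 + I)) * 1 := mul_le_mul_right hy _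
      _ = v (2 / (1 + I)) := mul_one _
      _ < 1 := h3
  have hI : v I ≤ 1 := (v_I (v := v)).le
  have hI1 : v (I * (1 + tc z)) ≤ 1 := by
    rw [map_mul, v_I, one_mul]
    exact v.map_add_le (by rw [map_one]) hz1
  have hIz : v (I * tc z) ≤ 1 := by rw [map_mul, v_I, one_mul]; exact hz1
  rcases unit_cases hu with h | h | h | h
  · have h0 : c = 0 := by
      rw [h] at hc
      revert hc c
      decide
    rw [h0, uu_zero]
    apply Cg.zero
    have e : (1 - tc u / tc w) / (1 + I) = 2 / (1 + I) * (tc z / tc w) := by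
      rw [h, tc_one]
      field_simp
      rw [hz]; ring
    rw [e]
    exact key _ hz1
  · have h0 : c = 1 := by
      rw [h] at hc
      revert hc c
      decide
    rw [h0, uu_one]
    apply cg_of (by rw [map_one])
    have e : (1 - tc u / tc w) / (1 + I) - 1 = 2 / (1 + I) * (-(I * (1 + tc z)) / tc w) := by
      rw [h, tc_im1]
      field_simp
      rw [hz]; ring
    rw [e]
    exact key _ (by rw [Valuation.map_neg]; exact hI1)
  · have h0 : c = 0 := by
      rw [h] at hc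
      revert hc c
      decide
    rw [h0, uu_zero]
    apply Cg.zero
    have e : (1 - tc u / tc w) / (1 + I) = 2 / (1 + I) * ((1 + tc z) / tc w) := by
      rw [h, tc_pow, tc_im1, I_sq]
      field_simp
      rw [hz]; ring
    rw [e]
    exact key _ (v.map_add_le (by rw [map_one]) hz1)
  · have h0 : c = 1 := by
      rw [h] at hc
      revert hc c
      decide
    rw [h0, uu_one]
    apply cg_of (by rw [map_one])
    have e : (1 - tc u / tc w) / (1 + I) - 1 = 2 / (1 + I) * (-(I * tc z) / tc w) := by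
      rw [h, tc_pow, tc_im1]
      have e3 : (I : ℂ) ^ 3 = -I := by
        rw [pow_succ, I_sq]; ring
      rw [e3]
      field_simp
      rw [hz]; ring
    rw [e]
    exact key _ (by rw [Valuation.map_neg]; exact hIz)

end val

lemma rh_sq {π : ZI} (h : PP π) : rh (cp π) ^ 2 = (sg (if π.norm % 8 = 5 then 1 else 0) : ZI) := by
  have hC := cp_Cc h.prm
  have hn : (cp π).norm = π.norm := by
    rcases cp_cases π with h' | h' <;> rw [h']
    exact Zsqrtd.norm_neg π
  rw [← hn]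
  set w := cp π
  obtain ⟨h1, h3⟩ := hC
  rw [rh_eq, ← pow_mul]
  have hk := kh_mod w
  obtain ⟨x, hx⟩ : ∃ x, w.re = 1 + 4 * x := ⟨w.re / 4, by omega⟩
  obtain ⟨y, hy⟩ : ∃ y, w.im = 2 * y := ⟨w.im / 2, by omega⟩
  have hnn : w.norm = 1 + 8 * (x + 2 * x ^ 2) + 4 * y ^ 2 := by
    rw [norm_def', hx, hy]; ring
  have hy2 : y ^ 2 % 2 = y % 2 := by
    rcases Int.even_or_odd' y with ⟨k, hk | hk⟩
    · rw [hk]; ring_nf; omega
    · rw [hk]; ring_nf; omega
  rcases Int.emod_two_eq_zero_or_one y with h5 | h5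
  · have h6 : ¬ w.norm % 8 = 5 := by omega
    rw [if_neg h6]
    have h7 : (kh w * 2) % 4 = 0 := by omega
    rw [unit_pow_mod im1_norm (n := 0) (by omega), pow_zero]
    decide
  · have h6 : w.norm % 8 = 5 := by omega
    rw [if_pos h6]
    rw [unit_pow_mod im1_norm (m := kh w * 2) (n := 2) (by omega)]
    decide

variable {ι : Type} [DecidableEq ι] {pr : ι → ZI}

omit [DecidableEq ι] in
lemma ndv (hp : PF pr) {i j : ι} (h : i ≠ j) : ¬ pr i ∣ pr j := fun h' =>
  h (hp.inj ((hp.pp i).eq_of_dvd (hp.pp j) h'))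

omit [DecidableEq ι] in
lemma em_sy (hp : PF pr) (u v : ι) : em pr u v = em pr v u := by
  unfold Y699.em
  rw [qr_rec (hp.pp u) (hp.pp v)]

omit [DecidableEq ι] in
lemma qr_cp (hp : PF pr) (i k : ι) : qr (pr i) (cp (pr k)) = qr (pr i) (pr k) := by
  rcases cp_cases (pr k) with h | h <;> rw [h]
  have e : -(pr k) = (-1) * pr k := by ring
  rw [e, qr_mul (hp.pp i), qr_neg_one (hp.pp i), one_mul]

lemma sg_sq (a : ZMod 2) (n : ℕ) (hn : n % 2 = 1) : (sg a) ^ n = sg a := by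
  have h0 : ∀ a : ZMod 2, sg a = 1 ∨ sg a = -1 := by decide
  rcases h0 a with h | h <;> rw [h]
  · rw [one_pow]
  · rw [Odd.neg_one_pow (Nat.odd_iff.2 hn)]

/-- the square of the value -/
lemma u_sq (hp : PF pr) {T : Finset ι} {e : ι → ℕ} (he : ∀ i ∈ T, e i % 2 = 1) {k : ι} (hk : k ∉ T) :
    (rh (cp (pr k)) * c4 pr T e (cp (pr k))) ^ 2 =
      ((sg (wt pr k + ∑ l ∈ T, em pr l k) : ℤ) : ZI) := by
  rw [mul_pow, rh_sq (hp.pp k), sg_add, Int.cast_mul]
  congr 1
  unfold c4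
  rw [← Finset.prod_pow, sg_sum, Int.cast_prod]
  refine Finset.prod_congr rfl fun i hi => ?_
  have hik : i ≠ k := fun h => hk (h ▸ hi)
  have hnd : ¬ pr i ∣ pr k := ndv hp hik
  have hnd' : ¬ pr i ∣ cp (pr k) := by
    rcases cp_cases (pr k) with h | h <;> rw [h]
    · exact hnd
    · rwa [dvd_neg]
  unfold fe
  rw [if_neg hnd', ← pow_mul, mul_comm, pow_mul, q4_sq (hp.pp i), qr_cp hp, qr_sg hnd]
  have e1 : (if qr (pr i) (pr k) = -1 then (1 : ZMod 2) else 0) = em pr i k := by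
    rw [em_sy hp]
    rfl
  rw [e1, ← Int.cast_pow, sg_sq _ _ (he i hi)]

lemma u_norm (hp : PF pr) {T : Finset ι} {e : ι → ℕ} {k : ι} (hk : k ∉ T) :
    (rh (cp (pr k)) * c4 pr T e (cp (pr k))).norm = 1 := by
  rw [Zsqrtd.norm_mul, rh_norm, c4_norm hp T e, one_mul]
  intro i hi
  have hik : i ≠ k := fun h => hk (h ▸ hi)
  have hnd : ¬ pr i ∣ pr k := ndv hp hik
  rcases cp_cases (pr k) with h | h <;> rw [h]
  · exact hnd
  · rwa [dvd_neg]

/-- the Euler factor at `k` -/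
lemma euler_cg {Γ : Type*} [LinearOrderedCommGroupWithZero Γ] {v : Valuation ℂ Γ} (h2 : v 2 < 1)
    (hp : PF pr) {T : Finset ι} {e : ι → ℕ} (he : ∀ i ∈ T, e i % 2 = 1) {k : ι} (hk : k ∉ T) :
    Cg v ((1 - tc (rh (cp (pr k)) * c4 pr T e (cp (pr k))) / tc (cp (pr k))) / (1 + I))
      (uu (wt pr k + ∑ l ∈ T, em pr l k)) :=
  fac_cg h2 (cp_Cc (hp.pp k).prm) (u_norm hp hk) (u_sq hp he hk)

end Pool.Agent.D0H10.Q4
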