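import Pool.Agent.D0H10.Q4.Bet1

/-!
Project Q4: the recursion for the limits.
-/

set_option autoImplicit false
set_option linter.unusedSectionVars false

open Filter Complex
open scoped Topology PeriodPair
open Pool.Agent.TH936.CM

namespace Pool.Agent.D0H10.Q4

open H385 (ZI RQ im1 nrm)
open Pool.Agent.H304R3.HK (tc HC LH)
open Pool.Agent.Y699
open Pool.Agent.W164.RC (tc_mul unit_cases)
open Pool.Agent.H304R2.EC.A1 (prim prim_mul prim_one re_mul' im_mul' norm_def')

variable {L : PeriodPair} {Ω s : ℂ} {ι : Type} [DecidableEq ι] {pr : ι → ZI}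

/-- exponents supported on `T` -/
def eT (e : ι → ℕ) (T : Finset ι) (i : ι) : ℕ := if i ∈ T then e i else 0

lemma c4_congr {V : Finset ι} {e e' : ι → ℕ} (h : ∀ i ∈ V, e i = e' i) (a : ZI) :
    c4 pr V e a = c4 pr V e' a :=
  Finset.prod_congr rfl fun i hi => by rw [h i hi]

lemma lv_congr {V : Finset ι} {e e' : ι → ℕ} (h : ∀ i ∈ V, e i = e' i) :
    lv L Ω pr V e = lv L Ω pr V e' := by
  unfold lv
  congr 2
  funext q
  rw [c4_congr h]

lemma c4_eT (hp : PF pr) {T W : Finset ι} (hTW : T ⊆ W) (e : ι → ℕ) {a : ZI}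
    (ha : ∀ i ∈ W, ¬ pr i ∣ a) : c4 pr W (eT e T) a = c4 pr T e a := by
  unfold c4
  rw [← Finset.prod_sdiff hTW]
  have h1 : ∏ i ∈ W \ T, fe (pr i) (eT e T i) a = 1 := by
    refine Finset.prod_eq_one fun i hi => ?_
    obtain ⟨h1, h2⟩ := Finset.mem_sdiff.1 hi
    unfold fe eT
    rw [if_neg (ha i h1), if_neg h2, pow_zero]
  rw [h1, one_mul]
  refine Finset.prod_congr rfl fun i hi => ?_
  unfold eT
  rw [if_pos hi]

lemma ndc (hp : PF pr) {i k : ι} (hik : i ≠ k) : ¬ pr i ∣ cp (pr k) := by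
  have hnd : ¬ pr i ∣ pr k := ndv hp hik
  rcases cp_cases (pr k) with h | h <;> rw [h]
  · exact hnd
  · rwa [dvd_neg]

/-- the Euler factor -/
noncomputable def ef (pr : ι → ZI) (T : Finset ι) (e : ι → ℕ) (k : ι) : ℂ :=
  1 - tc (rh (cp (pr k)) * c4 pr T e (cp (pr k))) / tc (cp (pr k))

lemma lv_eT (hlim : S_LIM) (h : NL L Ω s) (hp : PF pr) (e : ι → ℕ) (T : Finset ι) :
    ∀ R : Finset ι, Disjoint T R → lv L Ω pr (T ∪ R) (eT e T) = (∏ k ∈ R, ef pr T e k) * lv L Ω pr T e := by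
  intro R
  induction R using Finset.induction_on with
  | empty =>
    intro _
    rw [Finset.union_empty, Finset.prod_empty, one_mul]
    exact lv_congr fun i hi => by unfold eT; rw [if_pos hi]
  | insert k R hk ih =>
    intro hd
    rw [Finset.disjoint_insert_right] at hd
    obtain ⟨hkT, hd⟩ := hd
    have hV : (T ∪ insert k R).erase k = T ∪ R := by
      rw [Finset.union_insert, Finset.erase_insert]
      rw [Finset.mem_union]
      tauto
    have hkV : k ∈ T ∪ insert k R := Finset.mem_union_right _ (Finset.mem_insert_self _ _)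
    have h1 := hlim L Ω s h ι pr hp (T ∪ R) (eT e T)
    have h2 := hlim L Ω s h ι pr hp (T ∪ insert k R) (eT e T)
    have h3 := eul ι pr hp (T ∪ insert k R) (eT e T) k hkV (by unfold eT; rw [if_neg hkT])
      (lv L Ω pr (T ∪ R) (eT e T)) (by rw [hV]; exact h1)
    rw [tendsto_nhds_unique h2 h3, ih hd, Finset.prod_insert hk, hV]
    have h4 : c4 pr (T ∪ R) (eT e T) (cp (pr k)) = c4 pr T e (cp (pr k)) := by
      apply c4_eT hp Finset.subset_union_left
      intro i hi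
      apply ndc hp
      rintro rfl
      rw [Finset.mem_union] at hi
      tauto
    rw [h4]
    unfold ef
    ring

lemma lv_eT' (hlim : S_LIM) (h : NL L Ω s) (hp : PF pr) (e : ι → ℕ) {T V : Finset ι} (hTV : T ⊆ V) :
    lv L Ω pr V (eT e T) = (∏ k ∈ V \ T, ef pr T e k) * lv L Ω pr T e := by
  have := lv_eT hlim h hp e T (V \ T) Finset.disjoint_sdiff
  rwa [Finset.union_sdiff_of_subset hTV] at this

lemma c4_sum (V : Finset ι) (e : ι → ℕ) (a : ZI) :
    ∑ T ∈ V.powerset, c4 pr V (eT e T) a = ∏ j ∈ V, (fe (pr j) 0 a + fe (pr j) (e j) a) := by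
  rw [Finset.prod_congr rfl fun j _ => add_comm _ _, Finset.prod_add]
  refine Finset.sum_congr rfl fun T hT => ?_
  rw [Finset.mem_powerset] at hT
  unfold c4
  rw [← Finset.prod_sdiff hT, mul_comm]
  congr 1
  · refine Finset.prod_congr rfl fun i hi => ?_
    unfold eT; rw [if_pos hi]
  · refine Finset.prod_congr rfl fun i hi => ?_
    unfold eT; rw [if_neg (Finset.mem_sdiff.1 hi).2]

lemma fin_DD (hp : PF pr) (V : Finset ι) : Finite (RQ (DD pr V)) := H385.he1_finite (DD_ne hp V)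

/-- the sum of the limits -/
lemma lv_sum (hp : PF pr) (V : Finset ι) (e : ι → ℕ) :
    ∑ T ∈ V.powerset, lv L Ω pr V (eT e T) = Ω * tc (rh (cp (DD pr V))) / (8 * tc (cp (DD pr V))) *
      ∑ᶠ q : RQ (DD pr V), (∏ j ∈ V, tc (fe (pr j) 0 (8 * q.out) + fe (pr j) (e j) (8 * q.out))) *
        GG L Ω (zq Ω (cp (DD pr V)) q.out) := by
  classical
  have := fin_DD hp V
  let _ := Fintype.ofFinite (RQ (DD pr V))
  unfold lv
  rw [← Finset.mul_sum]
  congr 1
  rw [finsum_eq_sum_of_fintype]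
  simp_rw [finsum_eq_sum_of_fintype]
  rw [Finset.sum_comm]
  refine Finset.sum_congr rfl fun q _ => ?_
  rw [← Finset.sum_mul, ← tc_prod, ← c4_sum]
  congr 1
  rw [← tch_eq, map_sum]
  exact Finset.sum_congr rfl fun T _ => (tch_eq _).symm

lemma AA_per (L : PeriodPair) {z w : ℂ} (h : z - w ∈ L.lattice) : AA L z = AA L w := by
  unfold AA
  rw [wp_per L h, wp'_per L h]

lemma GG_per (L : PeriodPair) {z w : ℂ} (h : z - w ∈ L.lattice) : GG L Ω z = GG L Ω w := by
  unfold GG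
  rw [AA_per L (z := z + Ω / 8) (w := w + Ω / 8) (by rwa [add_sub_add_right_eq_sub]),
    AA_per L (z := z + Ω / 8 + I * (Ω / 4)) (w := w + Ω / 8 + I * (Ω / 4))
      (by rwa [add_sub_add_right_eq_sub, add_sub_add_right_eq_sub])]

lemma lv_empty (h : NL L Ω s) (e : ι → ℕ) : lv L Ω pr ∅ e = Ω / 8 * GG L Ω 0 := by
  classical
  have h1 : DD pr ∅ = 1 := by unfold DD; rw [Finset.prod_empty]
  unfold lv
  rw [h1]
  have h3 : Subsingleton (RQ (1 : ZI)) := by
    rw [Ideal.Quotient.subsingleton_iff, Ideal.span_singleton_one]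
  have h4 : cp 1 = 1 := by decide
  have h5 : rh 1 = 1 := by decide
  rw [h4, h5, tc_one]
  have h6 : ∀ q : RQ (1 : ZI), tc (c4 pr ∅ e (8 * q.out)) * GG L Ω (zq Ω 1 q.out) = GG L Ω 0 := by
    intro q
    unfold c4
    rw [Finset.prod_empty, tc_one, one_mul]
    apply GG_per
    rw [sub_zero]
    refine (mem_lat h.gl.lat).2 ⟨q.out, ?_⟩
    unfold zq
    rw [tc_one, div_one]
  let _ := Fintype.ofFinite (RQ (1 : ZI))
  rw [finsum_eq_sum_of_fintype, Finset.sum_congr rfl fun q _ => h6 q, Finset.sum_const]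
  have h7 : (Finset.univ : Finset (RQ (1 : ZI))).card = 1 := by
    rw [Finset.card_univ]
    exact Fintype.card_eq_one_iff_nonempty_unique.2 ⟨⟨⟨0⟩, fun a => Subsingleton.elim _ _⟩⟩
  rw [h7, one_smul]
  ring

/-- the normalised value -/
noncomputable def bt (L : PeriodPair) (Ω : ℂ) (pr : ι → ZI) (e : ι → ℕ) (V : Finset ι) : ℂ :=
  lv L Ω pr V e / ((1 + I) ^ V.card * lv L Ω pr ∅ e)

/-- the exact recursion -/
lemma bt_rec (hlim : S_LIM) (h : NL L Ω s) (hG : GG L Ω 0 ≠ 0) (hp : PF pr) (V : Finset ι)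
    (e : ι → ℕ) : ∑ T ∈ V.powerset, bt L Ω pr e T * ∏ k ∈ V \ T, (ef pr T e k / (1 + I)) =
      tc (rh (cp (DD pr V))) / tc (cp (DD pr V)) *
      ∑ᶠ q : RQ (DD pr V), (∏ j ∈ V, pf (pr j) (e j) (8 * q.out)) *
        gg L Ω (zq Ω (cp (DD pr V)) q.out) := by
  classical
  have := fin_DD hp V
  let _ := Fintype.ofFinite (RQ (DD pr V))
  have hΩ := h.gl.lat.ne
  have hl : (1 + I : ℂ) ≠ 0 := one_I_ne
  have hD := tc_ne (cp_ne (DD_ne hp V))
  have h0 : lv L Ω pr ∅ e ≠ 0 := by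
    rw [lv_empty h]
    exact mul_ne_zero (div_ne_zero hΩ (by norm_num)) hG
  have h1 : ∀ T ∈ V.powerset, bt L Ω pr e T * ∏ k ∈ V \ T, (ef pr T e k / (1 + I)) =
      lv L Ω pr V (eT e T) / ((1 + I) ^ V.card * lv L Ω pr ∅ e) := by
    intro T hT
    rw [Finset.mem_powerset] at hT
    rw [lv_eT' hlim h hp e hT, Finset.prod_div_distrib, Finset.prod_const]
    unfold bt
    have hc : V.card = (V \ T).card + T.card := by
      rw [Finset.card_sdiff_add_card_eq_card hT]
    rw [hc, pow_add]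
    field_simp
  rw [Finset.sum_congr rfl h1, ← Finset.sum_div, lv_sum hp V e, finsum_eq_sum_of_fintype,
    finsum_eq_sum_of_fintype, lv_empty h, Finset.mul_sum, Finset.mul_sum, Finset.sum_div]
  refine Finset.sum_congr rfl fun q _ => ?_
  unfold pf gg
  rw [Finset.prod_div_distrib, Finset.prod_const]
  field_simp

end Pool.Agent.D0H10.Q4
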