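import Pool.Agent.D0H10.Q4.StmE
import Pool.Agent.Y699.Tq

/-!
Project Q4: the classes `i ^ a (1 + i) ^ b Δ` of the Gaussian integers, `Δ` primary and squarefree.
-/

set_option autoImplicit false

open Filter
open scoped Topology

namespace Pool.Agent.D0H10.Q4

open H385 (ZI RQ im1 nrm)
open Pool.Agent.Y699 (SB mem_SB PS pi1 pi1_prime)
open Pool.Agent.H304R2.EC.A1 (prim prim_mul prim_norm_odd)

/-- `i ^ a (1 + i) ^ b Δ` -/
def cl (a b : ℕ) (Δ : ZI) : ZI := im1 ^ a * (pi1 ^ b * Δ)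

lemma nrm_eq (a : ZI) : (nrm a : ℤ) = a.norm := by
  have h : 0 ≤ a.norm := GaussianInt.norm_nonneg a
  show ((a.norm.natAbs : ℕ) : ℤ) = a.norm
  exact Int.natAbs_of_nonneg h

lemma nrm_mul' (a b : ZI) : nrm (a * b) = nrm a * nrm b := by
  have h : (nrm (a * b) : ℤ) = (nrm a : ℤ) * nrm b := by
    rw [nrm_eq, nrm_eq, nrm_eq, Zsqrtd.norm_mul]
  exact_mod_cast h

lemma nrm_pow' (a : ZI) (n : ℕ) : nrm (a ^ n) = nrm a ^ n := by
  induction n with
  | zero => rw [pow_zero, pow_zero]; decide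
  | succ n ih => rw [pow_succ, nrm_mul', ih, pow_succ]

lemma nrm_cl (a b : ℕ) (Δ : ZI) : nrm (cl a b Δ) = 2 ^ b * nrm Δ := by
  unfold cl
  rw [nrm_mul', nrm_mul', nrm_pow', nrm_pow']
  have h1 : nrm im1 = 1 := by decide
  have h2 : nrm pi1 = 2 := by decide
  rw [h1, h2, one_pow, one_mul]

lemma im1_four : (im1 : ZI) ^ 4 = 1 := by decide

lemma unit_im (k : ℕ) : IsUnit ((im1 : ZI) ^ k) :=
  (IsUnit.of_mul_eq_one (-im1) (by decide)).pow k

lemma prim_im {k : ℕ} (hk : k < 4) {Δ Δ' : ZI} (h : prim Δ) (h' : prim Δ')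
    (e : Δ = im1 ^ k * Δ') : k = 0 := by
  obtain ⟨h1, h2⟩ := h
  obtain ⟨h3, h4⟩ := h'
  interval_cases k
  · rfl
  · exfalso
    have e1 := congrArg Zsqrtd.re e
    have e2 := congrArg Zsqrtd.im e
    simp [im1] at e1 e2
    omega
  · exfalso
    have e0 : (im1 : ZI) ^ 2 = -1 := by decide
    rw [e0] at e
    have e1 := congrArg Zsqrtd.re e
    have e2 := congrArg Zsqrtd.im e
    simp at e1 e2
    omega
  · exfalso
    have e0 : (im1 : ZI) ^ 3 = ⟨0, -1⟩ := by decide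
    rw [e0] at e
    have e1 := congrArg Zsqrtd.re e
    have e2 := congrArg Zsqrtd.im e
    simp at e1 e2
    omega

lemma im_cancel {a a' : ℕ} (ha : a < 4) (ha' : a' < 4) {Δ Δ' : ZI} (h : prim Δ) (h' : prim Δ')
    (e : im1 ^ a * Δ = im1 ^ a' * Δ') : a = a' ∧ Δ = Δ' := by
  have key : ∀ {a a' : ℕ}, a ≤ a' → a' < 4 → ∀ {Δ Δ' : ZI}, prim Δ → prim Δ' →
      im1 ^ a * Δ = im1 ^ a' * Δ' → a = a' ∧ Δ = Δ' := by
    intro a a' haa ha' Δ Δ' h h' e
    obtain ⟨k, rfl⟩ := Nat.exists_eq_add_of_le haa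
    rw [pow_add, mul_assoc] at e
    have e1 : Δ = im1 ^ k * Δ' := mul_left_cancel₀ (unit_im a).ne_zero e
    have hk : k = 0 := prim_im (by omega) h h' e1
    subst hk
    exact ⟨rfl, by rw [e1, pow_zero, one_mul]⟩
  rcases le_total a a' with h1 | h1
  · exact key h1 ha' h h' e
  · obtain ⟨e1, e2⟩ := key h1 ha h' h e.symm
    exact ⟨e1.symm, e2.symm⟩

lemma nrm_odd {Δ : ZI} (h : prim Δ) : nrm Δ % 2 = 1 := by
  have h1 := prim_norm_odd h
  have h2 := nrm_eq Δ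
  omega

lemma cl_inj {a a' b b' : ℕ} (ha : a < 4) (ha' : a' < 4) {Δ Δ' : ZI} (h : prim Δ) (h' : prim Δ')
    (e : cl a b Δ = cl a' b' Δ') : a = a' ∧ b = b' ∧ Δ = Δ' := by
  have h1 := congrArg nrm e
  rw [nrm_cl, nrm_cl] at h1
  have o1 := nrm_odd h
  have o2 := nrm_odd h'
  have hb : b = b' := by
    by_contra hne
    rcases lt_or_gt_of_ne hne with hlt | hlt
    · obtain ⟨k, rfl⟩ := Nat.exists_eq_add_of_lt hlt
      have : 2 ^ (b + k + 1) = 2 ^ b * (2 * 2 ^ k) := by ring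
      rw [this, mul_assoc] at h1
      have h2 := Nat.eq_of_mul_eq_mul_left (by positivity) h1
      rw [h2, mul_assoc] at o1
      omega
    · obtain ⟨k, rfl⟩ := Nat.exists_eq_add_of_lt hlt
      have : 2 ^ (b' + k + 1) = 2 ^ b' * (2 * 2 ^ k) := by ring
      rw [this, mul_assoc] at h1
      have h2 := Nat.eq_of_mul_eq_mul_left (by positivity) h1
      rw [← h2, mul_assoc] at o2
      omega
  subst hb
  have hp : (pi1 : ZI) ^ b ≠ 0 := pow_ne_zero _ pi1_prime.ne_zero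
  have e2 : im1 ^ a * Δ = im1 ^ a' * Δ' := by
    refine mul_left_cancel₀ hp ?_
    unfold cl at e
    linear_combination e
  obtain ⟨h3, h4⟩ := im_cancel ha ha' h h' e2
  exact ⟨h3, rfl, h4⟩

lemma prime_norm_even {D : ZI} (h : ¬ pi1 ∣ D) : D.norm % 2 = 1 := by
  by_contra h1
  refine h ⟨⟨(D.re + D.im) / 2, (D.im - D.re) / 2⟩, ?_⟩
  have h2 : (D.re + D.im) % 2 = 0 := by
    have h3 : D.norm = D.re * D.re + D.im * D.im := by
      rw [Zsqrtd.norm_def]; ring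
    rw [h3] at h1
    rcases Int.emod_two_eq_zero_or_one D.re with h3 | h3 <;>
      rcases Int.emod_two_eq_zero_or_one D.im with h4 | h4 <;>
      simp [Int.add_emod, Int.mul_emod, h3, h4] at h1 ⊢
  apply Zsqrtd.ext
  · simp [pi1]
    omega
  · simp [pi1]
    omega

lemma cl_surj {D : ZI} (hD : D ≠ 0) : ∃ (a b : ℕ) (Δ : ZI), a < 4 ∧ prim Δ ∧ D = cl a b Δ := by
  obtain ⟨b, c, hc, hD'⟩ := WfDvdMonoid.max_power_factor hD pi1_prime.irreducible
  obtain ⟨u, hu⟩ := Pool.Agent.Y699.exists_Um (prime_norm_even hc)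
  obtain ⟨k, hk, rfl⟩ : ∃ k, k < 4 ∧ u = im1 ^ k := by
    rcases Pool.Agent.W164.RC.unit_cases hu.1 with h | h | h | h
    · exact ⟨0, by norm_num, by rw [h, pow_zero]⟩
    · exact ⟨1, by norm_num, by rw [h, pow_one]⟩
    · exact ⟨2, by norm_num, h⟩
    · exact ⟨3, by norm_num, h⟩
  have h4 : (im1 : ZI) ^ (4 - k) * im1 ^ k = 1 := by
    rw [← pow_add, Nat.sub_add_cancel hk.le, im1_four]
  refine ⟨(4 - k) % 4, b, im1 ^ k * c, Nat.mod_lt _ (by norm_num), hu.2, ?_⟩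
  have h5 : (im1 : ZI) ^ ((4 - k) % 4) = im1 ^ (4 - k) := by
    have h6 : (im1 : ZI) ^ (4 - k) = im1 ^ (4 * ((4 - k) / 4) + (4 - k) % 4) := by
      rw [Nat.div_add_mod]
    rw [h6, pow_add, pow_mul, im1_four, one_pow, one_mul]
  unfold cl
  rw [h5, hD']
  linear_combination (-(pi1 ^ b * c)) * h4

lemma two_dvd_pi {b : ℕ} (hb : 2 ≤ b) : (pi1 : ZI) * pi1 ∣ pi1 ^ b :=
  ⟨pi1 ^ (b - 2), by rw [← pow_two, ← pow_add]; congr 1; omega⟩

/-- the squarefree elements -/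
lemma sqf_iff {D : ZI} : Squarefree D ↔ ∃ (a b : ℕ) (Δ : ZI), a < 4 ∧ b < 2 ∧ PS Δ ∧ D = cl a b Δ := by
  constructor
  · intro h
    obtain ⟨a, b, Δ, ha, hΔ, rfl⟩ := cl_surj h.ne_zero
    have h1 : Squarefree (pi1 ^ b * Δ) := h.squarefree_of_dvd (dvd_mul_left _ _)
    refine ⟨a, b, Δ, ha, ?_, ⟨hΔ, h1.squarefree_of_dvd (dvd_mul_left _ _)⟩, rfl⟩
    by_contra hb
    exact pi1_prime.not_isUnit (h1 pi1 ((two_dvd_pi (by omega)).mul_right _))
  · rintro ⟨a, b, Δ, ha, hb, hΔ, rfl⟩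
    unfold cl
    have h0 : ¬ pi1 ∣ Δ := by
      rintro ⟨c, rfl⟩
      have h1 := nrm_odd hΔ.prm
      rw [nrm_mul'] at h1
      have h2 : nrm pi1 = 2 := by decide
      rw [h2] at h1
      omega
    have h1 : Squarefree (pi1 ^ b * Δ) := by
      interval_cases b
      · rw [pow_zero, one_mul]; exact hΔ.sqf
      · rw [pow_one]
        have hc : IsRelPrime pi1 Δ := by
          intro d hd1 hd2
          obtain ⟨c, hc⟩ := hd1
          rcases pi1_prime.irreducible.isUnit_or_isUnit hc with h | h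
          · exact h
          · exfalso
            apply h0
            rw [hc]
            exact (h.mul_right_dvd).2 hd2
        exact (squarefree_mul_iff).2 ⟨hc, pi1_prime.irreducible.squarefree, hΔ.sqf⟩
    exact (squarefree_mul_iff).2 ⟨(unit_im a).isRelPrime_left, (unit_im a).squarefree, h1⟩

open Classical in
/-- **counting by classes** -/
theorem count_cls (S : Finset (ℕ × ℕ)) (hS : ∀ p ∈ S, p.1 < 4) (T : ZI → Prop) (X : ℕ) :
    {D : ZI | nrm D ≤ X ∧ (∃ p ∈ S, ∃ Δ, PS Δ ∧ D = cl p.1 p.2 Δ) ∧ T D}.ncard =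
      ∑ p ∈ S, ((SB (X / 2 ^ p.2)).filter fun Δ => T (cl p.1 p.2 Δ)).card := by
  set f : (_ : ℕ × ℕ) × ZI → ZI := fun q => cl q.1.1 q.1.2 q.2 with hf
  set U : Finset ((_ : ℕ × ℕ) × ZI) :=
    S.sigma fun p => (SB (X / 2 ^ p.2)).filter fun Δ => T (cl p.1 p.2 Δ) with hU
  have hinj : Set.InjOn f (U : Set ((_ : ℕ × ℕ) × ZI)) := by
    rintro ⟨⟨a, b⟩, Δ⟩ h1 ⟨⟨a', b'⟩, Δ'⟩ h2 h
    rw [Finset.mem_coe, hU, Finset.mem_sigma, Finset.mem_filter] at h1 h2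
    obtain ⟨h3, h4, h5⟩ := cl_inj (hS _ h1.1) (hS _ h2.1) (mem_SB.1 h1.2.1).2.prm
      (mem_SB.1 h2.2.1).2.prm h
    have h3' : a = a' := h3
    have h4' : b = b' := h4
    have h5' : Δ = Δ' := h5
    subst h3' h4' h5'
    rfl
  have himg : {D : ZI | nrm D ≤ X ∧ (∃ p ∈ S, ∃ Δ, PS Δ ∧ D = cl p.1 p.2 Δ) ∧ T D} =
      ((U.image f : Finset ZI) : Set ZI) := by
    ext D
    rw [Finset.mem_coe, Finset.mem_image]
    constructor
    · rintro ⟨h1, ⟨p, hp, Δ, hΔ, rfl⟩, h2⟩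
      refine ⟨⟨p, Δ⟩, ?_, rfl⟩
      rw [hU, Finset.mem_sigma, Finset.mem_filter, mem_SB]
      refine ⟨hp, ⟨?_, hΔ⟩, h2⟩
      rw [nrm_cl] at h1
      show nrm Δ ≤ X / 2 ^ p.2
      rw [Nat.le_div_iff_mul_le (by positivity), mul_comm]
      exact h1
    · rintro ⟨⟨p, Δ⟩, h1, rfl⟩
      rw [hU, Finset.mem_sigma, Finset.mem_filter, mem_SB] at h1
      obtain ⟨hp, ⟨h2, h3⟩, h4⟩ := h1
      refine ⟨?_, ⟨p, hp, Δ, h3, rfl⟩, h4⟩
      have h2' : nrm Δ ≤ X / 2 ^ p.2 := h2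
      show nrm (cl p.1 p.2 Δ) ≤ X
      rw [nrm_cl]
      rw [Nat.le_div_iff_mul_le (by positivity), mul_comm] at h2'
      exact h2'
  rw [himg, Set.ncard_coe_finset, Finset.card_image_of_injOn hinj, hU, Finset.card_sigma]

end Pool.Agent.D0H10.Q4
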