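import Pool.Agent.Y699.Qw
import Pool.Agent.Y699.Qe

/-!
Project Q4: the curves `y² = x³ + 2 Δ x` over `ℚ(i)`, `Δ` a product of distinct primary primes.
Definitions.
-/

set_option autoImplicit false

open Filter Complex
open scoped Topology PeriodPair

namespace Pool.Agent.D0H10.Q4

open H385 (ZI RQ im1 nrm)
open Pool.Agent.H304R3.HK (tc HC LH)
open Pool.Agent.Y699

/-- the lattice with `℘'² = 4 ℘³ - 4 ℘`, normalised by the values at `Ω / 2` and `Ω / 4` -/
structure NL (L : PeriodPair) (Ω s : ℂ) : Prop where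
  gl : GLat L Ω
  e1 : ℘[L] (Ω / 2) = 1
  ss : s ^ 2 = 2
  x4 : ℘[L] (Ω / 4) = 1 + s
  y4 : ℘'[L] (Ω / 4) = -2 * s * (1 + s)

/-- the multiplicative system of representatives `x + i y`, `x ≡ 1 mod 4`, `y` even -/
def Cc (a : ZI) : Prop := a.re % 4 = 1 ∧ a.im % 2 = 0

/-- `ρ (x + i y) = i ^ (y / 2)` -/
def rh (a : ZI) : ZI := im1 ^ (a.im / 2 % 4).toNat

/-- the representative in `Cc` of a primary element up to sign -/
def cp (a : ZI) : ZI := if a.re % 4 = 1 then a else -a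

variable {ι : Type} [DecidableEq ι]

open Classical in
/-- the character on the representatives -/
noncomputable def ccm (pr : ι → ZI) (V : Finset ι) (e : ι → ℕ) (a : ZI) : ℂ :=
  if Cc a then tc (rh a * c4 pr V e a) else 0

/-- `A(w) = ∑_{k = 0, 1} (E(w + kΩ/2) - E(w + kΩ/2 + iΩ/2))` for the Eisenstein series `E` -/
noncomputable def AA (L : PeriodPair) (w : ℂ) : ℂ := -2 * (℘[L] w ^ 2 - 2 * ℘[L] w - 1) / ℘'[L] w

/-- `G(z) = ∑_{c ∈ Cc mod 8} ρ(c) E(z + Ω c / 8)` -/
noncomputable def GG (L : PeriodPair) (Ω z : ℂ) : ℂ :=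
  AA L (z + Ω / 8) + I * AA L (z + Ω / 8 + I * (Ω / 4))

/-- the limit of the regularised sum -/
noncomputable def lv (L : PeriodPair) (Ω : ℂ) (pr : ι → ZI) (V : Finset ι) (e : ι → ℕ) : ℂ :=
  Ω * tc (rh (cp (DD pr V))) / (8 * tc (cp (DD pr V))) *
    ∑ᶠ q : RQ (DD pr V), tc (c4 pr V e (8 * q.out)) * GG L Ω (zq Ω (cp (DD pr V)) q.out)

/-- `g = G / G(0)` -/
noncomputable def gg (L : PeriodPair) (Ω z : ℂ) : ℂ := GG L Ω z / GG L Ω 0

/-- half the difference of the abscissas of the double points -/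
noncomputable def Xd (L : PeriodPair) (z w : ℂ) : ℂ := (℘[L] (2 * z) - ℘[L] (2 * w)) / 2

/-- the factor at one prime -/
noncomputable def pf (π : ZI) (k : ℕ) (a : ZI) : ℂ := tc (fe π 0 a + fe π k a) / (1 + I)

/-- the matrix `Lap + diag t` -/
def MQ (t : ι → ZMod 2) (A : ι → ι → ZMod 2) (V : Finset ι) : Matrix V V (ZMod 2) :=
  Matrix.of fun i j => if i = j then t i + ∑ l ∈ V.erase i, A l i else A j i

/-- its determinant for the residue symbols -/
noncomputable def dq (pr : ι → ZI) (V : Finset ι) : ZMod 2 := (MQ (wt pr) (em pr) V).det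

/-- half of the nonzero classes modulo `D` -/
def Half (D : ZI) (H : Set (RQ D)) : Prop := 0 ∉ H ∧ ∀ q, q ≠ 0 → (q ∈ H ↔ -q ∉ H)

/-- the index parity of `8 a` -/
noncomputable def oo (pr : ι → ZI) (i : ι) (a : ZI) : ZMod 2 := if qr (pr i) (8 * a) = -1 then 1 else 0

/-- the image in a ring with `2 = 0` -/
def uA {A : Type} [CommRing A] (a : ZMod 2) : A := if a = 1 then 1 else 0

/-- the formal properties of `Xd (t / D)` in the residue field -/
structure Dst {A : Type} [CommRing A] (F : ZI → ZI → A) : Prop where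
  per : ∀ D t s : ZI, F D (t + D * s) = F D t
  ev : ∀ D t : ZI, F D (-t) = F D t
  im : ∀ D t : ZI, D.norm % 2 = 1 → ¬ D ∣ t → F D (im1 * t) = F D t + 1
  scal : ∀ c D t : ZI, c.norm % 2 = 1 → F (c * D) (c * t) = F D t
  dist : ∀ π D t : ZI, PP π → Pool.Agent.H304R2.EC.A1.prim D → IsCoprime π D → ¬ D ∣ t →
    ∑ᶠ q : RQ π, F (π * D) (π * t + D * q.out) = F D (π * t)

end Pool.Agent.D0H10.Q4
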