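import Pool.Agent.D0H69.Q4.Qls

/-!
Project Q4: the Euler product of `y² = x³ + 2 m x` over the good prime numbers.
-/

set_option autoImplicit false
set_option linter.unusedSectionVars false

open NumberField IsDedekindDomain

namespace Pool.Agent.D0H10.Q4.Eul

open Pool.Agent.D0H69.Q4
open Pool.Agent.Y699 hiding q4
open H385 (ZI RQ im1 nrm)
open Pool.Agent.W164.RC (tc_mul tc_star Ip Ip_spec Ip_one Ip_three dg local_poly local_two ep_hecke)
open Pool.Agent.H304R3.HK (tc HC LH bH psi psi_apply uh_psi goodH bb ee UH tc_star_mul tc_ne_zero)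
open Pool.Agent.H304R2.EC.A1 (prim)
open Pool.Agent.D0H10.Q4 (S_SUP S_QLS Cc rh cQ cZ Adm)

/-- the factor at a bad prime -/
lemma fH_bad {m : ℕ} {X : ZI →* ℂ} (H : HC (8 * (m : ZI)) X) (s : ℂ) {p : Nat.Primes}
    (hb : (p : ℕ) = 2 ∨ (p : ℕ) ∣ m) : fH X s p = 1 := by
  have hp := p.2
  have hX0 : X pi1 = 0 := X_zero H pi1_prime ((pi1_two.trans ⟨4, by norm_num⟩).mul_right _)
  by_cases h2 : (p : ℕ) = 2
  · exact fH_two H hX0 s h2
  · have hpm : (p : ℕ) ∣ m := by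
      rcases hb with h | h
      · exact absurd h h2
      · exact h
    rw [fH_odd H s h2, Finset.prod_eq_one, inv_one]
    intro z hz
    have h5 : z ∣ ((m : ℤ) : ZI) := (ip_nat_dvd hp hz m).2 (by exact_mod_cast hpm)
    have h6 : X z = 0 := by
      apply X_zero H (Ip_spec hp hz).2.1
      rw [Int.cast_natCast] at h5
      exact h5.mul_left _
    rw [h6, zero_mul, zero_mul, sub_zero]

/-- the factor at a good prime -/
theorem fH_good (hS : S_SUP) {m : ℕ} (hm : Adm m) {X : ZI →* ℂ} (H : HC (8 * (m : ZI)) X)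
    (hX : ∀ a, Cc a → X a =
      (starRingEnd ℂ) (tc (rh a * c4 (fam (m : ZI)) Finset.univ on1 a)))
    (s : ℂ) {p : Nat.Primes} (h2 : (p : ℕ) ≠ 2) (hpm : ¬ (p : ℕ) ∣ m) [Fact (p : ℕ).Prime] :
    fH X s p = (1 - ((p : ℕ) - (cnf (ZMod (p : ℕ)) ((2 * m : ℤ) : ZMod (p : ℕ)) : ℂ)) *
      ((p : ℕ) : ℂ) ^ (-s) + ((p : ℕ) : ℂ) * (((p : ℕ) : ℂ) ^ (-s)) ^ 2)⁻¹ := by
  have hps := ps_nat hm
  have hp := p.2
  have hcard : Nat.card (ZMod (p : ℕ)) = p := Nat.card_zmod p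
  have hnd : ∀ z ∈ Ip p, ¬ z ∣ (m : ZI) := by
    intro z hz h
    rw [← Int.cast_natCast m, ip_nat_dvd hp hz] at h
    exact hpm (by exact_mod_cast h)
  have hnd2 : ∀ z ∈ Ip p, ¬ z ∣ ((2 * m : ℤ) : ZI) := by
    intro z hz h
    rw [ip_nat_dvd hp hz] at h
    have hpi := Nat.prime_iff_prime_int.1 hp
    rcases hpi.dvd_or_dvd h with h3 | h3
    · have h6 : (p : ℕ) ∣ 2 := by exact_mod_cast h3
      exact h2 ((Nat.prime_dvd_prime_iff_eq hp Nat.prime_two).1 h6)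
    · exact hpm (by exact_mod_cast h3)
  have hcst : ((2 * m : ℤ) : ZI) = 2 * (m : ZI) := by push_cast; rfl
  have h4 : (p : ℕ) % 4 = 1 ∨ (p : ℕ) % 4 = 3 := by
    rcases hp.eq_two_or_odd with h | h
    · exact absurd h h2
    · omega
  rcases h4 with h1 | h3
  · obtain ⟨x, hxm, hxp, hxx, hn, hI⟩ := Ip_one hp h1
    have hxI : x ∈ Ip p := by rw [hI]; simp
    have hxI' : star x ∈ Ip p := by rw [hI]; simp
    have hPx : PP x := PP_ip hp hxI
    have hc := congrArg tc (cnf_one (k := ZMod (p : ℕ)) hPx hn hcard (2 * m)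
      (hnd2 x hxI))
    rw [hcst, tc_int, tc_add, tc_mul, tc_mul, tc_star, tc_star] at hc
    have hX1 := X_prime hS jj hps H hX hPx (hnd x hxI)
    have hX2 := X_prime hS jj hps H hX hPx.star (hnd _ hxI')
    have hq : Pool.Agent.Y699.q4 (star x) (-(2 * (m : ZI))) =
        star (Pool.Agent.Y699.q4 x (-(2 * (m : ZI)))) := by
      rw [← q4_star hPx]
      congr 1
      rw [star_neg, star_mul, star_natCast, star_ofNat, mul_comm]
    rw [hq, tc_star, Complex.conj_conj] at hX2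
    set q := Pool.Agent.Y699.q4 x (-(2 * (m : ZI))) with hqd
    have hq1 : tc q * (starRingEnd ℂ) (tc q) = 1 := by
      rw [← tc_star, ← tc_mul, unit_star_mul (q4_norm hPx ?_), tc_one]
      rw [dvd_neg, ← hcst]
      exact hnd2 x hxI
    have hx1 : tc x * (starRingEnd ℂ) (tc x) = ((p : ℕ) : ℂ) := by
      rw [← tc_star, ← tc_mul, hxx]
      unfold tc
      simp
    rw [fH_odd H s h2, hI, Finset.prod_insert (by simpa using hxm), Finset.prod_singleton,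
      hX1, hX2, nrm_star, hn, tc_star]
    congr 1
    push_cast at hc ⊢
    linear_combination (((((p : ℕ) : ℂ) ^ (-s)) ^ 2) * ((p : ℕ) : ℂ)) * hq1 +
      (((((p : ℕ) : ℂ) ^ (-s)) ^ 2) * tc q * (starRingEnd ℂ) (tc q)) * hx1 +
      (((p : ℕ) : ℂ) ^ (-s)) * hc
  · have hI := Ip_three h3
    have hxI : -((p : ℕ) : ZI) ∈ Ip p := by rw [hI]; simp
    have hPx : PP (-((p : ℕ) : ZI)) := PP_ip hp hxI
    have hc : cnf (ZMod (p : ℕ)) ((2 * m : ℤ) : ZMod (p : ℕ)) = p := by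
      rw [cnf_three (by rw [hcard]; exact h3), hcard]
    have hq : Pool.Agent.Y699.q4 (-((p : ℕ) : ZI)) (-(2 * (m : ZI))) = 1 := by
      have h5 := Rp_rat hp (m := -(2 * m)) (by
        intro h
        rw [dvd_neg] at h
        exact hnd2 _ hxI ((ip_nat_dvd hp hxI _).2 h))
      unfold Rp at h5
      rw [hI, Finset.prod_singleton] at h5
      rw [← h5]
      congr 1
      push_cast
      rfl
    have hX1 := X_prime hS jj hps H hX hPx (hnd _ hxI)
    rw [hq, tc_one, map_one] at hX1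
    rw [fH_odd H s h2, hI, Finset.prod_singleton, hX1, hc, nrm_inert]
    congr 1
    have h7 : tc (-((p : ℕ) : ZI)) = -((p : ℕ) : ℂ) := by
      unfold tc
      simp
    rw [h7]
    have h8 : ((((p : ℕ) * (p : ℕ) : ℕ)) : ℂ) ^ (-s) = (((p : ℕ) : ℂ) ^ (-s)) ^ 2 := by
      rw [Nat.cast_mul, Complex.natCast_mul_natCast_cpow, sq]
    rw [h8]
    push_cast
    ring

open Classical in
/-- the Euler product in the form of the frozen statement of the rank conjecture -/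
theorem euler (hS : S_SUP) {m : ℕ} (hm : Adm m) {X : ZI →* ℂ} (H : HC (8 * (m : ZI)) X)
    (hX : ∀ a, Cc a → X a =
      (starRingEnd ℂ) (tc (rh a * c4 (fam (m : ZI)) Finset.univ on1 a)))
    (s : ℂ) (hs : (3 : ℝ) / 2 < s.re) :
    HasProd (fun p : ℕ =>
      if p.Prime ∧ ¬ ((p : ℤ) ∣ 2 * (-4 * (2 * (m : ℤ)) ^ 3 - 27 * 0 ^ 2)) then
        (1 - ((p : ℂ) - (Nat.card {q : ZMod p × ZMod p //
            q.2 ^ 2 = q.1 ^ 3 + ((2 * (m : ℤ) : ℤ) : ZMod p) * q.1 + ((0 : ℤ) : ZMod p)} : ℂ))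
            * (p : ℂ) ^ (-s) + (p : ℂ) ^ (1 - 2 * s))⁻¹
      else 1) (LH X (s - 1 / 2)) := by
  obtain ⟨A, hA, hgood⟩ := goodH
  have hre : 1 < (s - 1 / 2).re := by
    have : (s - 1 / 2).re = s.re - 1 / 2 := by simp
    rw [this]; linarith
  have h3 := ep_hecke (uh_psi _ _ H) (s - 1 / 2) _ ((hgood _ _ H).2.1 _ hre)
  set g : ℕ → ℂ := fun p : ℕ =>
      if p.Prime ∧ ¬ ((p : ℤ) ∣ 2 * (-4 * (2 * (m : ℤ)) ^ 3 - 27 * 0 ^ 2)) then
        (1 - ((p : ℂ) - (Nat.card {q : ZMod p × ZMod p //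
            q.2 ^ 2 = q.1 ^ 3 + ((2 * (m : ℤ) : ℤ) : ZMod p) * q.1 + ((0 : ℤ) : ZMod p)} : ℂ))
            * (p : ℂ) ^ (-s) + (p : ℂ) ^ (1 - 2 * s))⁻¹
      else 1 with hg
  have hsupp : Function.mulSupport g ⊆ {p : ℕ | p.Prime} := by
    intro p hp
    by_contra h
    apply hp
    rw [hg]
    exact if_neg fun h' => h h'.1
  have key : ∀ p : Nat.Primes, g (p : ℕ) = fH X s p := by
    intro p
    have hpp : Fact (p : ℕ).Prime := ⟨p.2⟩
    have hpi := Nat.prime_iff_prime_int.1 p.2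
    have e0 : (2 * (-4 * (2 * (m : ℤ)) ^ 3 - 27 * 0 ^ 2) : ℤ) = -(2 ^ 6 * (m : ℤ) ^ 3) := by ring
    by_cases hb : (p : ℕ) = 2 ∨ (p : ℕ) ∣ m
    · rw [fH_bad H s hb, hg]
      refine if_neg fun h' => h'.2 ?_
      rw [e0, dvd_neg]
      rcases hb with h | h
      · rw [h]
        exact Dvd.dvd.mul_right ⟨2 ^ 5, by norm_num⟩ _
      · exact Dvd.dvd.mul_left (Dvd.dvd.trans (by exact_mod_cast h) (dvd_pow_self (m : ℤ) three_ne_zero)) _
    · push Not at hb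
      obtain ⟨h2, hpm⟩ := hb
      have hcond : (p : ℕ).Prime ∧
          ¬ (((p : ℕ) : ℤ) ∣ 2 * (-4 * (2 * (m : ℤ)) ^ 3 - 27 * 0 ^ 2)) := by
        refine ⟨p.2, fun h => ?_⟩
        rw [e0, dvd_neg] at h
        rcases hpi.dvd_or_dvd h with h3 | h3
        · have h5 := hpi.dvd_of_dvd_pow h3
          have h6 : (p : ℕ) ∣ 2 := by exact_mod_cast h5
          exact h2 ((Nat.prime_dvd_prime_iff_eq p.2 Nat.prime_two).1 h6)
        · have h5 := hpi.dvd_of_dvd_pow h3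
          exact hpm (by exact_mod_cast h5)
      rw [fH_good hS hm H hX s h2 hpm, hg]
      refine (if_pos hcond).trans ?_
      have hp0 : ((p : ℕ) : ℂ) ≠ 0 := by exact_mod_cast p.2.ne_zero
      have e1 : ((p : ℕ) : ℂ) ^ (1 - 2 * s) = ((p : ℕ) : ℂ) * (((p : ℕ) : ℂ) ^ (-s)) ^ 2 := by
        have : (1 - 2 * s : ℂ) = 1 + ((2 : ℕ) : ℂ) * (-s) := by push_cast; ring
        rw [this, Complex.cpow_add _ _ hp0, Complex.cpow_one, Complex.cpow_nat_mul]
      have e2 : Nat.card {q : ZMod (p : ℕ) × ZMod (p : ℕ) //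
            q.2 ^ 2 = q.1 ^ 3 + ((2 * (m : ℤ) : ℤ) : ZMod (p : ℕ)) * q.1 +
              ((0 : ℤ) : ZMod (p : ℕ))} =
          cnf (ZMod (p : ℕ)) ((2 * (m : ℤ) : ℤ) : ZMod (p : ℕ)) := by
        unfold cnf
        refine Nat.card_congr (Equiv.subtypeEquivRight fun x => ?_)
        rw [Int.cast_zero, add_zero]
      rw [e1, e2]
  have h5 : HasProd (g ∘ ((↑) : {p : ℕ | p.Prime} → ℕ)) (LH X (s - 1 / 2)) := by
    have h6 : HasProd (fun p : Nat.Primes => g (p : ℕ)) (LH X (s - 1 / 2)) := by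
      simp_rw [key]
      exact h3
    exact h6
  exact (hasProd_subtype_iff_of_mulSupport_subset hsupp).1 h5

end Pool.Agent.D0H10.Q4.Eul
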