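import Pool.Agent.D0H10.Q4.FinK
import Pool.Agent.D0H10.Q4.Kval
import Pool.Agent.D0H10.Q4.Nl
import Pool.Agent.D0H43.Q4.Stm2

/-!
Project Q4: assembly over `ℚ(i)`, the class of the `i ^ σ Δ`, `σ` odd.
-/

set_option autoImplicit false

open NumberField IsDedekindDomain WeierstrassCurve Filter
open scoped Topology

namespace Pool.Agent.D0H10.Q4

open H385 (ZI RQ im1 nrm)
open Pool.Agent.H304R3.HK (tc HC LH)
open Pool.Agent.TH841.NF.D (Sha)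
open Pool.Agent.Y699 (PS fam on1 LG LG_diff PF Cg uu)
open Pool.Agent.D0H43.Q4

/-- the inputs for the class `i ^ σ Δ` -/
structure BD : Prop where
  hec : S_HEC1
  lim : S_LIM1
  bet : S_BET1
  ls : S_LS1
  sel : S_SEL1
  conv : S_CONV1

theorem selD_iff (B : BD) {σ : ℕ} (hσ : σ % 2 = 1) {K : Type} [Field K] [NumberField K]
    (e : ZI ≃+* 𝓞 K) {Δ : ZI} (h : PS Δ) :
    (Finite (cI e σ Δ).toAffine.Point ∧ ∀ x : Sha (cI e σ Δ), x + x = 0 → x = 0) ↔ dD Δ = 1 := by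
  constructor
  · rintro ⟨hf, hs⟩
    rcases dD_cases Δ with h0 | h0
    · obtain ⟨x, hx, hx0⟩ := B.conv σ hσ K e Δ h h0 hf
      exact absurd (hs x (by rw [← two_nsmul]; exact hx)) hx0
    · exact h0
  · intro hd
    obtain ⟨h1, h2⟩ := B.sel σ hσ K e Δ h hd
    refine ⟨Nat.finite_of_card_ne_zero (by rw [h1]; norm_num), fun x hx => h2 1 x ?_⟩
    rw [pow_one, two_nsmul]
    exact hx

/-- trivial 2-part -/
def TrivD {K : Type} [Field K] [NumberField K] (e : ZI ≃+* 𝓞 K) (σ : ℕ) (Δ : ZI) : Prop :=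
  Finite (cI e σ Δ).toAffine.Point ∧ ∀ (n : ℕ) (x : Sha (cI e σ Δ)), 2 ^ n • x = 0 → x = 0

theorem trivD_iff (B : BD) {σ : ℕ} (hσ : σ % 2 = 1) {K : Type} [Field K] [NumberField K]
    (e : ZI ≃+* 𝓞 K) {Δ : ZI} (h : PS Δ) : TrivD e σ Δ ↔ dD Δ = 1 := by
  constructor
  · rintro ⟨hf, hs⟩
    exact (selD_iff B hσ e h).1 ⟨hf, fun x hx => hs 1 x (by rw [pow_one, two_nsmul]; exact hx)⟩
  · intro hd
    exact ⟨((selD_iff B hσ e h).2 hd).1, (B.sel σ hσ K e Δ h hd).2⟩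

/-- the L-function -/
theorem lfunD (B : BD) {σ : ℕ} (hσ : σ % 2 = 1) {Δ : ZI} (h : PS Δ) :
    ∃ Λ : ℂ → ℂ, Differentiable ℂ Λ ∧
    (∀ (K : Type) [Field K] [NumberField K] (e : ZI ≃+* 𝓞 K) (s : ℂ), 3 / 2 < s.re →
      LSeriesSummable ((fun n : ℤ => (n : ℂ)) ∘ (cI e σ Δ).LFunction) s ∧
        Λ s = (cI e σ Δ).LSeries s) ∧
    (dD Δ = 1 → Λ 1 ≠ 0) := by
  have hp := Pool.Agent.Y699.fam_PF h.ne
  have hsg : sg σ Δ % 2 = 1 := by
    unfold sg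
    omega
  obtain ⟨X, hX1, hX2, hX3⟩ := B.hec (sg σ Δ) hsg _ (fam Δ) hp Finset.univ on1 (fun i _ => by
      show 1 % 4 ≠ 0
      norm_num)
  rw [h.DD] at hX1
  refine ⟨LG X, LG_diff hX1, fun K _ _ e s hs => B.ls σ hσ K e Δ h X hX1 hX2 s hs, fun hd => ?_⟩
  apply Pool.Agent.Y699.LG_one
  obtain ⟨L, Ω, s, hN⟩ := nl
  rw [hX3 _ (B.lim (sg σ Δ) hsg L Ω s hN _ (fam Δ) hp Finset.univ on1)]
  intro h0
  have h1 : lvi (sg σ Δ) L Ω (fam Δ) Finset.univ on1 = 0 := by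
    rwa [map_eq_zero] at h0
  refine exists_val2 fun Γ _ v hv => ?_
  have h2 := B.bet (sg σ Δ) hsg L Ω s hN Γ v hv _ (fam Δ) hp Finset.univ on1 (fun i _ => by
      show 1 % 2 = 1
      norm_num)
  have h3 : Pool.Agent.D0H10.Q4.dq (fam Δ) Finset.univ = 1 := hd
  rw [h1, zero_div, h3] at h2
  have h4 := (cg_unit h2).2.2 rfl
  rw [map_zero] at h4
  exact zero_ne_one h4

end Pool.Agent.D0H10.Q4
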