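import Pool.Agent.R508.GaussBasic

/-!
The ring of integers of `ℚ(i)`.
-/

set_option autoImplicit false

open NumberField

namespace Pool.Agent.D0H10.Q4.Rng

variable (K : Type) [Field K] [NumberField K] [IsCyclotomicExtension {4} ℚ K]

theorem exists_e : ∃ e : GaussianInt ≃+* 𝓞 K, ∀ z : GaussianInt, Algebra.norm ℤ (e z) = z.norm := by
  have : NeZero ((4 : ℕ) : K) := ⟨by norm_num⟩
  obtain ⟨z4, z4_spec⟩ := IsCyclotomicExtension.exists_isPrimitiveRoot ℚ K
      (Set.mem_singleton 4) (by norm_num)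
  have z4_sq : z4 * z4 = -1 := by
    have h1 : z4 ^ 4 = 1 := z4_spec.pow_eq_one
    have h2 : z4 ^ 2 ≠ 1 := z4_spec.pow_ne_one_of_pos_of_lt (by norm_num) (by norm_num)
    have h3 : (z4 ^ 2 - 1) * (z4 * z4 + 1) = 0 := by linear_combination h1
    rcases mul_eq_zero.1 h3 with h | h
    · exact absurd (sub_eq_zero.1 h) h2
    · linear_combination h
  let emb : GaussianInt →+* K := Zsqrtd.lift ⟨z4, by rw [z4_sq]; norm_num⟩
  have emb_apply : ∀ z : GaussianInt, emb z = z.re + z.im * z4 := fun z => rfl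
  have emb_inj : Function.Injective emb := by
    refine Zsqrtd.lift_injective _ ?_
    intro n h
    nlinarith [mul_self_nonneg n]
  have z4_integral : IsIntegral ℤ z4 := z4_spec.isIntegral (by norm_num)
  have emb_integral : ∀ z : GaussianInt, IsIntegral ℤ (emb z) := by
    intro z
    rw [emb_apply]
    exact IsIntegral.add (isIntegral_algebraMap (R := ℤ) (x := z.re))
      (IsIntegral.mul (isIntegral_algebraMap (R := ℤ) (x := z.im)) z4_integral)
  have emb_surj : ∀ {x : K}, IsIntegral ℤ x → ∃ z, emb z = x := by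
    intro x hx
    have h1 := IsCyclotomicExtension.Rat.isIntegralClosure_adjoin_singleton (n := 4) (K := K) z4_spec
    obtain ⟨y, hy⟩ := h1.isIntegral_iff.1 hx
    have h2 : Algebra.adjoin ℤ ({z4} : Set K) ≤ (emb.toIntAlgHom).range := by
      refine Algebra.adjoin_le ?_
      intro u hu
      rw [Set.mem_singleton_iff] at hu
      rw [hu]
      exact ⟨⟨0, 1⟩, by simp [emb_apply]⟩
    obtain ⟨z, hz⟩ := h2 y.2
    exact ⟨z, by rw [← hy]; exact hz⟩
  have hb : Function.Bijective
      (emb.codRestrict (integralClosure ℤ K).toSubring emb_integral : GaussianInt →+* 𝓞 K) :=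
    ⟨fun a b h => emb_inj (congrArg Subtype.val h), fun x => by
      obtain ⟨z, hz⟩ := emb_surj x.2
      exact ⟨z, Subtype.ext hz⟩⟩
  refine ⟨RingEquiv.ofBijective _ hb, fun z => ?_⟩
  have h1 := Algebra.norm_eq_of_equiv_equiv (RingEquiv.refl ℤ)
      (RingEquiv.ofBijective _ hb) (RingHom.ext_int _ _) z
  rw [← Pool.Agent.R508.GI.algNorm, h1]
  rfl

end Pool.Agent.D0H10.Q4.Rng
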