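import Pool.Agent.D0H10.Q4.FinD
import Pool.Agent.D0H10.Q4.Cls
import Pool.Agent.D0H10.Q4.Rng

/-!
Project Q4: the headline over `ℚ(i)` from the inputs.
-/

set_option autoImplicit false

open NumberField IsDedekindDomain WeierstrassCurve Filter
open scoped Topology

namespace Pool.Agent.D0H10.Q4

open H385 (ZI RQ im1 nrm)
open Pool.Agent.H304R3.HK (tc HC LH)
open Pool.Agent.TH841.NF.D (Sha)
open Pool.Agent.Y699 (SB mem_SB PS pi1 pi1_prime)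
open Pool.Agent.H304R2.EC.A1 (prim)
open Pool.Agent.D0H43.Q4

/-- weighted means -/
theorem ratio_sum {ι : Type} (S : Finset ι) (hS : S.Nonempty) (N M : ι → ℕ → ℝ) (c : ℝ)
    (hM : ∀ i ∈ S, ∀ᶠ X in atTop, 0 < M i X)
    (h : ∀ i ∈ S, Tendsto (fun X => N i X / M i X) atTop (𝓝 c)) :
    Tendsto (fun X => (∑ i ∈ S, N i X) / ∑ i ∈ S, M i X) atTop (𝓝 c) := by
  rw [Metric.tendsto_nhds]
  intro ε hε
  have h1 : ∀ᶠ X in atTop, ∀ i ∈ S, 0 < M i X ∧ |N i X / M i X - c| < ε := by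
    rw [eventually_all_finset]
    intro i hi
    have h2 := (Metric.tendsto_nhds.1 (h i hi)) ε hε
    filter_upwards [hM i hi, h2] with X hX1 hX2
    rw [Real.dist_eq] at hX2
    exact ⟨hX1, hX2⟩
  filter_upwards [h1] with X hX
  have hpos : 0 < ∑ i ∈ S, M i X := Finset.sum_pos (fun i hi => (hX i hi).1) hS
  rw [Real.dist_eq, div_sub' hpos.ne', abs_div, abs_of_pos hpos, div_lt_iff₀ hpos]
  rw [Finset.sum_mul, ← Finset.sum_sub_distrib, Finset.mul_sum]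
  refine (Finset.abs_sum_le_sum_abs _ _).trans_lt ?_
  refine Finset.sum_lt_sum_of_nonempty hS fun i hi => ?_
  obtain ⟨hp, hc⟩ := hX i hi
  have h3 : N i X - M i X * c = (N i X / M i X - c) * M i X := by
    field_simp
  rw [h3, abs_mul, abs_of_pos hp]
  exact mul_lt_mul_of_pos_right hc hp

lemma div_atTop (b : ℕ) : Tendsto (fun X : ℕ => X / 2 ^ b) atTop atTop := by
  rw [tendsto_atTop]
  intro n
  filter_upwards [eventually_ge_atTop (n * 2 ^ b)] with X hX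
  exact (Nat.le_div_iff_mul_le (by positivity)).2 hX

lemma SB_pos {X : ℕ} (hX : 1 ≤ X) : 0 < (SB X).card := by
  apply Finset.card_pos.2
  refine ⟨1, mem_SB.2 ⟨?_, ⟨?_, ?_⟩, squarefree_one⟩⟩
  · have : nrm 1 = 1 := by decide
    rw [this]
    exact hX
  · decide
  · decide

/-- the constant -/
noncomputable def cc2 : ℝ := ∏' i : ℕ, (1 - (1 / 2 : ℝ) ^ (2 * i + 1))

/-- the union of the classes in `S` -/
def InS (S : Finset (ℕ × ℕ)) (D : ZI) : Prop := ∃ p ∈ S, ∃ Δ, PS Δ ∧ D = cl p.1 p.2 Δ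

theorem dens_cls (hden : S_KDEN) (S : Finset (ℕ × ℕ)) (hS : S.Nonempty) (h4 : ∀ p ∈ S, p.1 < 4)
    (T : ZI → Prop) (hT : ∀ p ∈ S, ∀ Δ, PS Δ → (T (cl p.1 p.2 Δ) ↔ dD Δ = 1)) :
    Tendsto (fun X : ℕ => ({D : ZI | nrm D ≤ X ∧ InS S D ∧ T D}.ncard : ℝ) /
      ({D : ZI | nrm D ≤ X ∧ InS S D}.ncard : ℝ)) atTop (𝓝 cc2) := by
  classical
  have e1 : ∀ X : ℕ, ({D : ZI | nrm D ≤ X ∧ InS S D ∧ T D}.ncard : ℝ) =
      ∑ p ∈ S, (((SB (X / 2 ^ p.2)).filter fun Δ => dD Δ = 1).card : ℝ) := by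
    intro X
    have h1 := count_cls S h4 T X
    have h2 : {D : ZI | nrm D ≤ X ∧ InS S D ∧ T D}.ncard =
        {D : ZI | nrm D ≤ X ∧ (∃ p ∈ S, ∃ Δ, PS Δ ∧ D = cl p.1 p.2 Δ) ∧ T D}.ncard := rfl
    rw [h2, h1]
    push_cast
    refine Finset.sum_congr rfl fun p hp => ?_
    congr 2
    refine Finset.filter_congr fun Δ hΔ => ?_
    exact hT p hp Δ (mem_SB.1 hΔ).2
  have e2 : ∀ X : ℕ, ({D : ZI | nrm D ≤ X ∧ InS S D}.ncard : ℝ) =
      ∑ p ∈ S, ((SB (X / 2 ^ p.2)).card : ℝ) := by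
    intro X
    have h1 := count_cls S h4 (fun _ => True) X
    have h2 : {D : ZI | nrm D ≤ X ∧ InS S D} =
        {D : ZI | nrm D ≤ X ∧ (∃ p ∈ S, ∃ Δ, PS Δ ∧ D = cl p.1 p.2 Δ) ∧ True} := by
      ext D
      simp [InS]
    rw [h2, h1]
    push_cast
    refine Finset.sum_congr rfl fun p hp => ?_
    rw [Finset.filter_true]
  simp_rw [e1, e2]
  refine ratio_sum S hS _ _ _ (fun p hp => ?_) fun p hp => ?_
  · filter_upwards [(div_atTop p.2).eventually_ge_atTop 1] with X hX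
    exact_mod_cast SB_pos hX
  · exact hden.comp (div_atTop p.2)

lemma div_real (b : ℕ) : Tendsto (fun X : ℕ => ((X / 2 ^ b : ℕ) : ℝ) / (X : ℝ)) atTop
    (𝓝 ((1 / 2 : ℝ) ^ b)) := by
  have h := (tendsto_nat_floor_mul_div_atTop (R := ℝ) (a := (1 / 2 : ℝ) ^ b) (by positivity)).comp
    tendsto_natCast_atTop_atTop
  refine h.congr' ?_
  filter_upwards with X
  show ((⌊(1 / 2 : ℝ) ^ b * (X : ℝ)⌋₊ : ℕ) : ℝ) / (X : ℝ) = _
  have h1 : (1 / 2 : ℝ) ^ b * (X : ℝ) = (X : ℝ) / ((2 ^ b : ℕ) : ℝ) := by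
    push_cast
    rw [div_pow, one_pow]
    ring
  rw [h1, Nat.floor_div_eq_div]

/-- the number of the elements of a class -/
lemma cls_lim {κ : ℝ} (h : Tendsto (fun X : ℕ => ((SB X).card : ℝ) / (X : ℝ)) atTop (𝓝 κ))
    (b : ℕ) : Tendsto (fun X : ℕ => ((SB (X / 2 ^ b)).card : ℝ) / (X : ℝ)) atTop
      (𝓝 (κ * (1 / 2 : ℝ) ^ b)) := by
  have h1 := (h.comp (div_atTop b)).mul (div_real b)
  refine h1.congr' ?_
  filter_upwards [(div_atTop b).eventually_ge_atTop 1] with X hX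
  have h2 : ((X / 2 ^ b : ℕ) : ℝ) ≠ 0 := by
    have : (0 : ℝ) < ((X / 2 ^ b : ℕ) : ℝ) := by exact_mod_cast hX
    exact this.ne'
  show ((SB (X / 2 ^ b)).card : ℝ) / ((X / 2 ^ b : ℕ) : ℝ) * (((X / 2 ^ b : ℕ) : ℝ) / (X : ℝ)) = _
  field_simp

/-- the number of the elements in a union of classes -/
theorem cnt_lim {κ : ℝ} (h : Tendsto (fun X : ℕ => ((SB X).card : ℝ) / (X : ℝ)) atTop (𝓝 κ))
    (S : Finset (ℕ × ℕ)) (h4 : ∀ p ∈ S, p.1 < 4) :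
    Tendsto (fun X : ℕ => ({D : ZI | nrm D ≤ X ∧ InS S D}.ncard : ℝ) / (X : ℝ)) atTop
      (𝓝 (∑ p ∈ S, κ * (1 / 2 : ℝ) ^ p.2)) := by
  classical
  have e2 : ∀ X : ℕ, ({D : ZI | nrm D ≤ X ∧ InS S D}.ncard : ℝ) / (X : ℝ) =
      ∑ p ∈ S, ((SB (X / 2 ^ p.2)).card : ℝ) / (X : ℝ) := by
    intro X
    have h1 := count_cls S h4 (fun _ => True) X
    have h2 : {D : ZI | nrm D ≤ X ∧ InS S D} =
        {D : ZI | nrm D ≤ X ∧ (∃ p ∈ S, ∃ Δ, PS Δ ∧ D = cl p.1 p.2 Δ) ∧ True} := by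
      ext D
      simp [InS]
    rw [h2, h1, Nat.cast_sum, Finset.sum_div]
    refine Finset.sum_congr rfl fun p hp => ?_
    rw [Finset.filter_true]
  simp_rw [e2]
  exact tendsto_finsetSum S fun p _ => cls_lim h p.2

/-- all the squarefree elements -/
def Ssq : Finset (ℕ × ℕ) := Finset.range 4 ×ˢ Finset.range 2

lemma inS_Ssq {D : ZI} : InS Ssq D ↔ Squarefree D := by
  rw [sqf_iff]
  constructor
  · rintro ⟨⟨a, b⟩, hp, Δ, hΔ, h⟩
    have h1 := Finset.mem_product.1 hp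
    exact ⟨a, b, Δ, Finset.mem_range.1 h1.1, Finset.mem_range.1 h1.2, hΔ, h⟩
  · rintro ⟨a, b, Δ, ha, hb, hΔ, h⟩
    exact ⟨(a, b), Finset.mem_product.2 ⟨Finset.mem_range.2 ha, Finset.mem_range.2 hb⟩, Δ, hΔ, h⟩

/-- the proportion in all the squarefree elements -/
theorem prop_sqf (hden : S_KDEN) (hsq : S_SQF) (S : Finset (ℕ × ℕ)) (hS : S.Nonempty)
    (h4 : ∀ p ∈ S, p.1 < 4) (T : ZI → Prop)
    (hT : ∀ p ∈ S, ∀ Δ, PS Δ → (T (cl p.1 p.2 Δ) ↔ dD Δ = 1)) :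
    Tendsto (fun X : ℕ => ({D : ZI | nrm D ≤ X ∧ InS S D ∧ T D}.ncard : ℝ) /
      ({D : ZI | nrm D ≤ X ∧ Squarefree D}.ncard : ℝ)) atTop
        (𝓝 ((∑ p ∈ S, (1 / 2 : ℝ) ^ p.2) / 6 * cc2)) := by
  obtain ⟨κ, hκ, h⟩ := hsq
  have h1 := dens_cls hden S hS h4 T hT
  have h2 := cnt_lim h S h4
  have h3 := cnt_lim h Ssq (fun p hp => by
    have h1 := Finset.mem_product.1 hp
    exact Finset.mem_range.1 h1.1)
  have e3 : ∑ p ∈ Ssq, κ * (1 / 2 : ℝ) ^ p.2 = 6 * κ := by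
    unfold Ssq
    rw [Finset.sum_product]
    simp [Finset.sum_range_succ]
    ring
  rw [e3] at h3
  have e4 : ∑ p ∈ S, κ * (1 / 2 : ℝ) ^ p.2 = κ * ∑ p ∈ S, (1 / 2 : ℝ) ^ p.2 := by
    rw [Finset.mul_sum]
  rw [e4] at h2
  have hpos : 0 < ∑ p ∈ S, (1 / 2 : ℝ) ^ p.2 := Finset.sum_pos (fun _ _ => by positivity) hS
  have h5 := (h1.mul h2).div h3 (by positivity)
  have e5 : cc2 * (κ * ∑ p ∈ S, (1 / 2 : ℝ) ^ p.2) / (6 * κ) =
      (∑ p ∈ S, (1 / 2 : ℝ) ^ p.2) / 6 * cc2 := by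
    field_simp
  rw [e5] at h5
  refine h5.congr' ?_
  have h6 : ∀ᶠ X : ℕ in atTop, (0 : ℝ) < ({D : ZI | nrm D ≤ X ∧ InS S D}.ncard : ℝ) / (X : ℝ) :=
    h2.eventually_const_lt (by positivity)
  filter_upwards [h6, eventually_gt_atTop 0] with X hX hX0
  have h7 : (X : ℝ) ≠ 0 := by positivity
  have h8 : ({D : ZI | nrm D ≤ X ∧ InS S D}.ncard : ℝ) ≠ 0 := by
    intro h0
    rw [h0, zero_div] at hX
    exact lt_irrefl _ hX
  have e6 : {D : ZI | nrm D ≤ X ∧ InS Ssq D} = {D : ZI | nrm D ≤ X ∧ Squarefree D} := by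
    ext D
    simp only [Set.mem_ofPred_eq, inS_Ssq]
  simp only [Pi.div_apply]
  rw [e6]
  rcases eq_or_ne ({D : ZI | nrm D ≤ X ∧ Squarefree D}.ncard : ℝ) 0 with h0 | h0
  · rw [h0, zero_div, div_zero, div_zero]
  · field_simp

end Pool.Agent.D0H10.Q4
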