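import Pool.Agent.D0H10.Q4.FinH

/-!
Project Q4: the facts for the curves `y² = x³ + D x` over `ℚ(i)` and the transfer to the ring of
integers.
-/

set_option autoImplicit false

open NumberField IsDedekindDomain WeierstrassCurve Filter
open scoped Topology Classical

namespace Pool.Agent.D0H10.Q4

open H385 (ZI RQ im1 nrm)
open Pool.Agent.TH841.NF.D (Sha)
open Pool.Agent.Y699 (SB mem_SB PS pi1 pi1_prime)
open Pool.Agent.H304R2.EC.A1 (prim)
open Pool.Agent.D0H43.Q4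

/-- `y² = x³ + D x` -/
def Cv {F : Type} [Field F] (D : F) : WeierstrassCurve F := ⟨0, 0, 0, D, 0⟩

/-- entire -/
def EntL {F : Type} [Field F] [NumberField F] (W : WeierstrassCurve F) : Prop :=
  ∃ L : ℂ → ℂ, Differentiable ℂ L ∧ ∀ s : ℂ, 3 / 2 < s.re →
    LSeriesSummable ((fun n : ℤ => (n : ℂ)) ∘ W.LFunction) s ∧ L s = W.LSeries s

/-- the rank part, rank zero -/
def RkZ {F : Type} [Field F] [NumberField F] (W : WeierstrassCurve F) : Prop :=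
  W.IsElliptic ∧ Finite W.toAffine.Point ∧
  ∃ (U : Set ℂ) (L : ℂ → ℂ),
    IsOpen U ∧ IsConnected U ∧ {s : ℂ | (3 / 2 : ℝ) < s.re} ⊆ U ∧ (1 : ℂ) ∈ U ∧
    AnalyticOnNhd ℂ L U ∧ (∀ s : ℂ, (3 / 2 : ℝ) < s.re → L s = W.LSeries s) ∧
    (∀ r : ℕ, r < Module.finrank ℤ W.toAffine.Point → iteratedDeriv r L 1 = 0) ∧
    iteratedDeriv (Module.finrank ℤ W.toAffine.Point) L 1 ≠ 0

lemma finrank_fin (G : Type) [AddCommGroup G] [Finite G] : Module.finrank ℤ G = 0 := by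
  apply Module.finrank_eq_zero_of_rank_eq_zero
  rw [rank_eq_zero_iff]
  intro x
  refine ⟨(Nat.card G : ℤ), ?_, ?_⟩
  · exact_mod_cast Nat.card_pos.ne'
  · rw [natCast_zsmul]
    exact card_nsmul_eq_zero'

lemma rkz_of {F : Type} [Field F] [NumberField F] {W : WeierstrassCurve F} (he : W.IsElliptic)
    (hf : Finite W.toAffine.Point) {L : ℂ → ℂ} (hL : Differentiable ℂ L)
    (hs : ∀ s : ℂ, 3 / 2 < s.re → L s = W.LSeries s) (h1 : L 1 ≠ 0) : RkZ W := by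
  refine ⟨he, hf, Set.univ, L, isOpen_univ, isConnected_univ, Set.subset_univ _, Set.mem_univ _,
    hL.differentiableOn.analyticOnNhd isOpen_univ, hs, ?_, ?_⟩
  · intro r hr
    rw [finrank_fin] at hr
    exact absurd hr (Nat.not_lt_zero r)
  · rw [finrank_fin, iteratedDeriv_zero]
    exact h1

variable {K : Type} [Field K] [NumberField K]

/-- `E_D(K)` is finite and the `2`-primary part of `Ш` is trivial -/
def FinT (D : 𝓞 K) : Prop :=
  Finite (Cv (D : K)).toAffine.Point ∧ ∀ (n : ℕ) (x : Sha (Cv (D : K))), 2 ^ n • x = 0 → x = 0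

/-- what is proved about one curve -/
def Facts (D : 𝓞 K) : Prop := EntL (Cv (D : K)) ∧ (FinT D → RkZ (Cv (D : K)))

lemma cv_ell {D : 𝓞 K} (hD : D ≠ 0) : (Cv (D : K)).IsElliptic := by
  refine ⟨isUnit_iff_ne_zero.2 ?_⟩
  have h1 : (Cv (D : K)).Δ = -64 * (D : K) ^ 3 := by
    simp only [Cv, WeierstrassCurve.Δ, WeierstrassCurve.b₂, WeierstrassCurve.b₄,
      WeierstrassCurve.b₆, WeierstrassCurve.b₈]
    ring
  have h2 : (D : K) ≠ 0 := by
    intro h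
    exact hD (by exact_mod_cast h)
  rw [h1]
  exact mul_ne_zero (by norm_num) (pow_ne_zero 3 h2)

lemma im1_pow (σ : ℕ) (Δ : ZI) : im1 ^ σ * Δ = cl σ 0 Δ := by
  unfold cl
  rw [pow_zero, one_mul]

lemma two_cl (Δ : ZI) : 2 * Δ = cl 3 2 Δ := by
  unfold cl
  rw [← mul_assoc]
  congr 1

theorem factsD (B : BD) (e : ZI ≃+* 𝓞 K) {σ : ℕ} (hσ : σ % 2 = 1) {Δ : ZI} (h : PS Δ) :
    Facts (e (cl σ 0 Δ)) ∧ (FinT (e (cl σ 0 Δ)) ↔ dD Δ = 1) := by
  have h0 : (cI e σ Δ) = Cv ((e (cl σ 0 Δ) : 𝓞 K) : K) := by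
    rw [← im1_pow]
    rfl
  have hne : e (cl σ 0 Δ) ≠ 0 := by
    rw [Ne, map_eq_zero_iff e e.injective, ← im1_pow]
    exact mul_ne_zero (unit_im σ).ne_zero h.ne
  have hT : FinT (e (cl σ 0 Δ)) ↔ dD Δ = 1 := by
    have h1 := trivD_iff B hσ e h
    unfold TrivD at h1
    rw [h0] at h1
    exact h1
  obtain ⟨L, hL, hs, hn⟩ := lfunD B hσ h
  have hs' := hs K e
  rw [h0] at hs'
  exact ⟨⟨⟨L, hL, hs'⟩, fun ht => rkz_of (cv_ell hne) ht.1 hL (fun s h3 => (hs' s h3).2)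
    (hn (hT.1 ht))⟩, hT⟩

theorem factsK (B : BK) (e : ZI ≃+* 𝓞 K) {Δ : ZI} (h : PS Δ) :
    Facts (e (cl 3 2 Δ)) ∧ (FinT (e (cl 3 2 Δ)) ↔ dD Δ = 1) := by
  have h0 : (cK e Δ) = Cv ((e (cl 3 2 Δ) : 𝓞 K) : K) := by
    rw [← two_cl]
    rfl
  have hne : e (cl 3 2 Δ) ≠ 0 := by
    rw [Ne, map_eq_zero_iff e e.injective, ← two_cl]
    exact mul_ne_zero two_ne_zero h.ne
  have hT : FinT (e (cl 3 2 Δ)) ↔ dD Δ = 1 := by
    have h1 := trivK_iff B e h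
    unfold TrivK at h1
    rw [h0] at h1
    exact h1
  refine ⟨⟨?_, fun ht => ?_⟩, hT⟩
  · obtain ⟨L, hL, hs, -⟩ := lfunK B h
    have hs' := hs K e
    rw [h0] at hs'
    exact ⟨L, hL, hs'⟩
  · obtain ⟨L, hL, hs, hn⟩ := nonvanK B h (hT.1 ht)
    have hs' := hs K e
    rw [h0] at hs'
    exact rkz_of (cv_ell hne) ht.1 hL (fun s h3 => (hs' s h3).2) hn

lemma img_ncard (e : ZI ≃+* 𝓞 K) (he : ∀ z, Algebra.norm ℤ (e z) = z.norm) (X : ℕ)
    (P : ZI → Prop) (Q : 𝓞 K → Prop) (h : ∀ D, Q (e D) ↔ P D) :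
    {D : 𝓞 K | Algebra.norm ℤ D ≤ X ∧ Q D}.ncard = {D : ZI | nrm D ≤ X ∧ P D}.ncard := by
  have h1 : {D : 𝓞 K | Algebra.norm ℤ D ≤ X ∧ Q D} = e '' {D : ZI | nrm D ≤ X ∧ P D} := by
    ext D
    constructor
    · rintro ⟨h2, h3⟩
      obtain ⟨D, rfl⟩ := e.surjective D
      refine ⟨D, ⟨?_, (h D).1 h3⟩, rfl⟩
      rw [he, ← nrm_eq] at h2
      exact_mod_cast h2
    · rintro ⟨D, ⟨h2, h3⟩, rfl⟩
      refine ⟨?_, (h D).2 h3⟩
      rw [he, ← nrm_eq]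
      exact_mod_cast h2
  rw [h1, Set.ncard_image_of_injective _ e.injective]

/-- `D = i` modulo `2` -/
def OddI (D : 𝓞 K) : Prop := ∃ i : 𝓞 K, i ^ 2 = -1 ∧ 2 ∣ D - i

/-- `D = 2 Δ`, `Δ` squarefree, `Δ = 1` modulo `2 + 2 i` -/
def TwP (D : 𝓞 K) : Prop :=
  ∃ Δ : 𝓞 K, Squarefree Δ ∧ (∃ i : 𝓞 K, i ^ 2 = -1 ∧ 2 + 2 * i ∣ Δ - 1) ∧ D = 2 * Δ

lemma sq_neg {u : ZI} (h : u ^ 2 = -1) : u = im1 ∨ u = -im1 := by
  have h1 : (u - im1) * (u + im1) = 0 := by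
    have h2 : (im1 : ZI) ^ 2 = -1 := by decide
    linear_combination h - h2
  rcases mul_eq_zero.1 h1 with h2 | h2
  · exact Or.inl (sub_eq_zero.1 h2)
  · exact Or.inr (eq_neg_of_add_eq_zero_left h2)

lemma two_dvd {z : ZI} : (2 : ZI) ∣ z ↔ z.re % 2 = 0 ∧ z.im % 2 = 0 := by
  constructor
  · rintro ⟨w, rfl⟩
    constructor <;> simp
  · rintro ⟨h1, h2⟩
    refine ⟨⟨z.re / 2, z.im / 2⟩, ?_⟩
    apply Zsqrtd.ext
    · simp
      omega
    · simp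
      omega

lemma sqf_e (e : ZI ≃+* 𝓞 K) (D : ZI) : Squarefree (e D) ↔ Squarefree D := by
  constructor
  · intro h x hx
    have h1 := h (e x) (by rw [← map_mul]; exact map_dvd e hx)
    have h2 := h1.map e.symm
    rwa [e.symm_apply_apply] at h2
  · intro h x hx
    obtain ⟨y, rfl⟩ := e.surjective x
    have h1 : y * y ∣ D := by
      have h2 := map_dvd e.symm hx
      rwa [← map_mul, e.symm_apply_apply, e.symm_apply_apply] at h2
    exact (h y h1).map e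

lemma oddI_iff (e : ZI ≃+* 𝓞 K) (D : ZI) : OddI (e D) ↔ D.re % 2 = 0 ∧ D.im % 2 = 1 := by
  constructor
  · rintro ⟨i, hi, h⟩
    obtain ⟨u, rfl⟩ := e.surjective i
    have hu : u ^ 2 = -1 := by
      apply e.injective
      rw [map_pow, hi, map_neg, map_one]
    have h1 : (2 : ZI) ∣ D - u := by
      have h2 := map_dvd e.symm h
      rwa [map_sub, e.symm_apply_apply, e.symm_apply_apply, map_ofNat] at h2
    rw [two_dvd] at h1
    rcases sq_neg hu with rfl | rfl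
    · simp [im1] at h1
      omega
    · simp [im1] at h1
      omega
  · rintro ⟨h1, h2⟩
    refine ⟨e im1, ?_, ?_⟩
    · rw [← map_pow, show (im1 : ZI) ^ 2 = -1 by decide, map_neg, map_one]
    · rw [← map_sub, ← map_ofNat e 2]
      refine map_dvd e (two_dvd.2 ?_)
      simp [im1]
      omega

lemma prim_dvd {z : ZI} : prim z ↔ (2 + 2 * im1 : ZI) ∣ z - 1 := by
  constructor
  · rintro ⟨h1, h2⟩
    refine ⟨⟨(z.re - 1 + z.im) / 4, (z.im - z.re + 1) / 4⟩, ?_⟩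
    apply Zsqrtd.ext
    · simp [im1]
      omega
    · simp [im1]
      omega
  · rintro ⟨w, hw⟩
    have h1 := congrArg Zsqrtd.re hw
    have h2 := congrArg Zsqrtd.im hw
    simp [im1] at h1 h2
    constructor
    · omega
    · omega

lemma prim_dvd' {z : ZI} : (2 + 2 * (-im1) : ZI) ∣ z - 1 ↔ (2 + 2 * im1 : ZI) ∣ z - 1 := by
  have h1 : (2 + 2 * (-im1) : ZI) = -im1 * (2 + 2 * im1) := by
    have h2 : (im1 : ZI) ^ 2 = -1 := by decide
    linear_combination (2 : ZI) * h2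
  rw [h1]
  exact ((IsUnit.of_mul_eq_one im1 (by decide) : IsUnit (-im1 : ZI)).mul_left_dvd)

lemma twP_iff (e : ZI ≃+* 𝓞 K) (D : ZI) : TwP (e D) ↔ ∃ Δ, PS Δ ∧ D = 2 * Δ := by
  constructor
  · rintro ⟨Δ, h1, ⟨i, hi, h2⟩, h3⟩
    obtain ⟨Δ, rfl⟩ := e.surjective Δ
    obtain ⟨u, rfl⟩ := e.surjective i
    have hu : u ^ 2 = -1 := by
      apply e.injective
      rw [map_pow, hi, map_neg, map_one]
    have h4 : (2 + 2 * u : ZI) ∣ Δ - 1 := by
      have h5 := map_dvd e.symm h2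
      rwa [map_sub, map_add, map_mul, e.symm_apply_apply, e.symm_apply_apply, map_ofNat,
        map_one] at h5
    refine ⟨Δ, ⟨?_, (sqf_e e Δ).1 h1⟩, ?_⟩
    · rcases sq_neg hu with rfl | rfl
      · exact prim_dvd.2 h4
      · exact prim_dvd.2 (prim_dvd'.1 h4)
    · apply e.injective
      rw [h3, map_mul, map_ofNat]
  · rintro ⟨Δ, hΔ, rfl⟩
    refine ⟨e Δ, (sqf_e e Δ).2 hΔ.sqf, ⟨e im1, ?_, ?_⟩, by rw [map_mul, map_ofNat]⟩
    · rw [← map_pow, show (im1 : ZI) ^ 2 = -1 by decide, map_neg, map_one]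
    · have h1 := map_dvd e (prim_dvd.1 hΔ.prm)
      rwa [map_sub, map_add, map_mul, map_ofNat, map_one] at h1

end Pool.Agent.D0H10.Q4
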