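import Pool.Agent.D0H10.Q4.Tor
import Pool.Agent.D0H10.Q4.Eul
import Pool.Agent.Y698.Re

/-!
Project Q4: assembly over `ℚ`.
-/

set_option autoImplicit false

open NumberField IsDedekindDomain WeierstrassCurve

namespace Pool.Agent.D0H10.Q4

open H385 (ZI RQ im1 nrm)
open Pool.Agent.H304R3.HK (tc HC LH)
open Pool.Agent.TH841.NF.D (Sha)

/-- the inputs -/
structure BQ : Prop where
  sup : S_SUP
  hec : S_HEC
  val : S_QVAL
  ls : S_QLS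
  sel : S_QSEL
  conv : S_QCONV
  tam : S_QTAM
  cri : S_CRI

lemma exists_val2 (h : ∀ (Γ : Type) [LinearOrderedCommGroupWithZero Γ] (v : Valuation ℂ Γ),
    ¬ v 2 < 1) : False := by
  obtain ⟨m, hm, hi⟩ := Pool.Agent.Y698.int_of_val (x := 1 / 2) fun Γ _ v hv => absurd hv (h Γ v)
  have e : (m : ℂ) * (1 / 2) = algebraMap ℚ ℂ ((m : ℚ) / 2) := by
    rw [map_div₀, map_intCast, map_ofNat]
    ring
  rw [e, isIntegral_algebraMap_iff (algebraMap ℚ ℂ).injective] at hi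
  obtain ⟨y, hy⟩ := (IsIntegrallyClosed.isIntegral_iff (R := ℤ) (K := ℚ)).1 hi
  have h1 : (m : ℚ) = ((2 * y : ℤ) : ℚ) := by
    have h2 : (y : ℚ) = (m : ℚ) / 2 := hy
    push_cast
    rw [h2]
    ring
  have h3 : m = 2 * y := by exact_mod_cast h1
  obtain ⟨k, hk⟩ := hm
  omega

/-- a unit at two -/
lemma unit_of_val {x : ℂ} (h : ∀ (Γ : Type) [LinearOrderedCommGroupWithZero Γ] (v : Valuation ℂ Γ),
    v 2 < 1 → v x = 1) : ∃ m : ℤ, Odd m ∧ _root_.IsIntegral ℤ (m * x) ∧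
      _root_.IsIntegral ℤ (m * x⁻¹) := by
  obtain ⟨m₁, hm₁, i₁⟩ := Pool.Agent.Y698.int_of_val (x := x) fun Γ _ v hv => (h Γ v hv).le
  obtain ⟨m₂, hm₂, i₂⟩ := Pool.Agent.Y698.int_of_val (x := x⁻¹) fun Γ _ v hv => by
    rw [map_inv₀, h Γ v hv, inv_one]
  refine ⟨m₁ * m₂, hm₁.mul hm₂, ?_, ?_⟩
  · have e : ((m₁ * m₂ : ℤ) : ℂ) * x = (m₂ : ℂ) * ((m₁ : ℂ) * x) := by
      push_cast; ring
    rw [e]
    exact IsIntegral.mul (isIntegral_algebraMap (R := ℤ) (A := ℂ) (x := m₂)) i₁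
  · have e : ((m₁ * m₂ : ℤ) : ℂ) * x⁻¹ = (m₁ : ℂ) * ((m₂ : ℂ) * x⁻¹) := by
      push_cast; ring
    rw [e]
    exact IsIntegral.mul (isIntegral_algebraMap (R := ℤ) (A := ℂ) (x := m₁)) i₂

/-- the predicted order of Sha with the Tamagawa product and the torsion put in -/
noncomputable def zQ (m : ℕ) (l : ℂ) : ℂ :=
  l * 4 / (((OmQ m : ℝ) : ℂ) * 2 ^ (m.primeFactors.card + 1))

open Classical in
/-- the L-function -/
theorem lfunQ (B : BQ) {m : ℕ} (h : Adm m) : ∃ Λ : ℂ → ℂ, Differentiable ℂ Λ ∧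
    (∀ s : ℂ, (3 : ℝ) / 2 < s.re →
      HasProd (fun p : ℕ =>
        if p.Prime ∧ ¬ ((p : ℤ) ∣ 2 * (-4 * (2 * (m : ℤ)) ^ 3 - 27 * 0 ^ 2)) then
          (1 - ((p : ℂ) - (Nat.card {q : ZMod p × ZMod p //
            q.2 ^ 2 = q.1 ^ 3 + ((2 * (m : ℤ) : ℤ) : ZMod p) * q.1 + ((0 : ℤ) : ZMod p)} : ℂ))
            * (p : ℂ) ^ (-s) + (p : ℂ) ^ (1 - 2 * s))⁻¹
        else 1) (Λ s)) ∧
    (∀ s : ℂ, 2 < s.re → LSeriesSummable ((fun n : ℤ => (n : ℂ)) ∘ (cQ m).LFunction) s ∧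
      Λ s = (cQ m).LSeries s) ∧
    ∀ (Γ : Type) [LinearOrderedCommGroupWithZero Γ] (v : Valuation ℂ Γ), v 2 < 1 →
      v (zQ m (Λ 1)) ≤ 1 ∧ (v (zQ m (Λ 1)) = 1 ↔ (matQ m).det ≠ 0) := by
  obtain ⟨hps, hcard, hcri⟩ := B.cri m h
  have hp := Pool.Agent.Y699.fam_PF hps.ne
  obtain ⟨X, hX1, hX2, -⟩ := B.hec _ (Pool.Agent.Y699.fam (m : ZI)) hp Finset.univ
    Pool.Agent.Y699.on1 (fun i _ => by
      show 1 % 4 ≠ 0
      norm_num)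
  have hDD : Pool.Agent.Y699.DD (Pool.Agent.Y699.fam (m : ZI)) Finset.univ = (m : ZI) := hps.DD
  rw [hDD] at hX1
  refine ⟨fun s => LH X (s - 1 / 2), ?_, fun s hs => Eul.euler B.sup h hX1 hX2 s hs,
    fun s hs => B.ls m h X hX1 hX2 s hs, fun Γ _ v hv => ?_⟩
  · obtain ⟨A, hA, hgood⟩ := Pool.Agent.H304R3.HK.goodH
    exact (hgood _ _ hX1).1.comp (differentiable_id.sub_const _)
  · have h1 := B.val m h X hX1 hX2 Γ v hv
    have e : (1 : ℂ) - 1 / 2 = 1 / 2 := by norm_num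
    unfold zQ
    simp only [e]
    rw [← hcri]
    exact h1

open Classical in
/-- The order of the torsion subgroup of `W(K)`. -/
noncomputable def torsOrder {K : Type} [Field K] (W : WeierstrassCurve K) : ℕ :=
  Nat.card (AddCommGroup.torsion W.toAffine.Point)

/-- The product of the Tamagawa numbers. -/
noncomputable def TamQ (W : WeierstrassCurve ℚ) : ℕ :=
  ∏ᶠ v : HeightOneSpectrum (𝓞 ℚ), (nonsing W v).index

/-- the predicted order of Sha -/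
noncomputable def anQ (m : ℕ) (l : ℂ) : ℂ :=
  l * (torsOrder (cQ m) : ℂ) ^ 2 / ((OmQ m : ℝ) * (TamQ (cQ m) : ℂ))

lemma adm_odd {m : ℕ} (h : Adm m) : m % 2 = 1 := by
  have := Pool.Agent.D0H69.Q4.Adm.mod h
  omega

open Classical in
lemma torsQ {m : ℕ} (h : Adm m) : torsOrder (cQ m) = 2 := by
  unfold torsOrder
  exact @Tor.torQ (fun a b => Classical.propDecidable (a = b)) m (adm_odd h)

lemma anQ_eq (B : BQ) {m : ℕ} (h : Adm m) (l : ℂ) : anQ m l = zQ m l := by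
  have h1 : torsOrder (cQ m) = 2 := torsQ h
  have h2 : TamQ (cQ m) = 2 ^ (m.primeFactors.card + 1) := (B.tam m h).2
  unfold anQ zQ
  rw [h1, h2]
  push_cast
  norm_num

/-- trivial 2-part -/
def Triv2 (m : ℕ) : Prop :=
  Finite (cQ m).toAffine.Point ∧ ∀ (n : ℕ) (x : Sha (cQ m)), 2 ^ n • x = 0 → x = 0

theorem sel2_iff (B : BQ) {m : ℕ} (h : Adm m) :
    (Finite (cQ m).toAffine.Point ∧ ∀ x : Sha (cQ m), x + x = 0 → x = 0) ↔ (matQ m).det ≠ 0 := by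
  constructor
  · rintro ⟨hf, hs⟩ h0
    obtain ⟨x, hx, hx0⟩ := B.conv m h h0 hf
    exact hx0 (hs x (by rw [← two_nsmul]; exact hx))
  · intro hd
    obtain ⟨h1, h2⟩ := B.sel m h hd
    refine ⟨Nat.finite_of_card_ne_zero (by rw [h1]; norm_num), fun x hx => h2 1 x ?_⟩
    rw [pow_one, two_nsmul]
    exact hx

theorem triv2_iff (B : BQ) {m : ℕ} (h : Adm m) : Triv2 m ↔ (matQ m).det ≠ 0 := by
  constructor
  · rintro ⟨hf, hs⟩
    exact (sel2_iff B h).1 ⟨hf, fun x hx => hs 1 x (by rw [pow_one, two_nsmul]; exact hx)⟩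
  · intro hd
    exact ⟨((sel2_iff B h).2 hd).1, (B.sel m h hd).2⟩

/-- the 2-part of the conjecture -/
theorem coreQ (B : BQ) {m : ℕ} (h : Adm m) : ∃ Λ : ℂ → ℂ, Differentiable ℂ Λ ∧
    (∀ s : ℂ, 2 < s.re → LSeriesSummable ((fun n : ℤ => (n : ℂ)) ∘ (cQ m).LFunction) s ∧
      Λ s = (cQ m).LSeries s) ∧
    (∃ n : ℤ, Odd n ∧ _root_.IsIntegral ℤ (n * anQ m (Λ 1))) ∧
    (∀ (Γ : Type) [LinearOrderedCommGroupWithZero Γ] (v : Valuation ℂ Γ), v 2 < 1 →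
      v (anQ m (Λ 1)) ≤ 1 ∧ (v (anQ m (Λ 1)) = 1 ↔ (matQ m).det ≠ 0)) ∧
    ((matQ m).det ≠ 0 → Λ 1 ≠ 0 ∧ ∃ n : ℤ, Odd n ∧ _root_.IsIntegral ℤ (n * anQ m (Λ 1)) ∧
        _root_.IsIntegral ℤ (n * (anQ m (Λ 1))⁻¹)) := by
  obtain ⟨Λ, h1, -, h2, h3⟩ := lfunQ B h
  have h4 : ∀ (Γ : Type) [LinearOrderedCommGroupWithZero Γ] (v : Valuation ℂ Γ), v 2 < 1 →
      v (anQ m (Λ 1)) ≤ 1 ∧ (v (anQ m (Λ 1)) = 1 ↔ (matQ m).det ≠ 0) := by
    rw [anQ_eq B h]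
    exact h3
  refine ⟨Λ, h1, h2, Pool.Agent.Y698.int_of_val fun Γ _ v hv => (h4 Γ v hv).1, h4, fun hd => ?_⟩
  have h5 : ∀ (Γ : Type) [LinearOrderedCommGroupWithZero Γ] (v : Valuation ℂ Γ), v 2 < 1 →
      v (anQ m (Λ 1)) = 1 := fun Γ _ v hv => (h4 Γ v hv).2.2 hd
  refine ⟨fun h0 => exists_val2 fun Γ _ v hv => ?_, unit_of_val h5⟩
  have h6 := h5 Γ v hv
  unfold anQ at h6
  rw [h0, zero_mul, zero_div, map_zero] at h6
  exact zero_ne_one h6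

open Classical in
/-- the rank form -/
theorem rankQ (B : BQ) {m : ℕ} (h : Adm m) (hd : (matQ m).det ≠ 0) :
    ∃ F : ℂ → ℂ, Differentiable ℂ F ∧
      (∀ s : ℂ, (3 : ℝ) / 2 < s.re →
      HasProd (fun p : ℕ =>
        if p.Prime ∧ ¬ ((p : ℤ) ∣ 2 * (-4 * (2 * (m : ℤ)) ^ 3 - 27 * 0 ^ 2)) then
          (1 - ((p : ℂ) - (Nat.card {q : ZMod p × ZMod p //
            q.2 ^ 2 = q.1 ^ 3 + ((2 * (m : ℤ) : ℤ) : ZMod p) * q.1 + ((0 : ℤ) : ZMod p)} : ℂ))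
            * (p : ℂ) ^ (-s) + (p : ℂ) ^ (1 - 2 * s))⁻¹
        else 1) (F s)) ∧ F 1 ≠ 0 := by
  obtain ⟨Λ, h1, h2, -, h3⟩ := lfunQ B h
  refine ⟨Λ, h1, h2, fun h0 => exists_val2 fun Γ _ v hv => ?_⟩
  have h6 := (h3 Γ v hv).2.2 hd
  unfold zQ at h6
  rw [h0, zero_mul, zero_div, map_zero] at h6
  exact zero_ne_one h6

end Pool.Agent.D0H10.Q4
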