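import Pool.Agent.D0H10.Q4.Tor
import Pool.Agent.D0H10.Q4.FinQ
import Pool.Agent.Y715.Z.Per

/-!
Project Q4: assembly over `ℚ(i)`.
-/

set_option autoImplicit false

open NumberField IsDedekindDomain WeierstrassCurve

namespace Pool.Agent.D0H10.Q4

open H385 (ZI RQ im1 nrm)
open Pool.Agent.H304R3.HK (tc HC LH)
open Pool.Agent.TH841.NF.D (Sha)
open Pool.Agent.Y699 (PS fam on1 LG LG_diff)

/-- the inputs -/
structure BK : Prop where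
  hec : S_HEC
  val : S_KVAL
  ls : S_KLS
  sel : S_KSEL
  conv : S_KCONV

lemma dD_cases (Δ : ZI) : dD Δ = 0 ∨ dD Δ = 1 := by
  generalize dD Δ = a
  fin_cases a
  · exact Or.inl rfl
  · exact Or.inr rfl

theorem selK_iff (B : BK) {K : Type} [Field K] [NumberField K] (e : ZI ≃+* 𝓞 K) {Δ : ZI}
    (h : PS Δ) :
    (Finite (cK e Δ).toAffine.Point ∧ ∀ x : Sha (cK e Δ), x + x = 0 → x = 0) ↔ dD Δ = 1 := by
  constructor
  · rintro ⟨hf, hs⟩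
    rcases dD_cases Δ with h0 | h0
    · obtain ⟨x, hx, hx0⟩ := B.conv K e Δ h h0 hf
      exact absurd (hs x (by rw [← two_nsmul]; exact hx)) hx0
    · exact h0
  · intro hd
    obtain ⟨h1, h2⟩ := B.sel K e Δ h hd
    refine ⟨Nat.finite_of_card_ne_zero (by rw [h1]; norm_num), fun x hx => h2 1 x ?_⟩
    rw [pow_one, two_nsmul]
    exact hx

/-- trivial 2-part -/
def TrivK {K : Type} [Field K] [NumberField K] (e : ZI ≃+* 𝓞 K) (Δ : ZI) : Prop :=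
  Finite (cK e Δ).toAffine.Point ∧ ∀ (n : ℕ) (x : Sha (cK e Δ)), 2 ^ n • x = 0 → x = 0

theorem trivK_iff (B : BK) {K : Type} [Field K] [NumberField K] (e : ZI ≃+* 𝓞 K) {Δ : ZI}
    (h : PS Δ) : TrivK e Δ ↔ dD Δ = 1 := by
  constructor
  · rintro ⟨hf, hs⟩
    exact (selK_iff B e h).1 ⟨hf, fun x hx => hs 1 x (by rw [pow_one, two_nsmul]; exact hx)⟩
  · intro hd
    exact ⟨((selK_iff B e h).2 hd).1, (B.sel K e Δ h hd).2⟩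

/-- the L-function -/
theorem lfunK (B : BK) {Δ : ZI} (h : PS Δ) : ∃ Λ : ℂ → ℂ, Differentiable ℂ Λ ∧
    (∀ (K : Type) [Field K] [NumberField K] (e : ZI ≃+* 𝓞 K) (s : ℂ), 3 / 2 < s.re →
      LSeriesSummable ((fun n : ℤ => (n : ℂ)) ∘ (cK e Δ).LFunction) s ∧
        Λ s = (cK e Δ).LSeries s) ∧
    (∀ (δ : ℂ), ‖δ‖ = ‖tc (2 * Δ)‖ → ∀ P : PeriodPair, P.g₂ = -4 * δ → P.g₃ = 0 →
      ∀ (Γ : Type) [LinearOrderedCommGroupWithZero Γ] (v : Valuation ℂ Γ), v 2 < 1 →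
      v (Λ 1 * 2 * 4 / (((2 * |((starRingEnd ℂ) P.ω₁ * P.ω₂).im| : ℝ) : ℂ) *
        2 ^ ((Pool.Agent.Y699.PD Δ).card + 1))) ≤ 1 ∧
      (v (Λ 1 * 2 * 4 / (((2 * |((starRingEnd ℂ) P.ω₁ * P.ω₂).im| : ℝ) : ℂ) *
        2 ^ ((Pool.Agent.Y699.PD Δ).card + 1))) = 1 ↔ dD Δ = 1)) := by
  have hp := Pool.Agent.Y699.fam_PF h.ne
  obtain ⟨X, hX1, hX2, -⟩ := B.hec _ (fam Δ) hp Finset.univ on1 (fun i _ => by
      show 1 % 4 ≠ 0
      norm_num)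
  rw [h.DD] at hX1
  exact ⟨LG X, LG_diff hX1, fun K _ _ e s hs => B.ls K e Δ h X hX1 hX2 s hs,
    fun δ hδ P hP1 hP2 Γ _ v hv => B.val Δ h X hX1 hX2 δ hδ P hP1 hP2 Γ v hv⟩

/-- the value at `1` is not zero -/
theorem nonvanK (B : BK) {Δ : ZI} (h : PS Δ) (hd : dD Δ = 1) : ∃ Λ : ℂ → ℂ, Differentiable ℂ Λ ∧
    (∀ (K : Type) [Field K] [NumberField K] (e : ZI ≃+* 𝓞 K) (s : ℂ), 3 / 2 < s.re →
      LSeriesSummable ((fun n : ℤ => (n : ℂ)) ∘ (cK e Δ).LFunction) s ∧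
        Λ s = (cK e Δ).LSeries s) ∧ Λ 1 ≠ 0 := by
  obtain ⟨Λ, h1, h2, h3⟩ := lfunK B h
  refine ⟨Λ, h1, h2, fun h0 => exists_val2 fun Γ _ v hv => ?_⟩
  have hδ0 : tc (2 * Δ) ≠ 0 := Pool.Agent.H304R3.HK.tc_ne_zero (mul_ne_zero two_ne_zero h.ne)
  obtain ⟨P, hP1, hP2⟩ := Pool.Agent.Y715.Z.per_ex hδ0
  have h4 := (h3 (tc (2 * Δ)) rfl P hP1 hP2 Γ v hv).2.2 hd
  rw [h0, zero_mul, zero_mul, zero_div, map_zero] at h4
  exact zero_ne_one h4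

end Pool.Agent.D0H10.Q4
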