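import Mathlib

/-!
`∏ (1 - 2 ^ (- (2 i + 1))) ≥ 0.4194`.
-/

set_option autoImplicit false

open Filter
open scoped Topology

namespace Pool.Agent.D0H10.Q4.Num

lemma part (n : ℕ) : (0.4194 : ℝ) + 0.3 * (1 / 4 : ℝ) ^ (n + 6) ≤
    ∏ i ∈ Finset.range (n + 6), (1 - (1 / 2 : ℝ) ^ (2 * i + 1)) := by
  induction n with
  | zero =>
    simp only [zero_add, Finset.prod_range_succ, Finset.prod_range_zero]
    norm_num
  | succ n ih =>
    rw [show n + 1 + 6 = (n + 6) + 1 by ring, Finset.prod_range_succ]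
    have h1 : (1 / 2 : ℝ) ^ (2 * (n + 6) + 1) = (1 / 4 : ℝ) ^ (n + 6) / 2 := by
      rw [pow_succ, pow_mul]
      norm_num
      ring
    rw [h1]
    set q : ℝ := (1 / 4 : ℝ) ^ (n + 6) with hq
    have hq0 : 0 < q := by positivity
    have hq1 : q ≤ 1 / 4096 := by
      have h2 : q ≤ (1 / 4 : ℝ) ^ 6 := pow_le_pow_of_le_one (by norm_num) (by norm_num) (by omega)
      norm_num at h2
      linarith
    have h3 : (1 / 4 : ℝ) ^ (n + 6 + 1) = q / 4 := by
      rw [pow_succ, ← hq]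
      ring
    rw [h3]
    refine le_trans ?_ (mul_le_mul_of_nonneg_right ih (by linarith))
    nlinarith

lemma mult : Multipliable fun i : ℕ => (1 - (1 / 2 : ℝ) ^ (2 * i + 1)) := by
  have h1 : Summable fun i : ℕ => -((1 / 2 : ℝ) ^ (2 * i + 1)) := by
    refine Summable.neg ?_
    have h2 : Summable fun i : ℕ => (1 / 2 : ℝ) * (1 / 4 : ℝ) ^ i :=
      (summable_geometric_of_lt_one (by norm_num) (by norm_num)).mul_left _
    refine h2.congr fun i => ?_
    rw [pow_succ, pow_mul]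
    norm_num
    ring
  have h3 := Real.multipliable_one_add_of_summable h1
  refine h3.congr fun i => ?_
  ring

theorem c2_ge : (0.4194 : ℝ) ≤ ∏' i : ℕ, (1 - (1 / 2 : ℝ) ^ (2 * i + 1)) := by
  have h1 := mult.hasProd.tendsto_prod_nat
  refine ge_of_tendsto h1 ?_
  filter_upwards [eventually_ge_atTop 6] with n hn
  obtain ⟨k, rfl⟩ := Nat.exists_eq_add_of_le' hn
  have h2 := part k
  have h3 : (0 : ℝ) < (1 / 4 : ℝ) ^ (k + 6) := by positivity
  linarith

end Pool.Agent.D0H10.Q4.Num
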