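import Pool.Agent.D0H10.Q4.StmC
import Pool.Agent.D0H10.Q4.Nl

/-!
Project Q4: the real period.
-/

set_option autoImplicit false
set_option linter.unusedSectionVars false

open Filter Complex MeasureTheory
open scoped Topology PeriodPair
open Pool.Agent.TH936.CM Pool.Agent.W192.HK H667R3

namespace Pool.Agent.D0H10.Q4

open H385 (ZI RQ im1 nrm)
open Pool.Agent.H304R3.HK (tc HC LH)
open Pool.Agent.Y699
open Pool.Agent.W164.RC (tc_mul tc_star)

variable {L : PeriodPair} {Ω s : ℂ}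

/-- the lattice sum for the Gaussian integers -/
noncomputable def SZ (z : ℂ) : ℂ := ∑' a : ZI, (1 / (z - tc a) ^ 2 - 1 / (tc a) ^ 2)

/-- the lattice as the Gaussian integers -/
noncomputable def laE (h : IsLat L RG Ω) : ZI ≃ L.lattice :=
  Equiv.ofBijective (fun a => ⟨Ω * tc a, (mem_lat h).2 ⟨a, rfl⟩⟩) ⟨by
    intro a b hab
    have h1 : Ω * tc a = Ω * tc b := congrArg Subtype.val hab
    exact tc_inj (mul_left_cancel₀ h.ne h1), by
    intro l
    obtain ⟨a, ha⟩ := (mem_lat h).1 l.2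
    exact ⟨a, Subtype.ext ha.symm⟩⟩

lemma wp_SZ (h : IsLat L RG Ω) (z : ℂ) : ℘[L] (Ω * z) = (Ω ^ 2)⁻¹ * SZ z := by
  unfold PeriodPair.weierstrassP SZ
  rw [← (laE h).tsum_eq, ← tsum_mul_left]
  refine tsum_congr fun r => ?_
  show 1 / (Ω * z - Ω * tc r) ^ 2 - 1 / (Ω * tc r) ^ 2 = _
  have h1 : Ω * z - Ω * tc r = Ω * (z - tc r) := by ring
  rw [h1, mul_pow, mul_pow, mul_sub, one_div, one_div, one_div, one_div, mul_inv, mul_inv]

/-- complex conjugation on the Gaussian integers -/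
noncomputable def stE : ZI ≃ ZI where
  toFun := star
  invFun := star
  left_inv := star_star
  right_inv := star_star

lemma SZ_conj (z : ℂ) : SZ ((starRingEnd ℂ) z) = (starRingEnd ℂ) (SZ z) := by
  unfold SZ
  rw [Complex.conj_tsum, ← stE.tsum_eq]
  refine tsum_congr fun r => ?_
  have h : tc (stE r) = (starRingEnd ℂ) (tc r) := tc_star r
  rw [h]
  simp only [map_sub, map_div₀, map_one, map_pow]

lemma NL.sq_real (h : NL L Ω s) : (starRingEnd ℂ) (Ω ^ 2) = Ω ^ 2 := by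
  have hΩ := h.gl.lat.ne
  have h1 := h.e1
  have e : Ω / 2 = Ω * (1 / 2) := by ring
  rw [e, wp_SZ h.gl.lat] at h1
  have h2 : SZ (1 / 2) = Ω ^ 2 := by
    field_simp at h1
    exact h1
  have h3 := SZ_conj (1 / 2)
  have h4 : (starRingEnd ℂ) (1 / 2) = 1 / 2 := by
    rw [map_div₀, map_one, Complex.conj_ofNat]
  rw [h4, h2] at h3
  exact h3.symm

lemma NL.s_real (h : NL L Ω s) : (starRingEnd ℂ) s = s := by
  have hΩ := h.gl.lat.ne
  have h1 := h.x4
  have e : Ω / 4 = Ω * (1 / 4) := by ring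
  rw [e, wp_SZ h.gl.lat] at h1
  have h2 : SZ (1 / 4) = Ω ^ 2 * (1 + s) := by
    field_simp at h1
    linear_combination h1
  have h3 := SZ_conj (1 / 4)
  have h4 : (starRingEnd ℂ) (1 / 4) = 1 / 4 := by
    rw [map_div₀, map_one, Complex.conj_ofNat]
  rw [h4, h2, map_mul, h.sq_real, map_add, map_one] at h3
  have h5 := mul_left_cancel₀ (pow_ne_zero 2 hΩ) h3
  linear_combination -h5

/-- `Ω` is real or purely imaginary -/
lemma NL.om_cases (h : NL L Ω s) : (starRingEnd ℂ) Ω = Ω ∨ (starRingEnd ℂ) Ω = -Ω := by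
  have h1 := h.sq_real
  rw [map_pow] at h1
  exact sq_eq_sq_iff_eq_or_eq_neg.1 h1

/-- the eighth root of unity -/
noncomputable def zt : ℂ := (1 + I) / (Real.sqrt 2 : ℝ)

lemma sq2 : ((Real.sqrt 2 : ℝ) : ℂ) ^ 2 = 2 := by
  rw [← Complex.ofReal_pow, Real.sq_sqrt (by norm_num)]
  norm_num

lemma sq2_ne : ((Real.sqrt 2 : ℝ) : ℂ) ≠ 0 := by
  intro h0
  have := sq2
  rw [h0] at this
  norm_num at this

lemma zt_sq : zt ^ 2 = I := by
  unfold zt
  rw [div_pow, sq2]
  linear_combination (1 / 2) * I_sq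

lemma zt_ne : zt ≠ 0 := by
  intro h
  have := zt_sq
  rw [h] at this
  exact I_ne_zero (by rw [← this]; norm_num)

lemma zt_conj : (starRingEnd ℂ) zt = -I * zt := by
  unfold zt
  rw [map_div₀, map_add, map_one, Complex.conj_I, Complex.conj_ofReal]
  have := sq2_ne
  field_simp
  linear_combination I_sq

/-- the lattice of `y² = 4 x³ + 4 x` -/
noncomputable def LP (h : NL L Ω s) : PeriodPair := mkL I (zt * Ω) I_ne (mul_ne_zero zt_ne h.gl.lat.ne)

lemma LP_lat (h : NL L Ω s) : IsLat (LP h) RG (zt * Ω) := mkL_isLat' _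

lemma LP_g2 (h : NL L Ω s) : (LP h).g₂ = -4 := by
  have hΩ := h.gl.lat.ne
  have hg : (mkL I Ω I_ne hΩ).g₂ = 4 := by
    rw [← h.gl.g2]
    apply Pool.Agent.Y715.Z.g2_congr
    apply SetLike.ext
    intro z
    rw [mem_lat (mkL_isLat' hΩ), mem_lat h.gl.lat]
  unfold LP
  unfold PeriodPair.g₂ at hg ⊢
  rw [G_eq I_ne _ (k := 4) (by norm_num)] at hg ⊢
  have e2 : zt ^ 4 = -1 := by
    have : zt ^ 4 = (zt ^ 2) ^ 2 := by ring
    rw [this, zt_sq, I_sq]
  have e1 : ((zt * Ω) ^ 4)⁻¹ = -(Ω ^ 4)⁻¹ := by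
    rw [mul_pow, mul_inv, e2]
    norm_num
  rw [e1]
  linear_combination -hg

lemma LP_g3 (h : NL L Ω s) : (LP h).g₃ = 0 := by
  unfold PeriodPair.g₃
  rw [G6 (LP_lat h), mul_zero]

/-- the differential equation -/
lemma LP_eqn (h : NL L Ω s) {z : ℂ} (hz : z ∉ (LP h).lattice) :
    ℘'[LP h] z ^ 2 = 4 * ℘[LP h] z ^ 3 + 4 * ℘[LP h] z := by
  rw [(LP h).derivWeierstrassP_sq z hz, LP_g2, LP_g3]
  ring

lemma LP_conj_gen (h : NL L Ω s) : (starRingEnd ℂ) (zt * Ω) = -I * (zt * Ω) ∨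
    (starRingEnd ℂ) (zt * Ω) = I * (zt * Ω) := by
  rw [map_mul, zt_conj]
  rcases h.om_cases with h1 | h1 <;> rw [h1]
  · left; ring
  · right; ring

lemma LP_conj (h : NL L Ω s) {z : ℂ} (hz : z ∈ (LP h).lattice) : (starRingEnd ℂ) z ∈ (LP h).lattice := by
  obtain ⟨r, rfl⟩ := (mem_lat (LP_lat h)).1 hz
  rw [map_mul, ← tc_star]
  rcases LP_conj_gen h with h1 | h1 <;> rw [h1]
  · refine (mem_lat (LP_lat h)).2 ⟨-im1 * star r, ?_⟩
    rw [tc_mul, tc_neg, tc_im1]; ring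
  · refine (mem_lat (LP_lat h)).2 ⟨im1 * star r, ?_⟩
    rw [tc_mul, tc_im1]; ring

lemma LP_conj_iff (h : NL L Ω s) {z : ℂ} : (starRingEnd ℂ) z ∈ (LP h).lattice ↔ z ∈ (LP h).lattice := by
  refine ⟨fun h1 => ?_, LP_conj h⟩
  have := LP_conj h h1
  rwa [Complex.conj_conj] at this

lemma LP_wp_conj (h : NL L Ω s) (z : ℂ) :
    ℘[LP h] ((starRingEnd ℂ) z) = (starRingEnd ℂ) (℘[LP h] z) := by
  have hΩ : zt * Ω ≠ 0 := (LP_lat h).ne
  have e : z = (zt * Ω) * (z / (zt * Ω)) := by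
    rw [← mul_div_assoc, mul_comm, mul_div_assoc, div_self hΩ, mul_one]
  have hsq : (starRingEnd ℂ) ((zt * Ω) ^ 2) = -(zt * Ω) ^ 2 := by
    rw [mul_pow, zt_sq, map_mul, h.sq_real, Complex.conj_I]
    ring
  have h1 : ℘[LP h] ((zt * Ω) * (starRingEnd ℂ) (z / (zt * Ω))) = -(starRingEnd ℂ) (℘[LP h] z) := by
    conv_rhs => rw [e]
    rw [wp_SZ (LP_lat h), wp_SZ (LP_lat h), SZ_conj, map_mul, map_inv₀, hsq, inv_neg]
    ring
  have h2 : (starRingEnd ℂ) z = (starRingEnd ℂ) (zt * Ω) * (starRingEnd ℂ) (z / (zt * Ω)) := by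
    conv_lhs => rw [e]
    rw [map_mul]
  rcases LP_conj_gen h with h3 | h3
  · rw [h2, h3]
    have e2 : -I * (zt * Ω) * (starRingEnd ℂ) (z / (zt * Ω)) =
        -(I * ((zt * Ω) * (starRingEnd ℂ) (z / (zt * Ω)))) := by ring
    rw [e2, (LP h).weierstrassP_neg, wp_I (LP_lat h), h1, neg_neg]
  · rw [h2, h3]
    have e2 : I * (zt * Ω) * (starRingEnd ℂ) (z / (zt * Ω)) =
        I * ((zt * Ω) * (starRingEnd ℂ) (z / (zt * Ω))) := by ring
    rw [e2, wp_I (LP_lat h), h1, neg_neg]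

lemma LP_dwp_conj (h : NL L Ω s) {z : ℂ} (hz : z ∉ (LP h).lattice) :
    ℘'[LP h] ((starRingEnd ℂ) z) = (starRingEnd ℂ) (℘'[LP h] z) := by
  have hz' : (starRingEnd ℂ) z ∉ (LP h).lattice := fun h1 => hz ((LP_conj_iff h).1 h1)
  have h1 := (hasDerivAt_weierstrassP (LP h) hz).conj_conj
  have h2 : (starRingEnd ℂ) ∘ ℘[LP h] ∘ (starRingEnd ℂ) = ℘[LP h] := by
    funext w
    simp only [Function.comp_apply, LP_wp_conj h, Complex.conj_conj]
  rw [h2] at h1
  exact (hasDerivAt_weierstrassP (LP h) hz').unique h1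

/-- the least positive real period -/
structure RPr (L : PeriodPair) (ω : ℝ) : Prop where
  pos : 0 < ω
  mem : ∀ t : ℝ, (t : ℂ) ∈ L.lattice ↔ ∃ k : ℤ, t = k * ω
  conn : ∀ z : ℂ, z - (starRingEnd ℂ) z ∈ L.lattice →
    ∃ l ∈ L.lattice, (starRingEnd ℂ) (z - l) = z - l

lemma NL.unit (h : NL L Ω s) : ∃ u : ZI, u.norm = 1 ∧ Ω = tc u * (‖Ω‖ : ℝ) := by
  rcases h.om_cases with h1 | h1
  · obtain ⟨a, ha⟩ := Complex.conj_eq_iff_real.1 h1
    rcases le_total 0 a with h2 | h2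
    · exact ⟨1, by decide, by rw [tc_one, ha, Complex.norm_real, Real.norm_of_nonneg h2, one_mul]⟩
    · refine ⟨-1, by decide, ?_⟩
      rw [tc_neg, tc_one, ha, Complex.norm_real, Real.norm_of_nonpos h2]
      push_cast; ring
  · have h3 : (starRingEnd ℂ) (I * Ω) = I * Ω := by
      rw [map_mul, Complex.conj_I, h1]; ring
    obtain ⟨a, ha⟩ := Complex.conj_eq_iff_real.1 h3
    have h4 : Ω = -I * a := by
      rw [← ha]; linear_combination Ω * I_sq
    have h5 : ‖Ω‖ = ‖a‖ := by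
      rw [h4, norm_mul, norm_neg, Complex.norm_I, one_mul, Complex.norm_real]
    rcases le_total 0 a with h2 | h2
    · refine ⟨-im1, by decide, ?_⟩
      rw [h5, Real.norm_of_nonneg h2, tc_neg, tc_im1]; exact h4
    · refine ⟨im1, by decide, ?_⟩
      rw [h5, Real.norm_of_nonpos h2, tc_im1, h4]; push_cast; ring

lemma LP_mem (h : NL L Ω s) {z : ℂ} : z ∈ (LP h).lattice ↔ ∃ a : ZI, z = zt * (‖Ω‖ : ℝ) * tc a := by
  obtain ⟨u, hu, hΩ⟩ := h.unit
  have huu : tc (star u) * tc u = 1 := by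
    rw [← tc_mul, mul_comm, unit_star_mul hu, tc_one]
  rw [mem_lat (LP_lat h)]
  constructor
  · rintro ⟨a, rfl⟩
    refine ⟨u * a, ?_⟩
    rw [tc_mul]
    conv_lhs => rw [hΩ]
    ring
  · rintro ⟨a, rfl⟩
    refine ⟨star u * a, ?_⟩
    rw [tc_mul]
    conv_rhs => rw [hΩ]
    linear_combination (-(zt * (‖Ω‖ : ℝ) * tc a)) * huu

lemma zt_re_im (r : ℝ) (a : ZI) : zt * (r : ℂ) * tc a =
    ((r / Real.sqrt 2 * (a.re - a.im) : ℝ) : ℂ) + ((r / Real.sqrt 2 * (a.re + a.im) : ℝ) : ℂ) * I := by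
  unfold zt tc
  have := sq2_ne
  push_cast
  field_simp
  linear_combination (r * a.im : ℂ) * I_sq

theorem LP_RP (h : NL L Ω s) : RPr (LP h) (Real.sqrt 2 * ‖Ω‖) := by
  have hΩ : 0 < ‖Ω‖ := norm_pos_iff.2 h.gl.lat.ne
  have h2 : 0 < Real.sqrt 2 := Real.sqrt_pos.2 (by norm_num)
  have h22 : Real.sqrt 2 * Real.sqrt 2 = 2 := Real.mul_self_sqrt (by norm_num)
  refine ⟨by positivity, ?_, ?_⟩
  · intro t
    rw [LP_mem h]
    constructor
    · rintro ⟨a, ha⟩
      rw [zt_re_im] at ha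
      have h3 := congrArg Complex.im ha
      have h4 := congrArg Complex.re ha
      simp only [Complex.ofReal_im, Complex.add_im, Complex.mul_im, Complex.ofReal_re, Complex.I_re,
        Complex.I_im, Complex.add_re, Complex.mul_re, mul_zero, mul_one, zero_add, add_zero,
        sub_zero, zero_mul] at h3 h4
      have h5 : (a.re : ℝ) + a.im = 0 := by
        rcases mul_eq_zero.1 h3.symm with h6 | h6
        · exact absurd h6 (by positivity)
        · exact h6
      refine ⟨a.re, ?_⟩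
      have h6 : (a.im : ℝ) = -a.re := by linarith
      rw [h4, h6]
      field_simp
      linear_combination (-(a.re : ℝ)) * h22
    · rintro ⟨k, rfl⟩
      refine ⟨⟨k, -k⟩, ?_⟩
      rw [zt_re_im]
      push_cast
      have := sq2_ne
      have h23 := sq2
      field_simp
      linear_combination (k * (‖Ω‖ : ℂ)) * h23
  · intro z hz
    rw [LP_mem h] at hz
    obtain ⟨a, ha⟩ := hz
    rw [zt_re_im] at ha
    have h3 := congrArg Complex.im ha
    have h4 := congrArg Complex.re ha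
    simp only [Complex.sub_im, Complex.sub_re, Complex.conj_im, Complex.conj_re, Complex.ofReal_im,
      Complex.add_im, Complex.mul_im, Complex.ofReal_re, Complex.I_re,
      Complex.I_im, Complex.add_re, Complex.mul_re, mul_zero, mul_one, zero_add, add_zero,
      sub_zero, zero_mul] at h3 h4
    have h5 : (a.re : ℝ) - a.im = 0 := by
      rw [sub_self] at h4
      rcases mul_eq_zero.1 h4.symm with h6 | h6
      · exact absurd h6 (by positivity)
      · exact h6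
    refine ⟨zt * (‖Ω‖ : ℝ) * tc ⟨a.re, 0⟩, (LP_mem h).2 ⟨_, rfl⟩, ?_⟩
    rw [Complex.conj_eq_iff_im, zt_re_im]
    simp only [Complex.sub_im, Complex.ofReal_im, Complex.add_im, Complex.mul_im, Complex.ofReal_re,
      Complex.I_re, Complex.I_im, mul_zero, mul_one, zero_add, add_zero, Int.cast_zero]
    have h6 : (a.im : ℝ) = a.re := by linarith
    rw [h6] at h3
    linarith

variable {ω : ℝ}

lemma RPr.notMem {L : PeriodPair} (hω : RPr L ω) {t : ℝ} (h0 : 0 < t) (h1 : t < ω) : (t : ℂ) ∉ L.lattice := by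
  intro h
  obtain ⟨k, hk⟩ := (hω.mem t).1 h
  have hp := hω.pos
  have h2 : (0 : ℝ) < k := by
    by_contra h3
    push Not at h3
    have := mul_nonpos_of_nonpos_of_nonneg h3 hp.le
    linarith
  have h4 : (1 : ℤ) ≤ k := by
    have : (0 : ℤ) < k := by exact_mod_cast h2
    omega
  have h5 : (1 : ℝ) ≤ k := by exact_mod_cast h4
  nlinarith

lemma re_of_conj {z : ℂ} (h : (starRingEnd ℂ) z = z) : ((z.re : ℝ) : ℂ) = z :=
  Complex.conj_eq_iff_re.1 h

lemma wr (h : NL L Ω s) (t : ℝ) : (((℘[LP h] t).re : ℝ) : ℂ) = ℘[LP h] t := by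
  apply re_of_conj
  rw [← LP_wp_conj, Complex.conj_ofReal]

lemma dwr (h : NL L Ω s) {t : ℝ} (ht : (t : ℂ) ∉ (LP h).lattice) :
    (((℘'[LP h] t).re : ℝ) : ℂ) = ℘'[LP h] t := by
  apply re_of_conj
  rw [← LP_dwp_conj h ht, Complex.conj_ofReal]

/-- the cubic -/
noncomputable def ps (x : ℝ) : ℝ := 4 * x ^ 3 + 4 * x

lemma ode_r (h : NL L Ω s) {t : ℝ} (ht : (t : ℂ) ∉ (LP h).lattice) :
    (℘'[LP h] t).re ^ 2 = ps (℘[LP h] t).re := by
  apply Complex.ofReal_injective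
  unfold ps
  push_cast
  rw [dwr h ht, wr h, LP_eqn h ht]

lemma RPr.two_half {L : PeriodPair} (hω : RPr L ω) {t : ℝ} (h0 : 0 < t) (h1 : t < ω / 2) :
    2 * (t : ℂ) ∉ L.lattice := by
  have := hω.notMem (t := 2 * t) (by linarith) (by linarith)
  push_cast at this
  exact this

lemma ps_pos (h : NL L Ω s) (hω : RPr (LP h) ω) {t : ℝ} (h0 : 0 < t) (h1 : t < ω / 2) :
    0 < ps (℘[LP h] t).re := by
  have hp := hω.pos
  have ht : (t : ℂ) ∉ (LP h).lattice := hω.notMem h0 (by linarith)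
  rw [← ode_r h ht]
  have h2 : ℘'[LP h] (t : ℂ) ≠ 0 := wp'_ne_zero (LP h) (hω.two_half h0 h1)
  have h3 : (℘'[LP h] t).re ≠ 0 := by
    intro h4
    apply h2
    rw [← dwr h ht, h4]
    simp
  positivity

lemma inj_r (h : NL L Ω s) (hω : RPr (LP h) ω) :
    Set.InjOn (fun t : ℝ => (℘[LP h] t).re) (Set.Ioo 0 (ω / 2)) := by
  intro t ht u hu e
  have hp := hω.pos
  obtain ⟨ht0, ht1⟩ := ht
  obtain ⟨hu0, hu1⟩ := hu
  have h1 : ℘[LP h] t = ℘[LP h] u := by
    rw [← wr h t, ← wr h u]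
    exact congrArg (fun x : ℝ => (x : ℂ)) e
  rw [wp_eq_iff (LP h) (hω.notMem ht0 (by linarith)) (hω.notMem hu0 (by linarith))] at h1
  rcases h1 with h1 | h1
  · exfalso
    refine hω.notMem (t := t + u) (by linarith) (by linarith) (by push_cast; exact h1)
  · rcases lt_trichotomy t u with h2 | h2 | h2
    · exfalso
      have := neg_mem h1
      rw [neg_sub] at this
      refine hω.notMem (t := u - t) (by linarith) (by linarith) (by push_cast; exact this)
    · exact h2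
    · exfalso
      refine hω.notMem (t := t - u) (by linarith) (by linarith) (by push_cast; exact h1)

theorem image_r (h : NL L Ω s) (hω : RPr (LP h) ω) :
    (fun t : ℝ => (℘[LP h] t).re) '' (Set.Ioo 0 (ω / 2)) = {x : ℝ | 0 < ps x} := by
  have hp := hω.pos
  ext x
  constructor
  · rintro ⟨t, ⟨ht0, ht1⟩, rfl⟩
    exact ps_pos h hω ht0 ht1
  · intro hx
    have hx' : 0 < ps x := hx
    obtain ⟨z, hz, hzx⟩ := exists_wp_eq (LP h) (x : ℂ)
    have hode := LP_eqn h hz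
    rw [hzx] at hode
    have hsq : ℘'[LP h] z ^ 2 = ((Real.sqrt (ps x) : ℝ) : ℂ) ^ 2 := by
      rw [← Complex.ofReal_pow, Real.sq_sqrt hx'.le, hode]
      unfold ps
      push_cast
      ring
    have hs0 : 0 < Real.sqrt (ps x) := Real.sqrt_pos.2 hx'
    have hreal : (starRingEnd ℂ) (℘'[LP h] z) = ℘'[LP h] z := by
      rcases sq_eq_sq_iff_eq_or_eq_neg.1 hsq with h1 | h1
      · rw [h1, Complex.conj_ofReal]
      · rw [h1, map_neg, Complex.conj_ofReal]
    have hne : ℘'[LP h] z ≠ 0 := by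
      intro h0
      rw [h0] at hsq
      have : ((Real.sqrt (ps x) : ℝ) : ℂ) = 0 := by
        apply pow_eq_zero_iff (two_ne_zero) |>.1
        rw [← hsq]; ring
      exact hs0.ne' (by exact_mod_cast this)
    have hz' : (starRingEnd ℂ) z ∉ (LP h).lattice := fun h1 => hz ((LP_conj_iff h).1 h1)
    have hcz : ℘[LP h] z = ℘[LP h] ((starRingEnd ℂ) z) := by
      rw [LP_wp_conj h, hzx, Complex.conj_ofReal]
    rw [wp_eq_iff (LP h) hz hz'] at hcz
    have hsub : z - (starRingEnd ℂ) z ∈ (LP h).lattice := by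
      rcases hcz with h1 | h1
      · exfalso
        have h2 : ℘'[LP h] z = ℘'[LP h] (-(starRingEnd ℂ) z) := wp'_per (LP h) (by
          rw [sub_neg_eq_add]; exact h1)
        rw [(LP h).derivWeierstrassP_neg, LP_dwp_conj h hz, hreal] at h2
        apply hne
        linear_combination (1 / 2 : ℂ) * h2
      · exact h1
    obtain ⟨l, hl, hzl⟩ := hω.conn z hsub
    set t₀ : ℝ := (z - l).re with ht₀
    have ht₀z : (t₀ : ℂ) = z - l := re_of_conj hzl
    have hXt₀ : ℘[LP h] t₀ = x := by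
      rw [ht₀z, ← hzx]
      apply wp_per
      rw [sub_sub_cancel_left]
      exact neg_mem hl
    have ht₀L : (t₀ : ℂ) ∉ (LP h).lattice := by
      intro h1
      apply hz
      have := add_mem h1 hl
      rwa [ht₀z, sub_add_cancel] at this
    -- reduce modulo `ω`
    set k : ℤ := ⌊t₀ / ω⌋ with hk
    set t₁ : ℝ := t₀ - k * ω with ht₁
    have hk1 : (k : ℝ) * ω ≤ t₀ := by
      have := Int.floor_le (t₀ / ω)
      rwa [← hk, le_div_iff₀ hp] at this
    have hk2 : t₀ < (k + 1 : ℝ) * ω := by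
      have := Int.lt_floor_add_one (t₀ / ω)
      rwa [← hk, div_lt_iff₀ hp] at this
    have hkL : (((k : ℝ) * ω : ℝ) : ℂ) ∈ (LP h).lattice := (hω.mem _).2 ⟨k, rfl⟩
    have hXt₁ : ℘[LP h] t₁ = x := by
      rw [← hXt₀]
      apply wp_per
      have e : (t₁ : ℂ) - t₀ = -(((k : ℝ) * ω : ℝ) : ℂ) := by rw [ht₁]; push_cast; ring
      rw [e]
      exact neg_mem hkL
    have ht₁L : (t₁ : ℂ) ∉ (LP h).lattice := by
      intro h1
      apply ht₀L
      have := add_mem h1 hkL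
      have e : (t₁ : ℂ) + (((k : ℝ) * ω : ℝ) : ℂ) = t₀ := by rw [ht₁]; push_cast; ring
      rwa [e] at this
    have ht₁0 : 0 ≤ t₁ := by rw [ht₁]; linarith
    have ht₁w : t₁ < ω := by rw [ht₁]; linarith
    have ht₁pos : 0 < t₁ := by
      rcases ht₁0.lt_or_eq with h1 | h1
      · exact h1
      · exfalso
        apply ht₁L
        rw [← h1]
        simp
    have hhalf : t₁ ≠ ω / 2 := by
      intro h1
      have h0 : ℘'[LP h] (t₁ : ℂ) = ℘'[LP h] (-(t₁ : ℂ)) := wp'_per (LP h) (by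
        rw [sub_neg_eq_add]
        have e : (t₁ : ℂ) + t₁ = ω := by rw [h1]; push_cast; ring
        rw [e]
        exact (hω.mem ω).2 ⟨1, by push_cast; ring⟩)
      rw [(LP h).derivWeierstrassP_neg] at h0
      have h2 : ℘'[LP h] (t₁ : ℂ) = 0 := by linear_combination (1 / 2 : ℂ) * h0
      have h3 := ode_r h ht₁L
      have h4 : (℘[LP h] t₁).re = x := by rw [hXt₁]; simp
      rw [h2, h4] at h3
      simp at h3
      linarith
    rcases lt_or_gt_of_ne hhalf with h1 | h1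
    · exact ⟨t₁, ⟨ht₁pos, h1⟩, by simp only [hXt₁, Complex.ofReal_re]⟩
    · refine ⟨ω - t₁, ⟨by linarith, by linarith⟩, ?_⟩
      have e : ℘[LP h] ((ω - t₁ : ℝ) : ℂ) = x := by
        rw [← hXt₁, ← (LP h).weierstrassP_neg (t₁ : ℂ)]
        apply wp_per
        have e2 : ((ω - t₁ : ℝ) : ℂ) - -(t₁ : ℂ) = ω := by push_cast; ring
        rw [e2]
        exact (hω.mem ω).2 ⟨1, by push_cast; ring⟩
      simp only [e, Complex.ofReal_re]

/-- **the real period** -/
theorem real_per (h : NL L Ω s) (hω : RPr (LP h) ω) :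
    ∫ x in {x : ℝ | 0 < ps x}, 2 / Real.sqrt (ps x) = ω := by
  have hp := hω.pos
  rw [← image_r h hω, integral_image_eq_integral_abs_deriv_smul
    (f' := fun t => (℘'[LP h] (t : ℂ)).re) measurableSet_Ioo]
  · have h1 : ∀ t ∈ Set.Ioo 0 (ω / 2), |(℘'[LP h] (t : ℂ)).re| • (2 / Real.sqrt (ps (℘[LP h] t).re)) = 2 := by
      rintro t ⟨ht0, ht1⟩
      have ht : (t : ℂ) ∉ (LP h).lattice := hω.notMem ht0 (by linarith)
      rw [← ode_r h ht, Real.sqrt_sq_eq_abs, smul_eq_mul]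
      have h2 : |(℘'[LP h] (t : ℂ)).re| ≠ 0 := by
        rw [abs_ne_zero]
        intro h3
        have := ps_pos h hω ht0 ht1
        rw [← ode_r h ht, h3] at this
        simp at this
      field_simp
    rw [setIntegral_congr_fun measurableSet_Ioo h1, setIntegral_const]
    simp only [Measure.real, Real.volume_Ioo, smul_eq_mul]
    rw [ENNReal.toReal_ofReal (by linarith)]
    ring
  · rintro t ⟨ht0, ht1⟩
    have ht : (t : ℂ) ∉ (LP h).lattice := hω.notMem ht0 (by linarith)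
    exact (hasDerivAt_weierstrassP (LP h) ht).real_of_complex.hasDerivWithinAt
  · exact inj_r h hω

end Pool.Agent.D0H10.Q4
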