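import Pool.Agent.D0H10.Q4.Defs

/-!
Project Q4: statements of the modules on the values.
-/

set_option autoImplicit false

open Filter Complex
open scoped Topology PeriodPair

namespace Pool.Agent.D0H10.Q4

open H385 (ZI RQ im1 nrm)
open Pool.Agent.H304R3.HK (tc HC LH)
open Pool.Agent.Y699

/-- supplementary law -/
def S_SUP : Prop := ∀ π : ZI, PP π → Y699.q4 π (-2) = rh π

/-- normalised lattices -/
def S_NL : Prop := ∃ (L : PeriodPair) (Ω s : ℂ), NL L Ω s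

/-- the Hecke character of the twist by `-2 Δ` and its central value -/
def S_HEC : Prop := ∀ (ι : Type) [DecidableEq ι] (pr : ι → ZI), PF pr → ∀ (V : Finset ι) (e : ι → ℕ),
  (∀ i ∈ V, e i % 4 ≠ 0) → ∃ X : ZI →* ℂ, HC (8 * DD pr V) X ∧
    (∀ a, Cc a → X a = (starRingEnd ℂ) (tc (rh a * c4 pr V e a))) ∧
    ∀ l : ℂ, Tendsto (RS (ccm pr V e)) (𝓝[>] 0) (𝓝 l) → LH X (1 / 2) = (starRingEnd ℂ) l

/-- the limits of the regularised sums -/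
def S_LIM : Prop := ∀ (L : PeriodPair) (Ω s : ℂ), NL L Ω s →
  ∀ (ι : Type) [DecidableEq ι] (pr : ι → ZI), PF pr → ∀ (V : Finset ι) (e : ι → ℕ),
  Tendsto (RS (ccm pr V e)) (𝓝[>] 0) (𝓝 (lv L Ω pr V e))

/-- removing an Euler factor -/
def S_EUL : Prop := ∀ (ι : Type) [DecidableEq ι] (pr : ι → ZI), PF pr → ∀ (V : Finset ι) (e : ι → ℕ)
  (k : ι), k ∈ V → e k % 4 = 0 → ∀ l : ℂ,
  Tendsto (RS (ccm pr (V.erase k) e)) (𝓝[>] 0) (𝓝 l) →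
  Tendsto (RS (ccm pr V e)) (𝓝[>] 0)
    (𝓝 ((1 - tc (rh (cp (pr k)) * c4 pr (V.erase k) e (cp (pr k))) / tc (cp (pr k))) * l))

/-- the algebraic identity for `G` -/
def S_GID : Prop := ∀ (L : PeriodPair) (Ω s : ℂ), NL L Ω s → GG L Ω 0 ^ 2 = 16 * s ∧
  ∀ z : ℂ, OT L z → GG L Ω z ^ 2 * (℘'[L] (2 * z) - 2 * s * ℘[L] (2 * z)) ^ 2 =
    4 * GG L Ω 0 ^ 2 * (℘[L] (2 * z) - 1) * ℘[L] (2 * z) ^ 2

/-- valuations of the values at points of odd order -/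
def S_VAL : Prop := ∀ (L : PeriodPair) (Ω s : ℂ), NL L Ω s →
  ∀ (Γ : Type) [LinearOrderedCommGroupWithZero Γ] (v : Valuation ℂ Γ), v 2 < 1 →
  ∃ δ : ℂ, v δ = 1 ∧
    (∀ z, OT L z → Cg v (gg L Ω z - gg L Ω (-z)) δ ∧ v (gg L Ω z) ^ 4 * v (1 + I) ^ 5 = 1) ∧
    ∀ z w, OT L z → OT L w → v (Xd L z w) ≤ 1 ∧
      Cg v ((1 + I) * (gg L Ω z - gg L Ω w)) (δ * Xd L z w)

/-- the distribution relation -/
def S_DST : Prop := ∀ (L : PeriodPair) (Ω s : ℂ), NL L Ω s →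
  ∀ (Γ : Type) [LinearOrderedCommGroupWithZero Γ] (v : Valuation ℂ Γ), v 2 < 1 →
  ∀ w, OT L w → (∀ z, OT L z → Cg v (Xd L (I * z) w) (Xd L z w + 1)) ∧
    ∀ (π : ZI) (z : ℂ), PP π → OT L z → tc π * z ∉ L.lattice →
      Cg v (∑ᶠ q : RQ π, Xd L (z + zq Ω π q.out) w) (Xd L (tc π * z) w)

/-- the sums over half systems -/
def S_PSI : Prop := ∀ (A : Type) [CommRing A], (2 : A) = 0 →
  ∀ (ι : Type) [DecidableEq ι] (pr : ι → ZI), PF pr → ∀ V : Finset ι, V.Nonempty →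
  ∀ F : ZI → ZI → A, Dst F → ∀ H : Set (RQ (DD pr V)), Half (DD pr V) H →
  ∑ᶠ q ∈ H, (open Classical in if ∀ i ∈ V, ¬ pr i ∣ q.out then
    uA (∏ i ∈ V, oo pr i q.out) +
      ∑ j ∈ V, uA (wt pr j * ∏ k ∈ V.erase j, oo pr k q.out) * F (DD pr V) q.out else 0) = 0

/-- the sums of the values are not units -/
def S_RHS : Prop := ∀ (L : PeriodPair) (Ω s : ℂ), NL L Ω s →
  ∀ (Γ : Type) [LinearOrderedCommGroupWithZero Γ] (v : Valuation ℂ Γ), v 2 < 1 →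
  ∀ (ι : Type) [DecidableEq ι] (pr : ι → ZI), PF pr → ∀ (V : Finset ι) (e : ι → ℕ), V.Nonempty →
  (∀ i ∈ V, e i % 2 = 1) →
  v (∑ᶠ q : RQ (DD pr V), (∏ j ∈ V, pf (pr j) (e j) (8 * q.out)) *
    gg L Ω (zq Ω (cp (DD pr V)) q.out)) < 1

/-- the combinatorial recursion -/
def S_COMB : Prop := ∀ (ι : Type) [DecidableEq ι] (t : ι → ZMod 2) (A : ι → ι → ZMod 2),
  (∀ i j, A i j = A j i) → ∀ b : Finset ι → ZMod 2,
  (∀ V : Finset ι, ∑ T ∈ V.powerset, b T * ∏ k ∈ V \ T, (t k + ∑ l ∈ T, A l k) =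
    if V = ∅ then 1 else 0) → ∀ V : Finset ι, b V = (MQ t A V).det

/-- the main theorem on the values -/
def S_BET : Prop := ∀ (L : PeriodPair) (Ω s : ℂ), NL L Ω s →
  ∀ (Γ : Type) [LinearOrderedCommGroupWithZero Γ] (v : Valuation ℂ Γ), v 2 < 1 →
  ∀ (ι : Type) [DecidableEq ι] (pr : ι → ZI), PF pr → ∀ (V : Finset ι) (e : ι → ℕ),
  (∀ i ∈ V, e i % 2 = 1) →
  Cg v (lv L Ω pr V e / ((1 + I) ^ V.card * lv L Ω pr ∅ e)) (uu (dq pr V))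

end Pool.Agent.D0H10.Q4
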