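import Pool.Agent.D0H10.Q4.StmB

/-!
Project Q4: statements of the modules over `ℚ`: the curve `y² = x³ + 2 m x`, `m` a product of distinct
primes `≡ 1 mod 4`.
-/

set_option autoImplicit false

open NumberField IsDedekindDomain Filter Complex WeierstrassCurve
open scoped Topology PeriodPair

namespace Pool.Agent.D0H10.Q4

open H385 (ZI RQ im1 nrm)
open Pool.Agent.H304R3.HK (tc HC LH)
open Pool.Agent.Y699
open Pool.Agent.TH841.NF.D (Sha)

/-- `m` is squarefree and its prime factors are `≡ 1 mod 4` -/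
def Adm (m : ℕ) : Prop := Squarefree m ∧ ∀ p ∈ m.primeFactors, p % 4 = 1

/-- the curve `y² = x³ + 2 m x` over `ℤ` -/
def cZ (m : ℕ) : WeierstrassCurve ℤ := ⟨0, 0, 0, 2 * m, 0⟩

/-- the curve `y² = x³ + 2 m x` over `ℚ` -/
abbrev cQ (m : ℕ) : WeierstrassCurve ℚ := (cZ m).map (Int.castRingHom ℚ)

open Classical in
/-- `1` if `a` is not a square modulo `p`, and `0` if it is -/
noncomputable def nsq (p a : ℕ) : ZMod 2 := if IsSquare (a : ZMod p) then 0 else 1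

/-- the matrix over the field with two elements, with rows and columns indexed by the prime factors of
`m`: the entry at `(p, q)` is `nsq p q` for `p ≠ q`, the entry at `(p, p)` is the sum of `nsq p 2` and
of the `nsq p l` for all the prime factors `l ≠ p` -/
noncomputable def matQ (m : ℕ) : Matrix m.primeFactors m.primeFactors (ZMod 2) := Matrix.of fun p q =>
  if p = q then nsq p 2 + ∑ l ∈ m.primeFactors.erase p, nsq p l else nsq p q

/-- `m` as a Gaussian integer is squarefree and primary, and the determinants belong together -/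
def S_CRI : Prop := ∀ m : ℕ, Adm m → PS (m : ZI) ∧ (PD (m : ZI)).card = 2 * m.primeFactors.card ∧
  (dD (m : ZI) = 1 ↔ (matQ m).det ≠ 0)

/-- 2-descent over `ℚ` -/
def S_QSEL : Prop := ∀ m : ℕ, Adm m → (matQ m).det ≠ 0 →
  Nat.card (cQ m).toAffine.Point = 2 ∧ ∀ (n : ℕ) (x : Sha (cQ m)), 2 ^ n • x = 0 → x = 0

/-- 2-descent over `ℚ`, converse -/
def S_QCONV : Prop := ∀ m : ℕ, Adm m → (matQ m).det = 0 → Finite (cQ m).toAffine.Point →
  ∃ x : Sha (cQ m), 2 • x = 0 ∧ x ≠ 0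

/-- the L-series over `ℚ` -/
def S_QLS : Prop := ∀ m : ℕ, Adm m → ∀ X : ZI →* ℂ, HC (8 * (m : ZI)) X →
    (∀ a, Cc a → X a = (starRingEnd ℂ) (tc (rh a * c4 (fam (m : ZI)) Finset.univ on1 a))) →
  ∀ s : ℂ, 2 < s.re → LSeriesSummable ((fun n : ℤ => (n : ℂ)) ∘ (cQ m).LFunction) s ∧
    LH X (s - 1 / 2) = (cQ m).LSeries s

/-- `W⁰(ℚ_v)`, see `MP_4a9ea6_nt/TwoPartTwistsX49` -/
noncomputable def nonsing (W : WeierstrassCurve ℚ) (v : HeightOneSpectrum (𝓞 ℚ)) :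
    AddSubgroup (Pool.Agent.TH841.SH.D.Pt W (v.adicCompletion ℚ)) :=
  AddSubgroup.closure {P | ∀ x y h, P = Affine.Point.some x y h →
    1 < Valued.v x ∨
    Valued.v ((W.baseChange (v.adicCompletion ℚ)).a₁ * y -
      (3 * x ^ 2 + 2 * (W.baseChange (v.adicCompletion ℚ)).a₂ * x +
        (W.baseChange (v.adicCompletion ℚ)).a₄)) = 1 ∨
    Valued.v (2 * y + (W.baseChange (v.adicCompletion ℚ)).a₁ * x +
      (W.baseChange (v.adicCompletion ℚ)).a₃) = 1}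

/-- The equation is minimal at the place `v` -/
def MinimalAt (W : WeierstrassCurve ℚ) (v : HeightOneSpectrum (𝓞 ℚ)) : Prop :=
  ∀ C : VariableChange ℚ, v.valuation ℚ (C • W).a₁ ≤ 1 → v.valuation ℚ (C • W).a₂ ≤ 1 →
    v.valuation ℚ (C • W).a₃ ≤ 1 → v.valuation ℚ (C • W).a₄ ≤ 1 → v.valuation ℚ (C • W).a₆ ≤ 1 →
    v.valuation ℚ (C • W).Δ ≤ v.valuation ℚ W.Δ

/-- Tamagawa numbers over `ℚ` -/
def S_QTAM : Prop := ∀ m : ℕ, Adm m → (∀ v, MinimalAt (cQ m) v) ∧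
  ∏ᶠ v : HeightOneSpectrum (𝓞 ℚ), (nonsing (cQ m) v).index = 2 ^ (m.primeFactors.card + 1)

/-- the real period of `y² = x³ + 2 m x` -/
noncomputable def OmQ (m : ℕ) : ℝ :=
  2 * ∫ x in {x : ℝ | 0 < 4 * x ^ 3 + 8 * m * x}, 1 / √(4 * x ^ 3 + 8 * m * x)

/-- the real period and the central value over `ℚ` -/
def S_QVAL : Prop := ∀ m : ℕ, Adm m → ∀ X : ZI →* ℂ, HC (8 * (m : ZI)) X →
    (∀ a, Cc a → X a = (starRingEnd ℂ) (tc (rh a * c4 (fam (m : ZI)) Finset.univ on1 a))) →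
  ∀ (Γ : Type) [LinearOrderedCommGroupWithZero Γ] (v : Valuation ℂ Γ), v 2 < 1 →
    v (LH X (1 / 2) * 4 / (((OmQ m : ℝ) : ℂ) * 2 ^ (m.primeFactors.card + 1))) ≤ 1 ∧
    (v (LH X (1 / 2) * 4 / (((OmQ m : ℝ) : ℂ) * 2 ^ (m.primeFactors.card + 1))) = 1 ↔
      dD (m : ZI) = 1)

/-- the predicted order is an algebraic number -/
def S_QALG : Prop := ∀ m : ℕ, Adm m → ∀ X : ZI →* ℂ, HC (8 * (m : ZI)) X →
    (∀ a, Cc a → X a = (starRingEnd ℂ) (tc (rh a * c4 (fam (m : ZI)) Finset.univ on1 a))) →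
  IsAlgebraic ℚ (LH X (1 / 2) / ((OmQ m : ℝ) : ℂ))

open Classical in
/-- the exact proportion over `ℚ` -/
def S_QDEN : Prop := Tendsto (fun X : ℕ =>
    (((Finset.Icc 1 X).filter fun m => Adm m ∧ (matQ m).det ≠ 0).card : ℝ) /
    (((Finset.Icc 1 X).filter fun m => Adm m).card : ℝ)) atTop
  (𝓝 (∏' i : ℕ, (1 - (1 / 2 : ℝ) ^ (2 * i + 1))))

end Pool.Agent.D0H10.Q4
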