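import Pool.Agent.D0H10.Q4.StmB

/-!
Project Q4: the number of the squarefree primary Gaussian integers.
-/

set_option autoImplicit false

open Filter
open scoped Topology

namespace Pool.Agent.D0H10.Q4

open Pool.Agent.Y699 (SB)

/-- the number of the squarefree primary Gaussian integers of norm at most `X` is `κ X + o(X)` -/
def S_SQF : Prop := ∃ κ : ℝ, 0 < κ ∧
  Tendsto (fun X : ℕ => ((SB X).card : ℝ) / (X : ℝ)) atTop (𝓝 κ)

end Pool.Agent.D0H10.Q4
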