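import Pool.Agent.D0H10.Q4.StmC

/-!
Project Q4: the torsion subgroup of `y² = x³ + 2 m x` over `ℚ` and of `y² = x³ + 2 Δ x` over `ℚ(i)`.
-/

set_option autoImplicit false

open NumberField IsDedekindDomain WeierstrassCurve

namespace Pool.Agent.D0H10.Q4.Tor

open H385 (ZI RQ im1 nrm)

open Pool.Agent.Y715.Z (q4 em0)
open Pool.Agent.Y699 (pi1 pi1_prime plc PS)

section gen

variable {F : Type} [Field F] [DecidableEq F]

/-- doubling -/
lemma dbl {D x y : F} (h2 : (2 : F) ≠ 0) (h : (q4 D).toAffine.Nonsingular x y) (hy : y ≠ 0) :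
    ∃ x' y' h', Affine.Point.some x y h + .some x y h = (.some x' y' h' : (q4 D).toAffine.Point) ∧
      x' * (4 * (x * (x ^ 2 + D))) = (x ^ 2 - D) ^ 2 := by
  have hne : y ≠ (q4 D).toAffine.negY x y := by
    intro h0
    have h1 : 2 * y = 0 := by
      have : (q4 D).toAffine.negY x y = -y := by
        simp [Affine.negY, q4]
      rw [this] at h0
      linear_combination h0
    rcases mul_eq_zero.1 h1 with h1 | h1
    · exact h2 h1
    · exact hy h1
  refine ⟨_, _, _, Affine.Point.add_self_of_Y_ne hne, ?_⟩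
  rw [Affine.slope_of_Y_ne rfl hne]
  have h3 : y ^ 2 = x ^ 3 + D * x := Pool.Agent.Y715.Z.q4_eqn.1 h.1
  have h4 : y - (q4 D).toAffine.negY x y = 2 * y := by
    simp [Affine.negY, q4]
    ring
  rw [h4]
  simp only [Affine.addX, q4]
  have h5 : 4 * (x * (x ^ 2 + D)) = (2 * y) ^ 2 := by linear_combination (-4) * h3
  rw [h5]
  have h6 : (2 * y) ≠ 0 := mul_ne_zero h2 hy
  field_simp
  have e1 : (3 * x ^ 2 + 2 * 0 * x + D - 0 * y) = 3 * x ^ 2 + D := by ring
  linear_combination (-8 * x) * h3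

variable {Γ : Type} [LinearOrderedCommGroupWithZero Γ] (v : Valuation F Γ)

omit [DecidableEq F] in
lemma v_dbl {D x x' : F} (hD : v D < 1) (hx : 1 ≤ v x)
    (h : x' * (4 * (x * (x ^ 2 + D))) = (x ^ 2 - D) ^ 2) : v x' * v 4 = v x := by
  have hx0 : v x ≠ 0 := (lt_of_lt_of_le zero_lt_one hx).ne'
  have h1 : v D < v (x ^ 2) := by
    rw [map_pow]
    exact lt_of_lt_of_le hD (one_le_pow₀ hx)
  have h2 : v (x ^ 2 + D) = v x ^ 2 := by
    rw [Valuation.map_add_eq_of_lt_left _ h1, map_pow]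
  have h3 : v (x ^ 2 - D) = v x ^ 2 := by
    rw [Valuation.map_sub_eq_of_lt_left _ h1, map_pow]
  have h4 := congrArg v h
  rw [map_mul, map_mul, map_mul, h2, map_pow, h3] at h4
  have h5 : v x ^ 3 ≠ 0 := pow_ne_zero 3 hx0
  refine mul_right_cancel₀ h5 ?_
  calc v x' * v 4 * v x ^ 3 = v x' * (v 4 * (v x * v x ^ 2)) := by
        rw [← pow_succ' (v x) 2, mul_assoc]
    _ = (v x ^ 2) ^ 2 := h4
    _ = v x * v x ^ 3 := by rw [← pow_mul, ← pow_succ']

/-- the iterates -/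
lemma iter {D x y : F} (h2 : (2 : F) ≠ 0) (hs : ∀ r : F, r ^ 2 ≠ -D) (hv : v 2 < 1) (hD : v D < 1)
    (h : (q4 D).toAffine.Nonsingular x y) (hx : 1 ≤ v x) (n : ℕ) :
    ∃ x' y' h', 2 ^ n • Affine.Point.some x y h = (.some x' y' h' : (q4 D).toAffine.Point) ∧
      v x' * v 4 ^ n = v x := by
  have hv0 : v 2 ≠ 0 := (v.ne_zero_iff).2 h2
  have hv4 : v (4 : F) ≤ 1 := by
    have : (4 : F) = 2 * 2 := by norm_num
    rw [this, map_mul]
    exact mul_le_one' hv.le hv.le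
  have hv40 : v (4 : F) ≠ 0 := by
    have : (4 : F) = 2 * 2 := by norm_num
    rw [this, map_mul]
    exact mul_ne_zero hv0 hv0
  induction n with
  | zero => exact ⟨x, y, h, by rw [pow_zero, one_smul], by rw [pow_zero, mul_one]⟩
  | succ n ih =>
    obtain ⟨x₁, y₁, h₁, e₁, e₂⟩ := ih
    have hx1 : 1 ≤ v x₁ := by
      refine hx.trans ?_
      rw [← e₂]
      exact mul_le_of_le_one_right' (pow_le_one' hv4 n)
    have hx10 : x₁ ≠ 0 := by
      rintro rfl
      rw [map_zero] at hx1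
      exact absurd hx1 (not_le.2 zero_lt_one)
    have hy1 : y₁ ≠ 0 := by
      rintro rfl
      have h3 : (0 : F) ^ 2 = x₁ ^ 3 + D * x₁ := Pool.Agent.Y715.Z.q4_eqn.1 h₁.1
      have h4 : x₁ * (x₁ ^ 2 + D) = 0 := by linear_combination -h3
      rcases mul_eq_zero.1 h4 with h4 | h4
      · exact hx10 h4
      · exact hs x₁ (eq_neg_of_add_eq_zero_left h4)
    obtain ⟨x₂, y₂, h₂, e₃, e₄⟩ := dbl h2 h₁ hy1
    refine ⟨x₂, y₂, h₂, ?_, ?_⟩
    · rw [pow_succ, mul_comm, mul_smul, e₁, two_smul, e₃]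
    · rw [pow_succ, mul_comm (v 4 ^ n), ← mul_assoc, v_dbl v hD hx1 e₄, e₂]

/-- points with a large abscissa are of infinite order -/
lemma inf1 {D x y : F} (h2 : (2 : F) ≠ 0) (hs : ∀ r : F, r ^ 2 ≠ -D) (hv : v 2 < 1) (hD : v D < 1)
    (h : (q4 D).toAffine.Nonsingular x y) (hx : 1 ≤ v x) :
    ¬ IsOfFinAddOrder (Affine.Point.some x y h : (q4 D).toAffine.Point) := by
  intro hf
  set P : (q4 D).toAffine.Point := Affine.Point.some x y h with hP
  have hfin : (AddSubmonoid.multiples P : Set (q4 D).toAffine.Point).Finite :=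
    finite_multiples.2 hf
  have hv0 : v 2 ≠ 0 := (v.ne_zero_iff).2 h2
  have hx0 : v x ≠ 0 := (lt_of_lt_of_le zero_lt_one hx).ne'
  have hv4' : v (4 : F) = v 2 * v 2 := by
    have : (4 : F) = 2 * 2 := by norm_num
    rw [this, map_mul]
  have hv4 : v (4 : F) < 1 := by
    rw [hv4']
    exact mul_lt_one_of_lt_of_le hv hv.le
  have hv40 : v (4 : F) ≠ 0 := by
    rw [hv4']
    exact mul_ne_zero hv0 hv0
  have hinj : Function.Injective fun n : ℕ => (2 ^ n • P : (q4 D).toAffine.Point) := by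
    intro n m hnm
    obtain ⟨x₁, y₁, h₁, e₁, e₂⟩ := iter v h2 hs hv hD h hx n
    obtain ⟨x₂, y₂, h₂, e₃, e₄⟩ := iter v h2 hs hv hD h hx m
    have h5 : (Affine.Point.some x₁ y₁ h₁ : (q4 D).toAffine.Point) = .some x₂ y₂ h₂ := by
      rw [← e₁, ← e₃]
      exact hnm
    have h6 : x₁ = x₂ := by
      simp only [Affine.Point.some.injEq] at h5
      exact h5.1
    rw [h6] at e₂
    have h7 : v x₂ ≠ 0 := by
      intro h0
      rw [h0, zero_mul] at e₄
      exact hx0 e₄.symm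
    have h8 : v (4 : F) ^ n = v 4 ^ m := mul_left_cancel₀ h7 (e₂.trans e₄.symm)
    by_contra hne
    rcases lt_or_gt_of_ne hne with hlt | hlt
    · exact (pow_lt_pow_right_of_lt_one₀ (zero_lt_iff.2 hv40) hv4 hlt).ne h8.symm
    · exact (pow_lt_pow_right_of_lt_one₀ (zero_lt_iff.2 hv40) hv4 hlt).ne h8
  refine Set.infinite_range_of_injective hinj (hfin.subset ?_)
  rintro _ ⟨n, rfl⟩
  exact ⟨2 ^ n, rfl⟩

/-- points with a nonzero abscissa are of infinite order -/
lemma inf2 {D : F} (h2 : (2 : F) ≠ 0) (hs : ∀ r : F, r ^ 2 ≠ -D) (hv : v 2 < 1) (hD : v D < 1)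
    (hc : ∀ x x' : F, x ≠ 0 → v x < 1 → x' * (4 * (x * (x ^ 2 + D))) = (x ^ 2 - D) ^ 2 → 1 ≤ v x')
    {x y : F} (hx : x ≠ 0) (h : (q4 D).toAffine.Nonsingular x y) :
    ¬ IsOfFinAddOrder (Affine.Point.some x y h : (q4 D).toAffine.Point) := by
  rcases le_or_gt 1 (v x) with h1 | h1
  · exact inf1 v h2 hs hv hD h h1
  · have hy1 : y ≠ 0 := by
      rintro rfl
      have h3 : (0 : F) ^ 2 = x ^ 3 + D * x := Pool.Agent.Y715.Z.q4_eqn.1 h.1
      have h4 : x * (x ^ 2 + D) = 0 := by linear_combination -h3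
      rcases mul_eq_zero.1 h4 with h4 | h4
      · exact hx h4
      · exact hs x (eq_neg_of_add_eq_zero_left h4)
    obtain ⟨x₂, y₂, h₂, e₃, e₄⟩ := dbl h2 h hy1
    intro hf
    have h5 := inf1 v h2 hs hv hD h₂ (hc x x₂ hx h1 e₄)
    refine h5 ?_
    rw [← e₃]
    exact hf.add hf

/-- the torsion subgroup -/
theorem card_tors {D : F} (h2 : (2 : F) ≠ 0) (hs : ∀ r : F, r ^ 2 ≠ -D) (hv : v 2 < 1) (hD : v D < 1)
    (hc : ∀ x x' : F, x ≠ 0 → v x < 1 → x' * (4 * (x * (x ^ 2 + D))) = (x ^ 2 - D) ^ 2 → 1 ≤ v x') :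
    Nat.card (AddCommGroup.torsion (q4 D).toAffine.Point) = 2 := by
  have hD0 : D ≠ 0 := by
    intro h0
    refine hs 0 ?_
    rw [h0]; ring
  have hΔ : (q4 D).Δ ≠ 0 := by
    rw [Pool.Agent.Y715.Z.q4_Δ]
    have e : (-64 : F) = -(2 ^ 6) := by norm_num
    rw [e]
    exact mul_ne_zero (neg_ne_zero.2 (pow_ne_zero 6 h2)) (pow_ne_zero 3 hD0)
  have hns : (q4 D).toAffine.Nonsingular 0 0 := by
    rw [← WeierstrassCurve.Affine.equation_iff_nonsingular_of_Δ_ne_zero hΔ,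
      Pool.Agent.Y715.Z.q4_eqn]
    ring
  set T : (q4 D).toAffine.Point := .some 0 0 hns with hT
  have hTT : T + T = 0 := by
    refine Affine.Point.add_self_of_Y_eq ?_
    simp [Affine.negY, q4]
  have hset : (AddCommGroup.torsion (q4 D).toAffine.Point : Set (q4 D).toAffine.Point) = {0, T} := by
    ext P
    constructor
    · intro hP
      have hP' : IsOfFinAddOrder P := hP
      rcases P with _ | ⟨x, y, h⟩
      · exact Or.inl rfl
      · right
        have hx : x = 0 := by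
          by_contra hx
          exact inf2 v h2 hs hv hD hc hx h hP'
        subst hx
        have h3 : y ^ 2 = (0 : F) ^ 3 + D * 0 := Pool.Agent.Y715.Z.q4_eqn.1 h.1
        have hy : y = 0 := by
          have h4 : y ^ 2 = 0 := by rw [h3]; ring
          exact pow_eq_zero_iff two_ne_zero |>.1 h4
        subst hy
        rfl
    · rintro (h | h)
      · rw [h]
        exact (AddCommGroup.torsion _).zero_mem
      · have h' : P = T := h
        rw [h']
        show IsOfFinAddOrder T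
        rw [isOfFinAddOrder_iff_nsmul_eq_zero]
        exact ⟨2, by norm_num, by rw [two_nsmul, hTT]⟩
  have h5 : Nat.card (AddCommGroup.torsion (q4 D).toAffine.Point) =
      (AddCommGroup.torsion (q4 D).toAffine.Point : Set (q4 D).toAffine.Point).ncard := rfl
  rw [h5, hset, Set.ncard_pair]
  exact Affine.Point.some_ne_zero hns |>.symm

end gen

section Q

lemma le_exp {g : WithZero (Multiplicative ℤ)} (h : g < 1) : g ≤ WithZero.exp (-1 : ℤ) := by
  by_cases h0 : g = 0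
  · rw [h0]; exact zero_le
  · rw [← WithZero.exp_log h0] at h ⊢
    rw [← WithZero.exp_zero, WithZero.exp_lt_exp] at h
    rw [WithZero.exp_le_exp]
    omega

/-- the valuation at `2` -/
noncomputable abbrev w2 : Valuation ℚ (WithZero (Multiplicative ℤ)) := Rat.padicValuation 2

lemma w2_two : w2 2 = WithZero.exp (-1 : ℤ) := by
  have := Rat.padicValuation_self 2
  exact_mod_cast this

lemma w2_D {m : ℕ} (hm : m % 2 = 1) : w2 (2 * m : ℚ) = WithZero.exp (-1 : ℤ) := by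
  have h1 : w2 ((m : ℤ) : ℚ) = 1 := by
    rw [Rat.padicValuation_cast, Int.padicValuation_eq_one_iff]
    omega
  have h2 : w2 (m : ℚ) = 1 := by exact_mod_cast h1
  rw [map_mul, h2, mul_one, w2_two]

/-- the torsion subgroup over `ℚ` -/
theorem torQ [DecidableEq ℚ] {m : ℕ} (hm : m % 2 = 1) :
    Nat.card (AddCommGroup.torsion (cQ m).toAffine.Point) = 2 := by
  have hc : cQ m = q4 (2 * m : ℚ) := by
    unfold cQ cZ q4
    simp [WeierstrassCurve.map]
  rw [hc]
  set t : WithZero (Multiplicative ℤ) := WithZero.exp (-1 : ℤ) with ht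
  have ht0 : t ≠ 0 := WithZero.exp_ne_zero
  have ht1 : t < 1 := by
    rw [ht, ← WithZero.exp_zero, WithZero.exp_lt_exp]
    norm_num
  have hD := w2_D hm
  have h2 := w2_two
  have h4 : w2 (4 : ℚ) = t ^ 2 := by
    have : (4 : ℚ) = 2 * 2 := by norm_num
    rw [this, map_mul, h2, ← pow_two]
  refine card_tors w2 two_ne_zero ?_ (h2 ▸ ht1) (hD ▸ ht1) ?_
  · intro r hr
    have h5 : (0 : ℚ) ≤ r ^ 2 := sq_nonneg r
    have h6 : (0 : ℚ) < m := by
      have : 0 < m := by omega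
      exact_mod_cast this
    rw [hr] at h5
    linarith
  · intro x x' hx hx1 hxx
    have h5 := congrArg w2 hxx
    have h6 : w2 (x ^ 2) < w2 (2 * m : ℚ) := by
      rw [hD, map_pow]
      have h7 : w2 x ^ 2 ≤ t ^ 2 := pow_le_pow_left' (le_exp hx1) 2
      refine lt_of_le_of_lt h7 ?_
      calc t ^ 2 < t ^ 1 := pow_lt_pow_right_of_lt_one₀ (zero_lt_iff.2 ht0) ht1 (by norm_num)
        _ = t := pow_one t
    have h7 : w2 (x ^ 2 + 2 * m) = t := by
      rw [Valuation.map_add_eq_of_lt_right _ h6, hD]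
    have h8 : w2 (x ^ 2 - 2 * m) = t := by
      rw [Valuation.map_sub_eq_of_lt_right _ h6, hD]
    rw [w2.map_mul, w2.map_mul, w2.map_mul, w2.map_pow, h4, h7, h8] at h5
    have h9 : w2 x' * (w2 x * t) = 1 := by
      refine mul_right_cancel₀ (pow_ne_zero 2 ht0) ?_
      rw [one_mul]
      calc _ = w2 x' * (t ^ 2 * (w2 x * t)) := by
            rw [mul_assoc, mul_comm (w2 x * _)]
        _ = _ := h5
    by_contra h10
    push Not at h10
    have h11 : w2 x * t ≤ 1 := mul_le_one' hx1.le ht1.le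
    have h12 : w2 x' * (w2 x * t) < 1 := mul_lt_one_of_lt_of_le h10 h11
    exact absurd h9 h12.ne

end Q

section K

variable {K : Type} [Field K] [NumberField K] (e : ZI ≃+* 𝓞 K)

/-- the valuation at `1 + i` -/
noncomputable abbrev ww : Valuation K (WithZero (Multiplicative ℤ)) :=
  (plc e pi1_prime).valuation K

lemma ww_pi : ww e (em0 e pi1) = WithZero.exp (-1 : ℤ) := Pool.Agent.Y715.Z.val_z e pi1_prime

lemma pi_lt : ww e (em0 e pi1) < 1 := (Pool.Agent.Y715.Z.val_lt e pi1_prime pi1).2 dvd_rfl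

lemma pi_ne : ww e (em0 e pi1) ≠ 0 :=
  ((ww e).ne_zero_iff).2 (Pool.Agent.Y715.Z.em0_ne e pi1_prime.ne_zero)

lemma ww_one {a : ZI} (h : ¬ pi1 ∣ a) : ww e (em0 e a) = 1 := Pool.Agent.Y715.Z.val_one e pi1_prime h

lemma ww_two : ww e 2 = ww e (em0 e pi1) ^ 2 := by
  have h1 : (2 : ZI) = -im1 * pi1 ^ 2 := by decide
  have h2 : (2 : K) = em0 e 2 := by rw [map_ofNat]
  have h3 : ¬ pi1 ∣ (-im1 : ZI) := fun h => pi1_prime.not_isUnit
    (isUnit_of_dvd_unit h (IsUnit.of_mul_eq_one im1 (by decide)))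
  rw [h2, h1, map_mul, map_pow, map_mul, map_pow, ww_one e h3, one_mul]

lemma repr {x : K} (hx : x ≠ 0) (h : ww e x < 1) : ∃ (j : ℕ) (a b : ZI), ¬ pi1 ∣ a ∧ ¬ pi1 ∣ b ∧
    x * em0 e b = em0 e pi1 ^ (j + 1) * em0 e a := by
  obtain ⟨a0, b0, hb0, hab⟩ := IsFractionRing.div_surjective (A := 𝓞 K) x
  set a1 := e.symm a0 with ha1
  set b1 := e.symm b0 with hb1
  have ea : em0 e a1 = algebraMap (𝓞 K) K a0 := by
    rw [Pool.Agent.Y715.Z.em0_apply, ha1, RingEquiv.apply_symm_apply]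
  have eb : em0 e b1 = algebraMap (𝓞 K) K b0 := by
    rw [Pool.Agent.Y715.Z.em0_apply, hb1, RingEquiv.apply_symm_apply]
  rw [← ea, ← eb] at hab
  have hb1n : b1 ≠ 0 := by
    intro h0
    rw [h0, map_zero, div_zero] at hab
    exact hx hab.symm
  have ha1n : a1 ≠ 0 := by
    intro h0
    rw [h0, map_zero, zero_div] at hab
    exact hx hab.symm
  obtain ⟨k, a, hka, hka2⟩ := WfDvdMonoid.max_power_factor ha1n pi1_prime.irreducible
  obtain ⟨l, b, hlb, hlb2⟩ := WfDvdMonoid.max_power_factor hb1n pi1_prime.irreducible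
  have hpn : em0 e pi1 ≠ 0 := Pool.Agent.Y715.Z.em0_ne e pi1_prime.ne_zero
  have hbn : em0 e b ≠ 0 := Pool.Agent.Y715.Z.em0_ne e (by rintro rfl; exact hlb (dvd_zero _))
  have h1 : x * (em0 e pi1 ^ l * em0 e b) = em0 e pi1 ^ k * em0 e a := by
    rw [← hab, hka2, hlb2, map_mul, map_mul, map_pow, map_pow]
    field_simp
  have h2 := congrArg (ww e) h1
  rw [map_mul, map_mul, map_mul, ww_one e hka, ww_one e hlb, mul_one, mul_one, map_pow, map_pow] at h2
  have hkl : l < k := by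
    by_contra hkl
    push Not at hkl
    have h3 : ww e (em0 e pi1) ^ l ≤ ww e (em0 e pi1) ^ k := pow_le_pow_right_of_le_one' (pi_lt e).le hkl
    rw [← h2] at h3
    have h4 : ww e x * ww e (em0 e pi1) ^ l < ww e (em0 e pi1) ^ l := by
      have h5 : 0 < ww e (em0 e pi1) ^ l := zero_lt_iff.2 (pow_ne_zero _ (pi_ne e))
      calc ww e x * ww e (em0 e pi1) ^ l < 1 * ww e (em0 e pi1) ^ l :=
            mul_lt_mul_of_pos_right h h5
        _ = _ := one_mul _
    exact absurd h3 (not_le.2 h4)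
  obtain ⟨j, rfl⟩ : ∃ j, k = l + (j + 1) := ⟨k - l - 1, by omega⟩
  refine ⟨j, a, b, hka, hlb, ?_⟩
  refine mul_left_cancel₀ (pow_ne_zero l hpn) ?_
  linear_combination h1

lemma odd_of {a : ZI} (h : ¬ pi1 ∣ a) : (a.re + a.im) % 2 = 1 := by
  by_contra h1
  refine h ⟨⟨(a.re + a.im) / 2, (a.im - a.re) / 2⟩, ?_⟩
  apply Zsqrtd.ext
  · simp [pi1]
    omega
  · simp [pi1]
    omega

lemma sq_one {a : ZI} (h : ¬ pi1 ∣ a) : (2 : ZI) ∣ a ^ 2 - 1 := by
  have h1 := odd_of h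
  have h2 : (a.re * a.re + a.im * a.im) % 2 = 1 := by
    rcases Int.emod_two_eq_zero_or_one a.re with h3 | h3 <;>
      rcases Int.emod_two_eq_zero_or_one a.im with h4 | h4 <;>
      simp [Int.add_emod, Int.mul_emod, h3, h4] at h1 ⊢
  refine ⟨⟨(a.re * a.re - a.im * a.im - 1) / 2, a.re * a.im⟩, ?_⟩
  apply Zsqrtd.ext
  · simp [pow_two]
    omega
  · simp [pow_two]
    ring

lemma not_pi {c : ZI} : ¬ pi1 ∣ 1 + pi1 * c := by
  intro h
  have h1 : pi1 ∣ (1 : ZI) := (dvd_add_left (dvd_mul_right pi1 c)).1 h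
  exact pi1_prime.not_isUnit (isUnit_of_dvd_one h1)

/-- the numbers `i a² + s Δ b²` -/
lemma ww_aux {Δ a b : ZI} (hΔ : (2 : ZI) ∣ Δ - 1) (ha : ¬ pi1 ∣ a) (hb : ¬ pi1 ∣ b) :
    ww e (em0 e (im1 * a ^ 2 + Δ * b ^ 2)) = ww e (em0 e pi1) ∧
    ww e (em0 e (im1 * a ^ 2 - Δ * b ^ 2)) = ww e (em0 e pi1) := by
  obtain ⟨c1, h1⟩ := sq_one ha
  obtain ⟨c2, h2⟩ := sq_one hb
  obtain ⟨c3, h3⟩ := hΔ
  have e2 : (2 : ZI) = pi1 * (-im1 * pi1) := by decide
  have e3 : (1 : ZI) + im1 = pi1 := by decide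
  have e4 : im1 - 1 = (im1 : ZI) * pi1 := by decide
  have a1 : a ^ 2 = 1 + 2 * c1 := by linear_combination h1
  have a2 : b ^ 2 = 1 + 2 * c2 := by linear_combination h2
  have a3 : Δ = 1 + 2 * c3 := by linear_combination h3
  constructor
  · have h4 : im1 * a ^ 2 + Δ * b ^ 2 = pi1 * (1 + pi1 * (-im1 * (im1 * c1 + c2 + c3 + 2 * c2 * c3))) := by
      rw [a1, a2, a3]
      linear_combination e3 + (im1 * c1 + c2 + c3 + 2 * c2 * c3) * e2
    rw [h4, map_mul, map_mul, ww_one e not_pi, mul_one]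
  · have h4 : im1 * a ^ 2 - Δ * b ^ 2 =
        im1 * (pi1 * (1 + pi1 * (- (im1 * c1 - c2 - c3 - 2 * c2 * c3)))) := by
      rw [a1, a2, a3]
      have e5 : im1 * im1 = (-1 : ZI) := by decide
      linear_combination e4 + (im1 * c1 - c2 - c3 - 2 * c2 * c3) * e2
    have h5 : ¬ pi1 ∣ (im1 : ZI) := fun h => pi1_prime.not_isUnit
      (isUnit_of_dvd_unit h (IsUnit.of_mul_eq_one (-im1) (by decide)))
    rw [h4, map_mul, map_mul, ww_one e h5, one_mul, map_mul, map_mul, ww_one e not_pi, mul_one]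

lemma prim_two {Δ : ZI} (h : Pool.Agent.H304R2.EC.A1.prim Δ) : (2 : ZI) ∣ Δ - 1 := by
  obtain ⟨h1, h2⟩ := h
  refine ⟨⟨(Δ.re - 1) / 2, Δ.im / 2⟩, ?_⟩
  apply Zsqrtd.ext
  · simp
    omega
  · simp
    omega

lemma ww_D {Δ : ZI} (h : Pool.Agent.H304R2.EC.A1.prim Δ) :
    ww e (em0 e (2 * Δ)) = ww e (em0 e pi1) ^ 2 := by
  have h1 : ¬ pi1 ∣ Δ := by
    intro h2
    have h3 := prim_two h
    have h4 : pi1 ∣ Δ - 1 := (show pi1 ∣ (2 : ZI) from ⟨-im1 * pi1, by decide⟩).trans h3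
    have h5 : pi1 ∣ (1 : ZI) := by
      have := dvd_sub h2 h4
      rwa [sub_sub_cancel] at this
    exact pi1_prime.not_isUnit (isUnit_of_dvd_one h5)
  rw [map_mul, map_mul, ww_one e h1, mul_one, map_ofNat, ww_two]

lemma key {Δ : ZI} (h : Pool.Agent.H304R2.EC.A1.prim Δ) {x : K} (hx : x ≠ 0) (hx1 : ww e x < 1) :
    (ww e x ≤ ww e (em0 e pi1) ^ 2 ∧ ww e (x ^ 2 + em0 e (2 * Δ)) = ww e (em0 e pi1) ^ 2 ∧
      ww e (x ^ 2 - em0 e (2 * Δ)) = ww e (em0 e pi1) ^ 2) ∨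
    (ww e x = ww e (em0 e pi1) ∧ ww e (x ^ 2 + em0 e (2 * Δ)) = ww e (em0 e pi1) ^ 3 ∧
      ww e (x ^ 2 - em0 e (2 * Δ)) = ww e (em0 e pi1) ^ 3) := by
  obtain ⟨j, a, b, ha, hb, hab⟩ := repr e hx hx1
  have h1 := congrArg (ww e) hab
  rw [map_mul, map_mul, ww_one e ha, ww_one e hb, mul_one, mul_one, map_pow] at h1
  have hD := ww_D e h
  rcases Nat.eq_zero_or_pos j with hj | hj
  · right
    subst hj
    rw [zero_add, pow_one] at h1 hab
    obtain ⟨k1, k2⟩ := ww_aux e (prim_two h) ha hb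
    have hsq : em0 e pi1 ^ 2 = 2 * em0 e im1 := by
      have : (pi1 : ZI) ^ 2 = 2 * im1 := by decide
      rw [← map_pow, this, map_mul, map_ofNat]
    have e1 : (x ^ 2 + em0 e (2 * Δ)) * em0 e b ^ 2 = 2 * em0 e (im1 * a ^ 2 + Δ * b ^ 2) := by
      simp only [map_add, map_mul, map_pow, map_ofNat]
      linear_combination (x * em0 e b + em0 e pi1 * em0 e a) * hab + em0 e a ^ 2 * hsq
    have e2 : (x ^ 2 - em0 e (2 * Δ)) * em0 e b ^ 2 = 2 * em0 e (im1 * a ^ 2 - Δ * b ^ 2) := by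
      simp only [map_sub, map_mul, map_pow, map_ofNat]
      linear_combination (x * em0 e b + em0 e pi1 * em0 e a) * hab + em0 e a ^ 2 * hsq
    have e3 := congrArg (ww e) e1
    have e4 := congrArg (ww e) e2
    rw [(ww e).map_mul, (ww e).map_mul, (ww e).map_pow, ww_one e hb, one_pow, mul_one, ww_two, k1,
      ← pow_succ] at e3
    rw [(ww e).map_mul, (ww e).map_mul, (ww e).map_pow, ww_one e hb, one_pow, mul_one, ww_two, k2,
      ← pow_succ] at e4
    exact ⟨h1, e3, e4⟩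
  · left
    have h2 : ww e x ≤ ww e (em0 e pi1) ^ 2 := by
      rw [h1]
      exact pow_le_pow_right_of_le_one' (pi_lt e).le (by omega)
    have h3 : ww e (x ^ 2) < ww e (em0 e (2 * Δ)) := by
      rw [hD, map_pow]
      have h4 : ww e x ^ 2 ≤ (ww e (em0 e pi1) ^ 2) ^ 2 := pow_le_pow_left' h2 2
      refine lt_of_le_of_lt h4 ?_
      rw [← pow_mul]
      exact pow_lt_pow_right_of_lt_one₀ (zero_lt_iff.2 (pi_ne e)) (pi_lt e) (by norm_num)
    refine ⟨h2, ?_, ?_⟩
    · rw [Valuation.map_add_eq_of_lt_right _ h3, hD]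
    · rw [Valuation.map_sub_eq_of_lt_right _ h3, hD]

/-- the torsion subgroup over `ℚ(i)` -/
theorem torK [DecidableEq K] {Δ : ZI} (h : Pool.Agent.H304R2.EC.A1.prim Δ) :
    Nat.card (AddCommGroup.torsion (cK e Δ).toAffine.Point) = 2 := by
  have hΔ0 : Δ ≠ 0 := by
    rintro rfl
    have := prim_two h
    revert this
    rintro ⟨c, hc⟩
    have := congrArg Zsqrtd.re hc
    simp at this
    omega
  have hD0 : em0 e (2 * Δ) ≠ 0 :=
    Pool.Agent.Y715.Z.em0_ne e (mul_ne_zero two_ne_zero hΔ0)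
  have ht := pi_lt e
  have ht0 := pi_ne e
  have hD1 : ww e (em0 e (2 * Δ)) < 1 := by
    rw [ww_D e h]
    exact pow_lt_one₀ zero_le ht two_ne_zero
  have h21 : ww e 2 < 1 := by
    rw [ww_two]
    exact pow_lt_one₀ zero_le ht two_ne_zero
  have h4 : ww e (4 : K) = ww e (em0 e pi1) ^ 4 := by
    have : (4 : K) = 2 * 2 := by norm_num
    rw [this, map_mul, ww_two, ← pow_add]
  refine card_tors (ww e) two_ne_zero ?_ h21 hD1 ?_
  · intro r hr
    have hr0 : r ≠ 0 := by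
      rintro rfl
      apply hD0
      rw [zero_pow two_ne_zero] at hr
      exact neg_eq_zero.1 hr.symm
    have hr1 : ww e r < 1 := by
      have h5 := congrArg (ww e) hr
      rw [Valuation.map_neg, map_pow] at h5
      by_contra h6
      exact absurd (one_le_pow₀ (not_lt.1 h6) : 1 ≤ ww e r ^ 2) (not_le.2 (h5 ▸ hD1))
    have h6 : r ^ 2 + em0 e (2 * Δ) = 0 := by rw [hr]; ring
    rcases key e h hr0 hr1 with ⟨-, h7, -⟩ | ⟨-, h7, -⟩
    · rw [h6, map_zero] at h7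
      exact pow_ne_zero _ ht0 h7.symm
    · rw [h6, map_zero] at h7
      exact pow_ne_zero _ ht0 h7.symm
  · intro x x' hx hx1 hxx
    have h5 := congrArg (ww e) hxx
    rw [map_mul, map_mul, map_mul, map_pow, h4] at h5
    rcases key e h hx hx1 with ⟨h6, h7, h8⟩ | ⟨h6, h7, h8⟩
    · rw [h7, h8] at h5
      have h9 : ww e x' * (ww e x * ww e (em0 e pi1) ^ 2) = 1 := by
        refine mul_right_cancel₀ (pow_ne_zero 4 ht0) ?_
        rw [one_mul]
        calc _ = ww e x' * (ww e (em0 e pi1) ^ 4 * (ww e x * ww e (em0 e pi1) ^ 2)) := by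
              rw [mul_assoc, mul_comm (ww e x * _)]
          _ = _ := by rw [h5, ← pow_mul]
      by_contra h10
      push Not at h10
      have h11 : ww e x * ww e (em0 e pi1) ^ 2 ≤ 1 :=
        mul_le_one' hx1.le (pow_le_one' ht.le 2)
      have h12 : ww e x' * (ww e x * ww e (em0 e pi1) ^ 2) < 1 := mul_lt_one_of_lt_of_le h10 h11
      exact absurd h9 h12.ne
    · rw [h6, h7, h8] at h5
      have h9 : ww e x' * ww e (em0 e pi1) ^ 2 = 1 := by
        refine mul_right_cancel₀ (pow_ne_zero 6 ht0) ?_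
        rw [one_mul]
        calc _ = ww e x' * (ww e (em0 e pi1) ^ 4 * (ww e (em0 e pi1) * ww e (em0 e pi1) ^ 3)) := by
              rw [mul_assoc, ← pow_add, ← pow_succ', ← pow_add]
          _ = _ := by rw [h5, ← pow_mul]
      by_contra h10
      push Not at h10
      have h12 : ww e x' * ww e (em0 e pi1) ^ 2 < 1 :=
        mul_lt_one_of_lt_of_le h10 (pow_le_one' ht.le 2)
      exact absurd h9 h12.ne

/-- the group of points, if it is finite -/
theorem ktor : S_KTOR := by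
  classical
  intro K _ _ e Δ h hf
  have h1 := torK e h.prm
  have h2 : AddCommGroup.torsion (cK e Δ).toAffine.Point = ⊤ := by
    ext P
    simp only [AddSubgroup.mem_top, iff_true]
    exact isOfFinAddOrder_of_finite P
  rw [h2] at h1
  rw [← h1]
  exact (Nat.card_congr (AddSubgroup.topEquiv (G := (cK e Δ).toAffine.Point)).toEquiv).symm

end K

end Pool.Agent.D0H10.Q4.Tor
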